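import Mathlib

/-!
A bounded complex algebraic set is finite.
-/

open Set Filter Topology MvPolynomial

namespace Stek

/-- A bounded algebraic set in a finite dimensional complex space is finite. -/
theorem finite_of_bounded {ι : Type*} [Finite ι] (I : Ideal (MvPolynomial ι ℂ)) (R : ℝ)
    (hb : ∀ x ∈ zeroLocus ℂ I, ∀ i, ‖x i‖ ≤ R) : (zeroLocus ℂ I).Finite := by
  classical
  have := Fintype.ofFinite ι
  by_cases hI : I = ⊤
  · rw [hI, zeroLocus_top]
    exact Set.finite_empty
  have hnt : Nontrivial (MvPolynomial ι ℂ ⧸ I) := Ideal.Quotient.nontrivial_iff.mpr hI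
  have hft : Algebra.FiniteType ℂ (MvPolynomial ι ℂ ⧸ I) :=
    Algebra.FiniteType.of_surjective (Ideal.Quotient.mkₐ ℂ I) (Ideal.Quotient.mkₐ_surjective ℂ I)
  obtain ⟨s, g, ginj, gint⟩ := exists_integral_inj_algHom_of_fg ℂ (MvPolynomial ι ℂ ⧸ I)
  -- no free variable
  have hs : IsEmpty (Fin s) := by
    by_contra hne
    rw [not_isEmpty_iff] at hne
    obtain ⟨i0⟩ := hne
    obtain ⟨h, hh⟩ := Ideal.Quotient.mk_surjective (g (X i0))
    have key : ∀ z : ℂ, ∃ x ∈ zeroLocus ℂ I, aeval x h = z := by
      intro z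
      let y : Fin s → ℂ := fun _ => z
      algebraize [g.toRingHom]
      have hint : Algebra.IsIntegral (MvPolynomial (Fin s) ℂ) (MvPolynomial ι ℂ ⧸ I) := ⟨gint⟩
      have hker : RingHom.ker (algebraMap (MvPolynomial (Fin s) ℂ) (MvPolynomial ι ℂ ⧸ I)) ≤
          vanishingIdeal ℂ {y} := by
        have h1 : RingHom.ker (algebraMap (MvPolynomial (Fin s) ℂ) (MvPolynomial ι ℂ ⧸ I)) = ⊥ := by
          rw [← RingHom.injective_iff_ker_eq_bot]
          exact ginj
        rw [h1]
        exact bot_le
      obtain ⟨Q, hQmax, hQ⟩ := Ideal.exists_ideal_over_maximal_of_isIntegral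
        (vanishingIdeal ℂ {y} : Ideal (MvPolynomial (Fin s) ℂ)) hker
      have hJmax : (Q.comap (Ideal.Quotient.mk I)).IsMaximal :=
        Ideal.comap_isMaximal_of_surjective _ Ideal.Quotient.mk_surjective
      obtain ⟨x, hx⟩ := isMaximal_iff_eq_vanishingIdeal_singleton.mp hJmax
      refine ⟨x, ?_, ?_⟩
      · intro p hp
        have h1 : p ∈ Q.comap (Ideal.Quotient.mk I) := by
          rw [Ideal.mem_comap, Ideal.Quotient.eq_zero_iff_mem.mpr hp]
          exact Q.zero_mem
        rw [hx, mem_vanishingIdeal_singleton_iff] at h1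
        exact h1
      · have h1 : (X i0 - C z : MvPolynomial (Fin s) ℂ) ∈
            (vanishingIdeal ℂ {y} : Ideal (MvPolynomial (Fin s) ℂ)) := by
          rw [mem_vanishingIdeal_singleton_iff]
          simp [y]
        rw [← hQ, Ideal.mem_comap] at h1
        have h2 : algebraMap (MvPolynomial (Fin s) ℂ) (MvPolynomial ι ℂ ⧸ I) (X i0 - C z) =
            Ideal.Quotient.mk I (h - C z) := by
          change g (X i0 - C z) = _
          rw [map_sub, ← hh, map_sub]
          congr 1
          have h3 := g.commutes z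
          rw [algebraMap_eq] at h3
          rw [h3]
          rfl
        rw [h2, ← Ideal.mem_comap, hx, mem_vanishingIdeal_singleton_iff] at h1
        simp only [map_sub, aeval_C, Algebra.algebraMap_self, RingHom.id_apply] at h1
        exact sub_eq_zero.mp h1
    have hK : IsCompact (Set.univ.pi fun _ : ι => Metric.closedBall (0 : ℂ) R) :=
      isCompact_univ_pi fun _ => isCompact_closedBall 0 R
    have hc : Continuous fun x : ι → ℂ => aeval x h := by
      have : (fun x : ι → ℂ => aeval x h) = fun x => eval x h := by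
        funext x
        simp
      rw [this]
      exact MvPolynomial.continuous_eval h
    obtain ⟨B, hB⟩ := hK.exists_bound_of_continuousOn hc.continuousOn
    obtain ⟨x, hx, hxz⟩ := key ((|B| + 1 : ℝ) : ℂ)
    have h1 := hB x (by
      intro i _
      rw [Metric.mem_closedBall, dist_zero_right]
      exact hb x hx i)
    rw [hxz, Complex.norm_real, Real.norm_eq_abs] at h1
    have h2 : |B| + 1 ≤ B := (le_abs_self _).trans h1
    linarith [le_abs_self B]
  -- every element is algebraic
  have hall : ∀ a : MvPolynomial ι ℂ ⧸ I, IsIntegral ℂ a := by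
    intro a
    have h1 : (algebraMap ℂ (MvPolynomial (Fin s) ℂ)).IsIntegral := by
      apply RingHom.isIntegral_of_surjective
      intro p
      exact ⟨coeff 0 p, (eq_C_of_isEmpty p).symm⟩
    have h2 : (g.toRingHom.comp (algebraMap ℂ (MvPolynomial (Fin s) ℂ))).IsIntegral :=
      RingHom.IsIntegral.trans _ _ h1 gint
    have h3 : g.toRingHom.comp (algebraMap ℂ (MvPolynomial (Fin s) ℂ)) =
        algebraMap ℂ (MvPolynomial ι ℂ ⧸ I) := g.comp_algebraMap
    rw [h3] at h2
    exact h2 a
  have hX : ∀ i : ι, ∃ p : Polynomial ℂ, p ≠ 0 ∧ ∀ x ∈ zeroLocus ℂ I, p.IsRoot (x i) := by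
    intro i
    obtain ⟨p, hp1, hp2⟩ := hall (Ideal.Quotient.mk I (X i))
    refine ⟨p, hp1.ne_zero, ?_⟩
    intro x hx
    have h1 : Ideal.Quotient.mk I (Polynomial.aeval (X i : MvPolynomial ι ℂ) p) = 0 := by
      have h2 : Polynomial.aeval ((Ideal.Quotient.mkₐ ℂ I) (X i)) p = 0 := hp2
      rw [Polynomial.aeval_algHom_apply] at h2
      exact h2
    rw [Ideal.Quotient.eq_zero_iff_mem] at h1
    have h2 := hx _ h1
    rw [← Polynomial.aeval_algHom_apply, aeval_X] at h2
    simpa [Polynomial.IsRoot] using h2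
  choose p hp0 hp using hX
  refine (Set.Finite.pi' fun i => (p i).roots.toFinset.finite_toSet).subset ?_
  intro x hx i
  simp only [Finset.mem_coe, Multiset.mem_toFinset]
  rw [Polynomial.mem_roots (hp0 i)]
  exact hp i x hx

end Stek
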