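import Mathlib

/-!
Two curves in a finite dimensional space and the bilinear forms which are constant on them.
-/

set_option maxSynthPendingDepth 3

open Set Filter Topology

namespace Stek

variable {U : Type*} [NormedAddCommGroup U] [NormedSpace ℝ U]

/-- Bilinear forms. -/
abbrev Bil (U : Type*) [NormedAddCommGroup U] [NormedSpace ℝ U] : Type _ :=
  U →L[ℝ] U →L[ℝ] ℝ

/-- derivative of a product of jets -/
theorem hd_bil (B : Bil U) {f g : ℝ → U} {f' g' : U} {p : ℝ} (hf : HasDerivAt f f' p)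
    (hg : HasDerivAt g g' p) :
    HasDerivAt (fun x => B (f x) (g x)) (B f' (g p) + B (f p) g') p := by
  have h1 : HasDerivAt (fun x => B (f x)) (B f') p := B.hasFDerivAt.comp_hasDerivAt p hf
  exact h1.clm_apply hg

/-- derivative of a product of jets, first slot -/
theorem hd_fst (B : Bil U) {f : ℝ → U} {f' : U} {p : ℝ} (hf : HasDerivAt f f' p) (z : U) :
    HasDerivAt (fun x => B (f x) z) (B f' z) p := by
  have := hd_bil B hf (hasDerivAt_const p z)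
  simpa using this

/-- derivative of a product of jets, second slot -/
theorem hd_snd (B : Bil U) {g : ℝ → U} {g' : U} {p : ℝ} (z : U) (hg : HasDerivAt g g' p) :
    HasDerivAt (fun x => B z (g x)) (B z g') p := by
  have := hd_bil B (hasDerivAt_const p z) hg
  simpa using this

/-- a function which is constant near a point has derivative zero -/
theorem deriv_zero_of_const {E : Type*} [NormedAddCommGroup E] [NormedSpace ℝ E]
    {f : ℝ → E} {f' c : E} {p a b : ℝ} (hp : p ∈ Ioo a b)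
    (hc : ∀ x ∈ Ioo a b, f x = c) (hf : HasDerivAt f f' p) : f' = 0 := by
  have h1 : f =ᶠ[𝓝 p] fun _ => c := by
    filter_upwards [Ioo_mem_nhds hp.1 hp.2] with x hx using hc x hx
  have h2 : HasDerivAt f 0 p := (hasDerivAt_const p c).congr_of_eventuallyEq h1
  exact hf.unique h2

/-- The four identities satisfied by a symmetric form which is constant on a curve and on its
derivative. -/
theorem jet_identities (B : Bil U) (hs : ∀ x y, B x y = B y x) (u : ℕ → ℝ → U) {a b c0 c1 : ℝ}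
    (du : ∀ n, ∀ p ∈ Ioo a b, HasDerivAt (u n) (u (n + 1) p) p)
    (h0 : ∀ p ∈ Ioo a b, B (u 0 p) (u 0 p) = c0) (h1 : ∀ p ∈ Ioo a b, B (u 1 p) (u 1 p) = c1) :
    ∀ p ∈ Ioo a b, B (u 0 p) (u 1 p) = 0 ∧ B (u 0 p) (u 2 p) = -c1 ∧ B (u 1 p) (u 2 p) = 0 ∧
      B (u 0 p) (u 3 p) = 0 := by
  have e01 : ∀ p ∈ Ioo a b, B (u 0 p) (u 1 p) = 0 := by
    intro p hp
    have := deriv_zero_of_const hp h0 (hd_bil B (du 0 p hp) (du 0 p hp))
    rw [hs (u (0 + 1) p) (u 0 p)] at this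
    simp only [zero_add] at this
    linarith
  have e12 : ∀ p ∈ Ioo a b, B (u 1 p) (u 2 p) = 0 := by
    intro p hp
    have := deriv_zero_of_const hp h1 (hd_bil B (du 1 p hp) (du 1 p hp))
    rw [hs (u (1 + 1) p) (u 1 p)] at this
    norm_num at this
    linarith
  have e02 : ∀ p ∈ Ioo a b, B (u 0 p) (u 2 p) = -c1 := by
    intro p hp
    have := deriv_zero_of_const hp e01 (hd_bil B (du 0 p hp) (du 1 p hp))
    norm_num at this
    have := h1 p hp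
    linarith
  have e03 : ∀ p ∈ Ioo a b, B (u 0 p) (u 3 p) = 0 := by
    intro p hp
    have := deriv_zero_of_const hp e02 (hd_bil B (du 0 p hp) (du 2 p hp))
    norm_num at this
    have := e12 p hp
    linarith
  exact fun p hp => ⟨e01 p hp, e02 p hp, e12 p hp, e03 p hp⟩

/-- The complete local data of a contradiction: two curves `u`, `w` with all their derivatives,
a space `T` of symmetric forms vanishing on both curves and on their derivatives, a form `Q0`, and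
a differentiable choice `s` of elements of `T`, with partial derivatives `s1` and `s2`, such that
`Q0 + s (p, q)` kills `u p - w q`. -/
structure Dat (σ : ℝ) (u w : ℕ → ℝ → U) (T : Submodule ℝ (Bil U)) (Q0 : Bil U)
    (s s1 s2 : ℝ × ℝ → Bil U) (a b c d : ℝ) : Prop where
  hσ : 0 < σ
  hab : a < b
  hcd : c < d
  du : ∀ n, ∀ p ∈ Ioo a b, HasDerivAt (u n) (u (n + 1) p) p
  dw : ∀ n, ∀ p ∈ Ioo c d, HasDerivAt (w n) (w (n + 1) p) p
  ucu : ∀ ξ : U →L[ℝ] ℝ, ∀ a' b' : ℝ, a' < b' → Ioo a' b' ⊆ Ioo a b →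
    (∀ p ∈ Ioo a' b', ξ (u 0 p) = 0) → ξ = 0
  ucw : ∀ ξ : U →L[ℝ] ℝ, ∀ a' b' : ℝ, a' < b' → Ioo a' b' ⊆ Ioo c d →
    (∀ p ∈ Ioo a' b', ξ (w 0 p) = 0) → ξ = 0
  spu : ∀ p ∈ Ioo a b, ∀ ξ : U →L[ℝ] ℝ, (∀ j < 6, ξ (u j p) = 0) → ξ = 0
  spw : ∀ p ∈ Ioo c d, ∀ ξ : U →L[ℝ] ℝ, (∀ j < 6, ξ (w j p) = 0) → ξ = 0
  sym : ∀ t ∈ T, ∀ x y : U, t x y = t y x
  tu : ∀ t ∈ T, ∀ p ∈ Ioo a b, t (u 0 p) (u 0 p) = 0
  tu1 : ∀ t ∈ T, ∀ p ∈ Ioo a b, t (u 1 p) (u 1 p) = 0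
  tw : ∀ t ∈ T, ∀ p ∈ Ioo c d, t (w 0 p) (w 0 p) = 0
  tw1 : ∀ t ∈ T, ∀ p ∈ Ioo c d, t (w 1 p) (w 1 p) = 0
  qsym : ∀ x y : U, Q0 x y = Q0 y x
  qu : ∀ p ∈ Ioo a b, Q0 (u 0 p) (u 0 p) = 1
  qu1 : ∀ p ∈ Ioo a b, Q0 (u 1 p) (u 1 p) = σ ^ 2
  qw : ∀ p ∈ Ioo c d, Q0 (w 0 p) (w 0 p) = 1
  qw1 : ∀ p ∈ Ioo c d, Q0 (w 1 p) (w 1 p) = σ ^ 2
  sT : ∀ p ∈ Ioo a b, ∀ q ∈ Ioo c d, s (p, q) ∈ T
  s1T : ∀ p ∈ Ioo a b, ∀ q ∈ Ioo c d, s1 (p, q) ∈ T
  s2T : ∀ p ∈ Ioo a b, ∀ q ∈ Ioo c d, s2 (p, q) ∈ T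
  ds : ∀ p ∈ Ioo a b, ∀ q ∈ Ioo c d, HasFDerivAt s
    ((ContinuousLinearMap.fst ℝ ℝ ℝ).smulRight (s1 (p, q)) +
      (ContinuousLinearMap.snd ℝ ℝ ℝ).smulRight (s2 (p, q))) (p, q)
  hs : ∀ p ∈ Ioo a b, ∀ q ∈ Ioo c d, (Q0 + s (p, q)) (u 0 p - w 0 q) = 0

namespace Dat

variable {σ : ℝ} {u w : ℕ → ℝ → U} {T : Submodule ℝ (Bil U)} {Q0 : Bil U}
    {s s1 s2 : ℝ × ℝ → Bil U} {a b c d : ℝ}

/-- exchanging the two curves -/
theorem swap (D : Dat σ u w T Q0 s s1 s2 a b c d) :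
    Dat σ w u T Q0 (fun z => s (z.2, z.1)) (fun z => s2 (z.2, z.1)) (fun z => s1 (z.2, z.1))
      c d a b where
  hσ := D.hσ
  hab := D.hcd
  hcd := D.hab
  du := D.dw
  dw := D.du
  ucu := D.ucw
  ucw := D.ucu
  spu := D.spw
  spw := D.spu
  sym := D.sym
  tu := D.tw
  tu1 := D.tw1
  tw := D.tu
  tw1 := D.tu1
  qsym := D.qsym
  qu := D.qw
  qu1 := D.qw1
  qw := D.qu
  qw1 := D.qu1
  sT := fun p hp q hq => D.sT q hq p hp
  s1T := fun p hp q hq => D.s2T q hq p hp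
  s2T := fun p hp q hq => D.s1T q hq p hp
  ds := by
    intro p hp q hq
    have h1 := D.ds q hq p hp
    have h2 : HasFDerivAt (fun z : ℝ × ℝ => (z.2, z.1))
        ((ContinuousLinearMap.snd ℝ ℝ ℝ).prod (ContinuousLinearMap.fst ℝ ℝ ℝ)) (p, q) :=
      HasFDerivAt.prodMk hasFDerivAt_snd hasFDerivAt_fst
    have h3 := HasFDerivAt.comp (p, q) (g := s) (f := fun z : ℝ × ℝ => (z.2, z.1)) h1 h2
    refine h3.congr_fderiv ?_
    ext <;> simp
  hs := by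
    intro p hp q hq
    have h1 := D.hs q hq p hp
    have h2 : w 0 p - u 0 q = -(u 0 q - w 0 p) := by abel
    rw [h2, map_neg, h1, neg_zero]

/-- restricting to a smaller rectangle -/
theorem mono (D : Dat σ u w T Q0 s s1 s2 a b c d) {a' b' c' d' : ℝ} (h1 : a' < b') (h2 : c' < d')
    (h3 : Ioo a' b' ⊆ Ioo a b) (h4 : Ioo c' d' ⊆ Ioo c d) :
    Dat σ u w T Q0 s s1 s2 a' b' c' d' where
  hσ := D.hσ
  hab := h1
  hcd := h2
  du := fun n p hp => D.du n p (h3 hp)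
  dw := fun n p hp => D.dw n p (h4 hp)
  ucu := fun ξ x y hxy hs => D.ucu ξ x y hxy (hs.trans h3)
  ucw := fun ξ x y hxy hs => D.ucw ξ x y hxy (hs.trans h4)
  spu := fun p hp => D.spu p (h3 hp)
  spw := fun p hp => D.spw p (h4 hp)
  sym := D.sym
  tu := fun t ht p hp => D.tu t ht p (h3 hp)
  tu1 := fun t ht p hp => D.tu1 t ht p (h3 hp)
  tw := fun t ht p hp => D.tw t ht p (h4 hp)
  tw1 := fun t ht p hp => D.tw1 t ht p (h4 hp)
  qsym := D.qsym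
  qu := fun p hp => D.qu p (h3 hp)
  qu1 := fun p hp => D.qu1 p (h3 hp)
  qw := fun p hp => D.qw p (h4 hp)
  qw1 := fun p hp => D.qw1 p (h4 hp)
  sT := fun p hp q hq => D.sT p (h3 hp) q (h4 hq)
  s1T := fun p hp q hq => D.s1T p (h3 hp) q (h4 hq)
  s2T := fun p hp q hq => D.s2T p (h3 hp) q (h4 hq)
  ds := fun p hp q hq => D.ds p (h3 hp) q (h4 hq)
  hs := fun p hp q hq => D.hs p (h3 hp) q (h4 hq)

/-- the jet identities for `T` and `u` -/
theorem jt (D : Dat σ u w T Q0 s s1 s2 a b c d) {t : Bil U} (ht : t ∈ T) {p : ℝ} (hp : p ∈ Ioo a b) :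
    t (u 0 p) (u 1 p) = 0 ∧ t (u 0 p) (u 2 p) = 0 ∧ t (u 1 p) (u 2 p) = 0 ∧
      t (u 0 p) (u 3 p) = 0 := by
  have := jet_identities t (D.sym t ht) u D.du (D.tu t ht) (D.tu1 t ht) p hp
  simpa using this

/-- symmetry of the forms `Q0 + t` -/
theorem qtsym (D : Dat σ u w T Q0 s s1 s2 a b c d) {t : Bil U} (ht : t ∈ T) (x y : U) :
    (Q0 + t) x y = (Q0 + t) y x := by
  simp only [add_apply]
  rw [D.qsym x y, D.sym t ht x y]

/-- the jet identities for `Q0 + t` and `u` -/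
theorem jq (D : Dat σ u w T Q0 s s1 s2 a b c d) {t : Bil U} (ht : t ∈ T) {p : ℝ} (hp : p ∈ Ioo a b) :
    (Q0 + t) (u 0 p) (u 0 p) = 1 ∧ (Q0 + t) (u 1 p) (u 1 p) = σ ^ 2 ∧
    (Q0 + t) (u 0 p) (u 1 p) = 0 ∧ (Q0 + t) (u 0 p) (u 2 p) = -σ ^ 2 ∧
      (Q0 + t) (u 1 p) (u 2 p) = 0 ∧ (Q0 + t) (u 0 p) (u 3 p) = 0 := by
  have h0 : ∀ p ∈ Ioo a b, (Q0 + t) (u 0 p) (u 0 p) = 1 := by
    intro p hp
    simp only [add_apply]
    rw [D.qu p hp, D.tu t ht p hp, add_zero]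
  have h1 : ∀ p ∈ Ioo a b, (Q0 + t) (u 1 p) (u 1 p) = σ ^ 2 := by
    intro p hp
    simp only [add_apply]
    rw [D.qu1 p hp, D.tu1 t ht p hp, add_zero]
  have := jet_identities (Q0 + t) (D.qtsym ht) u D.du h0 h1 p hp
  exact ⟨h0 p hp, h1 p hp, this⟩

/-- three forms are dependent on `w q` -/
theorem dep (D : Dat σ u w T Q0 s s1 s2 a b c d) {t1 t2 t3 : Bil U} (h1 : t1 ∈ T) (h2 : t2 ∈ T)
    (h3 : t3 ∈ T) {q : ℝ} (hq : q ∈ Ioo c d) :
    ∃ x y z : ℝ, ¬ (x = 0 ∧ y = 0 ∧ z = 0) ∧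
      (x • t1 + y • t2 + z • t3) (w 0 q) = 0 := by
  let v : Fin 3 → ℝ × ℝ :=
    ![(t1 (w 0 q) (w 4 q), t1 (w 0 q) (w 5 q)), (t2 (w 0 q) (w 4 q), t2 (w 0 q) (w 5 q)),
      (t3 (w 0 q) (w 4 q), t3 (w 0 q) (w 5 q))]
  have hv : ¬ LinearIndependent ℝ v := by
    intro h
    have := h.fintype_card_le_finrank
    simp at this
  obtain ⟨g, hg, i, hi⟩ := Fintype.not_linearIndependent_iff.mp hv
  refine ⟨g 0, g 1, g 2, ?_, ?_⟩
  · rintro ⟨e0, e1, e2⟩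
    fin_cases i
    · exact hi e0
    · exact hi e1
    · exact hi e2
  · have hT : g 0 • t1 + g 1 • t2 + g 2 • t3 ∈ T :=
      T.add_mem (T.add_mem (T.smul_mem _ h1) (T.smul_mem _ h2)) (T.smul_mem _ h3)
    simp only [Fin.sum_univ_three] at hg
    have hg1 := congrArg Prod.fst hg
    have hg2 := congrArg Prod.snd hg
    simp [v] at hg1 hg2
    apply D.spw q hq
    have hj := D.swap.jt hT hq
    have h00 := D.tw _ hT q hq
    intro j hj6
    interval_cases j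
    · exact h00
    · exact hj.1
    · exact hj.2.1
    · exact hj.2.2.2
    · simp
      linarith
    · simp
      linarith

end Dat

end Stek
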