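import Pool.Agent.H.MP_fc2485_gt.Rank4

/-!
There are only finitely many forms of rank at most four which are constant on a curve and on its
derivative.
-/

set_option maxSynthPendingDepth 3

open Set Filter Topology
open scoped ContDiff Matrix

namespace Stek

variable {m : ℕ}

/-- complex symmetric forms of rank at most four, constant on a curve and on its derivative -/
def Gr (u : ℕ → ℝ → Fin m → ℝ) (a b : ℝ) (c0 c1 : ℂ) : Set (Fin m × Fin m → ℂ) :=
  {x | (∀ k l, x (k, l) = x (l, k)) ∧ D5 x ∧ (∀ p ∈ Ioo a b, cf x (u 0 p) (u 0 p) = c0) ∧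
    ∀ p ∈ Ioo a b, cf x (u 1 p) (u 1 p) = c1}

theorem cf_smul (c : ℂ) (x : Fin m × Fin m → ℂ) (v w : Fin m → ℝ) :
    cf (c • x) v w = c * cf x v w := by
  unfold cf
  rw [Finset.mul_sum]
  apply Finset.sum_congr rfl
  intro k _
  rw [Finset.mul_sum]
  apply Finset.sum_congr rfl
  intro l _
  rw [Pi.smul_apply, smul_eq_mul]
  ring

theorem cg_smul (c : ℂ) (x : Fin m × Fin m → ℂ) (v w : Fin m → ℂ) :
    cg (c • x) v w = c * cg x v w := by
  unfold cg
  rw [Finset.mul_sum]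
  apply Finset.sum_congr rfl
  intro k _
  rw [Finset.mul_sum]
  apply Finset.sum_congr rfl
  intro l _
  rw [Pi.smul_apply, smul_eq_mul]
  ring

theorem cg_cont (v w : Fin m → ℂ) : Continuous fun x : Fin m × Fin m → ℂ => cg x v w := by
  unfold cg
  fun_prop

theorem cf_cont (v w : Fin m → ℝ) : Continuous fun x : Fin m × Fin m → ℂ => cf x v w := by
  unfold cf
  fun_prop

theorem D5.smul {x : Fin m × Fin m → ℂ} (h : D5 x) (c : ℂ) : D5 (c • x) := by
  intro v w
  have h1 : (Matrix.of fun i j => cg (c • x) (v i) (w j)) =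
      c • (Matrix.of fun i j => cg x (v i) (w j)) := by
    ext i j
    simp [cg_smul]
  rw [h1, Matrix.det_smul, h v w, mul_zero]

theorem D5_closed : IsClosed {x : Fin m × Fin m → ℂ | D5 x} := by
  have h1 : {x : Fin m × Fin m → ℂ | D5 x} = ⋂ v : Fin 5 → Fin m → ℂ, ⋂ w : Fin 5 → Fin m → ℂ,
      {x | Matrix.det (Matrix.of fun i j => cg x (v i) (w j)) = 0} := by
    ext x
    simp [D5]
  rw [h1]
  apply isClosed_iInter
  intro v
  apply isClosed_iInter
  intro w
  apply isClosed_eq _ continuous_const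
  apply Continuous.matrix_det
  apply continuous_matrix
  intro i j
  exact cg_cont (v i) (w j)

/-- the set of these forms is bounded -/
theorem Gr_bounded {u : ℕ → ℝ → Fin m → ℝ} {a b : ℝ} (hab : a < b)
    (du : ∀ n, ∀ p ∈ Ioo a b, HasDerivAt (u n) (u (n + 1) p) p)
    (ucu : ∀ ξ : (Fin m → ℝ) →L[ℝ] ℝ, ∀ a' b' : ℝ, a' < b' → Ioo a' b' ⊆ Ioo a b →
      (∀ p ∈ Ioo a' b', ξ (u 0 p) = 0) → ξ = 0) (c0 c1 : ℂ) :
    ∃ R : ℝ, ∀ x ∈ Gr u a b c0 c1, ∀ i, ‖x i‖ ≤ R := by
  by_contra hcon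
  push Not at hcon
  have h1 : ∀ n : ℕ, ∃ x ∈ Gr u a b c0 c1, (n : ℝ) < ‖x‖ := by
    intro n
    obtain ⟨x, hx, i, hi⟩ := hcon n
    exact ⟨x, hx, lt_of_lt_of_le hi (norm_le_pi_norm x i)⟩
  choose x hx hn using h1
  have hpos : ∀ n, 0 < ‖x n‖ := fun n => lt_of_le_of_lt (Nat.cast_nonneg n) (hn n)
  let y : ℕ → Fin m × Fin m → ℂ := fun n => ((‖x n‖⁻¹ : ℝ) : ℂ) • x n
  have hy : ∀ n, y n ∈ Metric.sphere (0 : Fin m × Fin m → ℂ) 1 := by
    intro n
    rw [mem_sphere_zero_iff_norm, norm_smul, Complex.norm_real, norm_inv, norm_norm]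
    exact inv_mul_cancel₀ (hpos n).ne'
  obtain ⟨z, hz, φ, hφ, hlim⟩ := (isCompact_sphere (0 : Fin m × Fin m → ℂ) 1).tendsto_subseq hy
  have hlim' : Tendsto (fun n => y (φ n)) atTop (𝓝 z) := hlim
  have hinv : Tendsto (fun n => ((‖x (φ n)‖⁻¹ : ℝ) : ℂ)) atTop (𝓝 0) := by
    have e1 : Tendsto (fun n => ‖x n‖) atTop atTop :=
      tendsto_atTop_mono (fun n => (hn n).le) tendsto_natCast_atTop_atTop
    have e2 : Tendsto (fun n => ‖x (φ n)‖⁻¹) atTop (𝓝 0) :=
      (e1.comp hφ.tendsto_atTop).inv_tendsto_atTop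
    have e3 := (Complex.continuous_ofReal.tendsto 0).comp e2
    rw [Complex.ofReal_zero] at e3
    exact e3
  have hz0 : z = 0 := by
    apply null_eq_zero hab du ucu
    · intro k l
      have e1 : Tendsto (fun n => y (φ n) (k, l)) atTop (𝓝 (z (k, l))) :=
        ((continuous_apply (k, l)).tendsto z).comp hlim'
      have e2 : Tendsto (fun n => y (φ n) (l, k)) atTop (𝓝 (z (l, k))) :=
        ((continuous_apply (l, k)).tendsto z).comp hlim'
      have e3 : (fun n => y (φ n) (k, l)) = fun n => y (φ n) (l, k) := by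
        funext n
        simp only [y, Pi.smul_apply]
        rw [(hx (φ n)).1 k l]
      rw [e3] at e1
      exact tendsto_nhds_unique e1 e2
    · exact D5_closed.mem_of_tendsto hlim' (Eventually.of_forall fun n => (hx (φ n)).2.1.smul _)
    · intro p hp
      have e1 : Tendsto (fun n => cf (y (φ n)) (u 0 p) (u 0 p)) atTop
          (𝓝 (cf z (u 0 p) (u 0 p))) := ((cf_cont _ _).tendsto z).comp hlim'
      have e2 : (fun n => cf (y (φ n)) (u 0 p) (u 0 p)) =
          fun n => ((‖x (φ n)‖⁻¹ : ℝ) : ℂ) * c0 := by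
        funext n
        simp only [y]
        rw [cf_smul, (hx (φ n)).2.2.1 p hp]
      rw [e2] at e1
      have e3 := hinv.mul_const c0
      rw [zero_mul] at e3
      exact tendsto_nhds_unique e1 e3
    · intro p hp
      have e1 : Tendsto (fun n => cf (y (φ n)) (u 1 p) (u 1 p)) atTop
          (𝓝 (cf z (u 1 p) (u 1 p))) := ((cf_cont _ _).tendsto z).comp hlim'
      have e2 : (fun n => cf (y (φ n)) (u 1 p) (u 1 p)) =
          fun n => ((‖x (φ n)‖⁻¹ : ℝ) : ℂ) * c1 := by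
        funext n
        simp only [y]
        rw [cf_smul, (hx (φ n)).2.2.2 p hp]
      rw [e2] at e1
      have e3 := hinv.mul_const c1
      rw [zero_mul] at e3
      exact tendsto_nhds_unique e1 e3
  rw [hz0, mem_sphere_zero_iff_norm, norm_zero] at hz
  exact zero_ne_one hz

open MvPolynomial in
/-- the polynomial equations of the set -/
noncomputable def eqs (u : ℕ → ℝ → Fin m → ℝ) (a b : ℝ) (c0 c1 : ℂ) :
    Set (MvPolynomial (Fin m × Fin m) ℂ) :=
  {f | ∃ k l, f = X (k, l) - X (l, k)} ∪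
  {f | ∃ v w : Fin 5 → Fin m → ℂ, f = Matrix.det (Matrix.of fun i j =>
    ∑ k, ∑ l, C (v i k) * (X (k, l) * C (w j l)))} ∪
  {f | ∃ p ∈ Ioo a b, f = (∑ k, ∑ l, C (u 0 p k : ℂ) * (X (k, l) * C (u 0 p l : ℂ))) - C c0} ∪
  {f | ∃ p ∈ Ioo a b, f = (∑ k, ∑ l, C (u 1 p k : ℂ) * (X (k, l) * C (u 1 p l : ℂ))) - C c1}

open MvPolynomial in
theorem Gr_eq (u : ℕ → ℝ → Fin m → ℝ) (a b : ℝ) (c0 c1 : ℂ) :
    zeroLocus ℂ (Ideal.span (eqs u a b c0 c1)) = Gr u a b c0 c1 := by
  rw [zeroLocus_span]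
  ext x
  have hdet : ∀ v w : Fin 5 → Fin m → ℂ, aeval x (Matrix.det (Matrix.of fun i j =>
      ∑ k, ∑ l, (C (v i k) * (X (k, l) * C (w j l)) : MvPolynomial (Fin m × Fin m) ℂ))) =
      Matrix.det (Matrix.of fun i j => cg x (v i) (w j)) := by
    intro v w
    rw [AlgHom.map_det]
    congr 1
    ext i j
    simp [cg]
  simp only [mem_setOf_eq, eqs, Gr]
  constructor
  · intro h
    refine ⟨?_, ?_, ?_, ?_⟩
    · intro k l
      have h1 := h _ (Or.inl (Or.inl (Or.inl ⟨k, l, rfl⟩)))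
      simp only [map_sub, aeval_X] at h1
      exact sub_eq_zero.mp h1
    · intro v w
      have h1 := h _ (Or.inl (Or.inl (Or.inr ⟨v, w, rfl⟩)))
      rw [hdet] at h1
      exact h1
    · intro p hp
      have h1 := h _ (Or.inl (Or.inr ⟨p, hp, rfl⟩))
      simp only [map_sub, map_sum, map_mul, aeval_X, aeval_C, Algebra.algebraMap_self,
        RingHom.id_apply] at h1
      exact sub_eq_zero.mp h1
    · intro p hp
      have h1 := h _ (Or.inr ⟨p, hp, rfl⟩)
      simp only [map_sub, map_sum, map_mul, aeval_X, aeval_C, Algebra.algebraMap_self,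
        RingHom.id_apply] at h1
      exact sub_eq_zero.mp h1
  · rintro ⟨h1, h2, h3, h4⟩ f hf
    rcases hf with ((⟨k, l, rfl⟩ | ⟨v, w, rfl⟩) | ⟨p, hp, rfl⟩) | ⟨p, hp, rfl⟩
    · simp only [map_sub, aeval_X]
      exact sub_eq_zero.mpr (h1 k l)
    · rw [hdet]
      exact h2 v w
    · simp only [map_sub, map_sum, map_mul, aeval_X, aeval_C, Algebra.algebraMap_self,
        RingHom.id_apply]
      exact sub_eq_zero.mpr (h3 p hp)
    · simp only [map_sub, map_sum, map_mul, aeval_X, aeval_C, Algebra.algebraMap_self,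
        RingHom.id_apply]
      exact sub_eq_zero.mpr (h4 p hp)

/-- there are finitely many of these forms -/
theorem Gr_finite {u : ℕ → ℝ → Fin m → ℝ} {a b : ℝ} (hab : a < b)
    (du : ∀ n, ∀ p ∈ Ioo a b, HasDerivAt (u n) (u (n + 1) p) p)
    (ucu : ∀ ξ : (Fin m → ℝ) →L[ℝ] ℝ, ∀ a' b' : ℝ, a' < b' → Ioo a' b' ⊆ Ioo a b →
      (∀ p ∈ Ioo a' b', ξ (u 0 p) = 0) → ξ = 0) (c0 c1 : ℂ) : (Gr u a b c0 c1).Finite := by
  obtain ⟨R, hR⟩ := Gr_bounded hab du ucu c0 c1
  rw [← Gr_eq]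
  apply finite_of_bounded _ R
  rw [Gr_eq]
  exact hR

/-- the matrix of a sum of at most four squares of functionals -/
theorem D5_of_sum {n : ℕ} (hn : n ≤ 4) (A : Fin n → Fin m → ℝ) :
    D5 (fun z : Fin m × Fin m => ((∑ r, A r z.1 * A r z.2 : ℝ) : ℂ)) := by
  intro v w
  let P : Matrix (Fin 5) (Fin n) ℂ := Matrix.of fun i r => ∑ k, v i k * (A r k : ℂ)
  let Q : Matrix (Fin n) (Fin 5) ℂ := Matrix.of fun r j => ∑ l, (A r l : ℂ) * w j l
  have h1 : (Matrix.of fun i j => cg (fun z : Fin m × Fin m =>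
      ((∑ r, A r z.1 * A r z.2 : ℝ) : ℂ)) (v i) (w j)) = P * Q := by
    ext i j
    rw [Matrix.mul_apply]
    simp only [Matrix.of_apply, P, Q, cg]
    push_cast
    simp only [Finset.sum_mul, Finset.mul_sum]
    rw [Finset.sum_comm]
    conv_rhs => rw [Finset.sum_comm]
    apply Finset.sum_congr rfl
    intro l _
    rw [Finset.sum_comm]
    apply Finset.sum_congr rfl
    intro r _
    apply Finset.sum_congr rfl
    intro k _
    ring
  rw [h1]
  by_contra hne
  have hu : IsUnit (P * Q) := by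
    rw [Matrix.isUnit_iff_isUnit_det]
    exact isUnit_iff_ne_zero.mpr hne
  have h2 := Matrix.rank_of_isUnit _ hu
  have h3 := (Matrix.rank_mul_le_left P Q).trans (Matrix.rank_le_width P)
  rw [h2, Fintype.card_fin] at h3
  omega

end Stek
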