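import Pool.Agent.H.MP_fc2485_gt.Fin

/-!
The first case: the values of the forms, and of their two partial derivatives, are independent
at some point.
-/

set_option maxSynthPendingDepth 3

open Set Filter Topology

namespace Stek

variable {U : Type*} [NormedAddCommGroup U] [NormedSpace ℝ U]

/-- shrinking a rectangle around a point -/
theorem shrink {a b c d p q : ℝ} (hp : p ∈ Ioo a b) (hq : q ∈ Ioo c d) {P : ℝ × ℝ → Prop}
    (hP : ∀ᶠ z in 𝓝 (p, q), P z) :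
    ∃ a' b' c' d' : ℝ, p ∈ Ioo a' b' ∧ q ∈ Ioo c' d' ∧ Ioo a' b' ⊆ Ioo a b ∧
      Ioo c' d' ⊆ Ioo c d ∧ ∀ x ∈ Ioo a' b', ∀ y ∈ Ioo c' d', P (x, y) := by
  obtain ⟨ε, hε, h⟩ := Metric.eventually_nhds_iff.mp hP
  refine ⟨max a (p - ε), min b (p + ε), max c (q - ε), min d (q + ε), ?_, ?_, ?_, ?_, ?_⟩
  · exact ⟨max_lt hp.1 (by linarith), lt_min hp.2 (by linarith)⟩
  · exact ⟨max_lt hq.1 (by linarith), lt_min hq.2 (by linarith)⟩
  · exact Ioo_subset_Ioo (le_max_left _ _) (min_le_left _ _)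
  · exact Ioo_subset_Ioo (le_max_left _ _) (min_le_left _ _)
  · intro x hx y hy
    apply h
    rw [Prod.dist_eq]
    have h1 : p - ε < x := lt_of_le_of_lt (le_max_right _ _) hx.1
    have h2 : x < p + ε := lt_of_lt_of_le hx.2 (min_le_right _ _)
    have h3 : q - ε < y := lt_of_le_of_lt (le_max_right _ _) hy.1
    have h4 : y < q + ε := lt_of_lt_of_le hy.2 (min_le_right _ _)
    apply max_lt
    · rw [Real.dist_eq, abs_lt]
      constructor <;> simp only <;> linarith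
    · rw [Real.dist_eq, abs_lt]
      constructor <;> simp only <;> linarith

namespace Dat

variable {σ : ℝ} {u w : ℕ → ℝ → U} {T : Submodule ℝ (Bil U)} {Q0 : Bil U}
    {s s1 s2 : ℝ × ℝ → Bil U} {a b c d : ℝ}

theorem cont (D : Dat σ u w T Q0 s s1 s2 a b c d) (t : Bil U) (i j : ℕ) {p q : ℝ}
    (hp : p ∈ Ioo a b) (hq : q ∈ Ioo c d) :
    ContinuousAt (fun z : ℝ × ℝ => t (u i z.1) (w j z.2)) (p, q) := by
  have h1 : ContinuousAt (fun z : ℝ × ℝ => u i z.1) (p, q) :=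
    ContinuousAt.comp (f := fun z : ℝ × ℝ => z.1) (g := u i) (x := (p, q))
      (D.du i p hp).continuousAt continuousAt_fst
  have h2 : ContinuousAt (fun z : ℝ × ℝ => w j z.2) (p, q) :=
    ContinuousAt.comp (f := fun z : ℝ × ℝ => z.2) (g := w j) (x := (p, q))
      (D.dw j q hq).continuousAt continuousAt_snd
  exact (t.continuous.continuousAt.comp h1).clm_apply h2

theorem contW (D : Dat σ u w T Q0 s s1 s2 a b c d) (t1 t2 : Bil U) {p q : ℝ}
    (hp : p ∈ Ioo a b) (hq : q ∈ Ioo c d) :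
    ContinuousAt (fun z : ℝ × ℝ => W u w t1 t2 z.1 z.2) (p, q) := by
  unfold W
  exact ((D.cont t1 0 0 hp hq).mul (D.cont t2 1 0 hp hq)).sub
    ((D.cont t1 1 0 hp hq).mul (D.cont t2 0 0 hp hq))

theorem contH (D : Dat σ u w T Q0 s s1 s2 a b c d) (t1 t2 : Bil U) {p q : ℝ}
    (hp : p ∈ Ioo a b) (hq : q ∈ Ioo c d) (hW : W u w t1 t2 p q ≠ 0) :
    ContinuousAt (fun z : ℝ × ℝ => H u w t1 t2 z.1 z.2) (p, q) := by
  unfold H
  exact (((D.cont t1 1 0 hp hq).mul (D.cont t2 2 0 hp hq)).sub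
    ((D.cont t1 2 0 hp hq).mul (D.cont t2 1 0 hp hq))).div (D.contW t1 t2 hp hq) hW

theorem dq (D : Dat σ u w T Q0 s s1 s2 a b c d) (t : Bil U) (i j : ℕ) (p : ℝ) {q : ℝ}
    (hq : q ∈ Ioo c d) :
    HasDerivAt (fun y => t (u i p) (w j y)) (t (u i p) (w (j + 1) q)) q :=
  hd_snd t _ (D.dw j q hq)

theorem dp (D : Dat σ u w T Q0 s s1 s2 a b c d) (t : Bil U) (i j : ℕ) {p : ℝ} (q : ℝ)
    (hp : p ∈ Ioo a b) :
    HasDerivAt (fun x => t (u i x) (w j q)) (t (u (i + 1) p) (w j q)) p :=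
  hd_fst t (D.du i p hp) _

/-- the potential is twice differentiable in the second variable -/
theorem dH (D : Dat σ u w T Q0 s s1 s2 a b c d) (t1 t2 : Bil U) {p : ℝ}
    (hW : ∀ y ∈ Ioo c d, W u w t1 t2 p y ≠ 0) :
    ∃ H1 : ℝ → ℝ, (∀ y ∈ Ioo c d, HasDerivAt (fun y => H u w t1 t2 p y) (H1 y) y) ∧
      (∀ y ∈ Ioo c d, DifferentiableAt ℝ H1 y) := by
  let A : ℕ → ℕ → ℝ → ℝ := fun i j y => t1 (u i p) (w j y)
  let B : ℕ → ℕ → ℝ → ℝ := fun i j y => t2 (u i p) (w j y)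
  have hA : ∀ i j, ∀ y ∈ Ioo c d, HasDerivAt (A i j) (A i (j + 1) y) y :=
    fun i j y hy => D.dq t1 i j p hy
  have hB : ∀ i j, ∀ y ∈ Ioo c d, HasDerivAt (B i j) (B i (j + 1) y) y :=
    fun i j y hy => D.dq t2 i j p hy
  have dA : ∀ i j, ∀ y ∈ Ioo c d, DifferentiableAt ℝ (A i j) y :=
    fun i j y hy => (hA i j y hy).differentiableAt
  have dB : ∀ i j, ∀ y ∈ Ioo c d, DifferentiableAt ℝ (B i j) y :=
    fun i j y hy => (hB i j y hy).differentiableAt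
  refine ⟨fun y => (((A 1 1 y * B 2 0 y + A 1 0 y * B 2 1 y) -
      (A 2 1 y * B 1 0 y + A 2 0 y * B 1 1 y)) * (A 0 0 y * B 1 0 y - A 1 0 y * B 0 0 y) -
      (A 1 0 y * B 2 0 y - A 2 0 y * B 1 0 y) * ((A 0 1 y * B 1 0 y + A 0 0 y * B 1 1 y) -
      (A 1 1 y * B 0 0 y + A 1 0 y * B 0 1 y))) / (A 0 0 y * B 1 0 y - A 1 0 y * B 0 0 y) ^ 2,
      ?_, ?_⟩
  · intro y hy
    have hN := ((hA 1 0 y hy).mul (hB 2 0 y hy)).sub ((hA 2 0 y hy).mul (hB 1 0 y hy))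
    have hD := ((hA 0 0 y hy).mul (hB 1 0 y hy)).sub ((hA 1 0 y hy).mul (hB 0 0 y hy))
    exact hN.div hD (hW y hy)
  · intro y hy
    have := dA 0 0 y hy
    have := dA 1 0 y hy
    have := dA 2 0 y hy
    have := dA 0 1 y hy
    have := dA 1 1 y hy
    have := dA 2 1 y hy
    have := dB 0 0 y hy
    have := dB 1 0 y hy
    have := dB 2 0 y hy
    have := dB 0 1 y hy
    have := dB 1 1 y hy
    have := dB 2 1 y hy
    have hne : (A 0 0 y * B 1 0 y - A 1 0 y * B 0 0 y) ^ 2 ≠ 0 := pow_ne_zero 2 (hW y hy)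
    fun_prop (disch := exact hne)

/-- at a point where some form vanishes with its first derivative in the first variable, but not
with its derivative in the second variable, the potential has derivative zero in the second
variable -/
theorem Hq_zero (D : Dat σ u w T Q0 s s1 s2 a b c d) {t1 t2 r1 r2 t : Bil U} (h1 : t1 ∈ T)
    (h2 : t2 ∈ T) (k1 : r1 ∈ T) (k2 : r2 ∈ T) (ht : t ∈ T) {p q : ℝ} (hp : p ∈ Ioo a b)
    (hq : q ∈ Ioo c d) (hW : ∀ x ∈ Ioo a b, ∀ y ∈ Ioo c d, W u w t1 t2 x y ≠ 0)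
    (hV : ∀ x ∈ Ioo a b, ∀ y ∈ Ioo c d, W w u r1 r2 y x ≠ 0)
    (z0 : t (u 0 p) (w 0 q) = 0) (z1 : t (u 1 p) (w 0 q) = 0) (z2 : t (u 0 p) (w 1 q) ≠ 0) :
    HasDerivAt (fun y => H u w t1 t2 p y) 0 q := by
  obtain ⟨H1, hH1, hH2⟩ := D.dH t1 t2 (hW p hp)
  have kt := D.ker_of_zero h1 h2 ht hq (hW p hp q hq) z0 z1
  have kt2 : t (w 2 q) = 0 := by
    apply D.ucu _ a b D.hab Subset.rfl
    intro x hx
    have := D.swap.hill k1 k2 ht hq hx (hV x hx q hq)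
    rw [this, kt]
    simp
  have f2 : t (u 0 p) (w 2 q) = 0 := by
    rw [D.sym t ht, kt2]
    rfl
  have g2 : t (u 2 p) (w 2 q) = 0 := by
    rw [D.sym t ht, kt2]
    rfl
  have e1 : ∀ y ∈ Ioo c d, t (u 2 p) (w 1 y) =
      -(H1 y * t (u 0 p) (w 0 y) + H u w t1 t2 p y * t (u 0 p) (w 1 y)) := by
    intro y hy
    have m1 := D.dq t 2 0 p hy
    have m2 := ((hH1 y hy).mul (D.dq t 0 0 p hy)).neg
    have m3 : (fun y => t (u 2 p) (w 0 y)) =ᶠ[𝓝 y]
        -((fun y => H u w t1 t2 p y) * (fun y => t (u 0 p) (w 0 y))) := by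
      filter_upwards [Ioo_mem_nhds hy.1 hy.2] with x hx
      exact D.hill h1 h2 ht hp hx (hW p hp x hx)
    exact (m1.congr_of_eventuallyEq m3.symm).unique m2
  have m1 := D.dq t 2 1 p hq
  have m2 := (((hH2 q hq).hasDerivAt.mul (D.dq t 0 0 p hq)).add
    ((hH1 q hq).mul (D.dq t 0 1 p hq))).neg
  have m3 : (fun y => t (u 2 p) (w 1 y)) =ᶠ[𝓝 q]
      -((H1 * (fun y => t (u 0 p) (w 0 y))) +
        ((fun y => H u w t1 t2 p y) * (fun y => t (u 0 p) (w 1 y)))) := by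
    filter_upwards [Ioo_mem_nhds hq.1 hq.2] with x hx
    exact e1 x hx
  have e2 := (m1.congr_of_eventuallyEq m3.symm).unique m2
  norm_num at e2
  rw [g2, f2, z0] at e2
  norm_num at e2
  have e3 : H1 q * t (u 0 p) (w 1 q) = 0 := by linarith
  have e4 : H1 q = 0 := (mul_eq_zero.mp e3).resolve_right z2
  rw [← e4]
  exact hH1 q hq

/-- the first case -/
theorem caseA (D : Dat σ u w T Q0 s s1 s2 a b c d) {t1 t2 r1 r2 t : Bil U} (h1 : t1 ∈ T)
    (h2 : t2 ∈ T) (k1 : r1 ∈ T) (k2 : r2 ∈ T) (ht : t ∈ T) {p q : ℝ} (hp : p ∈ Ioo a b)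
    (hq : q ∈ Ioo c d) (hW : ∀ x ∈ Ioo a b, ∀ y ∈ Ioo c d, W u w t1 t2 x y ≠ 0)
    (hV : ∀ x ∈ Ioo a b, ∀ y ∈ Ioo c d, W w u r1 r2 y x ≠ 0)
    (z0 : t (u 0 p) (w 0 q) = 0) (z1 : t (u 1 p) (w 0 q) = 0) (z2 : t (u 0 p) (w 1 q) ≠ 0) :
    False := by
  -- the determinant
  let E : ℝ × ℝ → ℝ := fun z =>
    W u w t1 t2 z.1 z.2 * t (u 0 z.1) (w 1 z.2) -
    (t (u 0 z.1) (w 0 z.2) * t2 (u 1 z.1) (w 0 z.2) -
      t (u 1 z.1) (w 0 z.2) * t2 (u 0 z.1) (w 0 z.2)) * t1 (u 0 z.1) (w 1 z.2) -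
    (t1 (u 0 z.1) (w 0 z.2) * t (u 1 z.1) (w 0 z.2) -
      t1 (u 1 z.1) (w 0 z.2) * t (u 0 z.1) (w 0 z.2)) * t2 (u 0 z.1) (w 1 z.2)
  have hE : ContinuousAt E (p, q) := by
    have c1 := D.contW t1 t2 hp hq
    have cc := fun (t : Bil U) i j => D.cont t i j hp hq
    exact ((c1.mul (cc t 0 1)).sub ((((cc t 0 0).mul (cc t2 1 0)).sub
      ((cc t 1 0).mul (cc t2 0 0))).mul (cc t1 0 1))).sub
      ((((cc t1 0 0).mul (cc t 1 0)).sub ((cc t1 1 0).mul (cc t 0 0))).mul (cc t2 0 1))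
  have hE0 : E (p, q) ≠ 0 := by
    simp only [E]
    rw [z0, z1]
    simp only [mul_zero, zero_mul, sub_zero]
    exact mul_ne_zero (hW p hp q hq) z2
  obtain ⟨a', b', c', d', hp', hq', hab, hcd, hall⟩ := shrink hp hq (hE.eventually_ne hE0)
  have D' := D.mono (hp'.1.trans hp'.2) (hq'.1.trans hq'.2) hab hcd
  have key : ∀ x ∈ Ioo a' b', ∀ y ∈ Ioo c' d', HasDerivAt (fun y => H u w t1 t2 x y) 0 y := by
    intro x hx y hy
    have hxy := hall x hx y hy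
    have hm : W u w t1 t2 x y • t -
        (t (u 0 x) (w 0 y) * t2 (u 1 x) (w 0 y) - t (u 1 x) (w 0 y) * t2 (u 0 x) (w 0 y)) • t1 -
        (t1 (u 0 x) (w 0 y) * t (u 1 x) (w 0 y) - t1 (u 1 x) (w 0 y) * t (u 0 x) (w 0 y)) • t2
        ∈ T := T.sub_mem (T.sub_mem (T.smul_mem _ ht) (T.smul_mem _ h1)) (T.smul_mem _ h2)
    apply D'.Hq_zero h1 h2 k1 k2 hm hx hy (fun x hx y hy => hW x (hab hx) y (hcd hy))
      (fun x hx y hy => hV x (hab hx) y (hcd hy))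
    · simp only [sub_apply, smul_apply, smul_eq_mul]
      unfold W
      ring
    · simp only [sub_apply, smul_apply, smul_eq_mul]
      unfold W
      ring
    · simpa only [sub_apply, smul_apply, smul_eq_mul] using hxy
  refine D'.fin (fun x => H u w t1 t2 x q) ?_ ?_
  · intro x hx
    have h3 := D'.contH t1 t2 hx hq' (hW x (hab hx) q hq)
    have h4 : ContinuousAt (fun x : ℝ => (x, q)) x := by fun_prop
    exact (ContinuousAt.comp (f := fun x : ℝ => (x, q)) (g := fun z : ℝ × ℝ =>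
      H u w t1 t2 z.1 z.2) (x := x) h3 h4).continuousWithinAt
  · intro x hx y hy t ht
    have e1 := D'.hill h1 h2 ht hx hy (hW x (hab hx) y (hcd hy))
    have e2 : H u w t1 t2 x y = H u w t1 t2 x q := by
      have hc : DifferentiableOn ℝ (fun y => H u w t1 t2 x y) (Ioo c' d') :=
        fun y hy => (key x hx y hy).differentiableAt.differentiableWithinAt
      exact isOpen_Ioo.is_const_of_deriv_eq_zero (convex_Ioo c' d').isPreconnected hc
        (fun y hy => (key x hx y hy).deriv) hy hq'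
    rw [e1, e2]

end Dat

end Stek
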