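import Pool.Agent.H.MP_fc2485_gt.CaseA

/-!
The second case: everything depends on one characteristic variable.
-/

set_option maxSynthPendingDepth 3

open Set Filter Topology

namespace Stek

variable {U : Type*} [NormedAddCommGroup U] [NormedSpace ℝ U]

/-- Local data in which every `(p, q) ↦ t (u p) (w q)` is a function of `p + ε q`. -/
structure Wave (ε σ : ℝ) (u w : ℕ → ℝ → U) (T : Submodule ℝ (Bil U)) (Q0 : Bil U)
    (s s1 s2 : ℝ × ℝ → Bil U) (a b c d : ℝ) (t1 t2 : Bil U) : Prop where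
  D : Dat σ u w T Q0 s s1 s2 a b c d
  hε : ε * ε = 1
  m1 : t1 ∈ T
  m2 : t2 ∈ T
  hW : ∀ x ∈ Ioo a b, ∀ y ∈ Ioo c d, Dat.W u w t1 t2 x y ≠ 0
  hx : ∀ x ∈ Ioo a b, ∀ y ∈ Ioo c d, ∀ t ∈ T, t (u 0 x) (w 1 y) = ε * t (u 1 x) (w 0 y)

namespace Dat

variable {σ : ℝ} {u w : ℕ → ℝ → U} {T : Submodule ℝ (Bil U)} {Q0 : Bil U}
    {s s1 s2 : ℝ × ℝ → Bil U} {a b c d : ℝ}

/-- the coefficient of the value -/
noncomputable def X (u w : ℕ → ℝ → U) (t1 t2 : Bil U) (p q : ℝ) : ℝ :=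
  (t2 (u 1 p) (w 0 q) * t1 (u 0 p) (w 1 q) - t1 (u 1 p) (w 0 q) * t2 (u 0 p) (w 1 q)) /
    W u w t1 t2 p q

/-- the coefficient of the derivative -/
noncomputable def Y (u w : ℕ → ℝ → U) (t1 t2 : Bil U) (p q : ℝ) : ℝ :=
  (t1 (u 0 p) (w 0 q) * t2 (u 0 p) (w 1 q) - t2 (u 0 p) (w 0 q) * t1 (u 0 p) (w 1 q)) /
    W u w t1 t2 p q

theorem xy (_ : Dat σ u w T Q0 s s1 s2 a b c d) {t1 t2 t : Bil U} (h1 : t1 ∈ T)
    (h2 : t2 ∈ T) (ht : t ∈ T) {p q : ℝ} (hp : p ∈ Ioo a b)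
    (hq : q ∈ Ioo c d) (hW : W u w t1 t2 p q ≠ 0)
    (hB : ∀ x ∈ Ioo a b, ∀ y ∈ Ioo c d, ∀ t ∈ T, t (u 0 x) (w 0 y) = 0 →
      t (u 1 x) (w 0 y) = 0 → t (u 0 x) (w 1 y) = 0) :
    t (u 0 p) (w 1 q) = X u w t1 t2 p q * t (u 0 p) (w 0 q) +
      Y u w t1 t2 p q * t (u 1 p) (w 0 q) := by
  have hm : W u w t1 t2 p q • t -
        (t (u 0 p) (w 0 q) * t2 (u 1 p) (w 0 q) - t (u 1 p) (w 0 q) * t2 (u 0 p) (w 0 q)) • t1 -
        (t1 (u 0 p) (w 0 q) * t (u 1 p) (w 0 q) - t1 (u 1 p) (w 0 q) * t (u 0 p) (w 0 q)) • t2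
        ∈ T := T.sub_mem (T.sub_mem (T.smul_mem _ ht) (T.smul_mem _ h1)) (T.smul_mem _ h2)
  have e := hB p hp q hq _ hm
    (by
      simp only [sub_apply, smul_apply, smul_eq_mul]
      unfold W
      ring)
    (by
      simp only [sub_apply, smul_apply, smul_eq_mul]
      unfold W
      ring)
  simp only [sub_apply, smul_apply, smul_eq_mul] at e
  unfold X Y
  rw [div_mul_eq_mul_div, div_mul_eq_mul_div, ← add_div, eq_div_iff hW]
  linear_combination e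

theorem y_sq (D : Dat σ u w T Q0 s s1 s2 a b c d) {t1 t2 : Bil U} (h1 : t1 ∈ T)
    (h2 : t2 ∈ T) {p q : ℝ} (hp : p ∈ Ioo a b)
    (hq : q ∈ Ioo c d) (hW : W u w t1 t2 p q ≠ 0)
    (hB : ∀ x ∈ Ioo a b, ∀ y ∈ Ioo c d, ∀ t ∈ T, t (u 0 x) (w 0 y) = 0 →
      t (u 1 x) (w 0 y) = 0 → t (u 0 x) (w 1 y) = 0) :
    Y u w t1 t2 p q * Y u w t1 t2 p q = 1 ∧
      (Q0 + s (p, q)) (u 1 p) (w 1 q) = -(Y u w t1 t2 p q * σ ^ 2) := by
  obtain ⟨a0, a1, -, a3⟩ := D.s1vals hp hq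
  obtain ⟨b0, b1, -, b3⟩ := D.s2vals hp hq
  have e1 := D.xy h1 h2 (D.s1T p hp q hq) hp hq hW hB
  have e2 := D.xy h1 h2 (D.s2T p hp q hq) hp hq hW hB
  rw [a0, a1, a3] at e1
  rw [b0, b1, b3] at e2
  have hσ : σ ^ 2 ≠ 0 := pow_ne_zero 2 D.hσ.ne'
  refine ⟨?_, by linarith⟩
  apply mul_right_cancel₀ hσ
  linear_combination (-Y u w t1 t2 p q) * e1 - e2

theorem contY (D : Dat σ u w T Q0 s s1 s2 a b c d) (t1 t2 : Bil U) {p q : ℝ}
    (hp : p ∈ Ioo a b) (hq : q ∈ Ioo c d) (hW : W u w t1 t2 p q ≠ 0) :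
    ContinuousAt (fun z : ℝ × ℝ => Y u w t1 t2 z.1 z.2) (p, q) := by
  unfold Y
  exact (((D.cont t1 0 0 hp hq).mul (D.cont t2 0 1 hp hq)).sub
    ((D.cont t2 0 0 hp hq).mul (D.cont t1 0 1 hp hq))).div (D.contW t1 t2 hp hq) hW

theorem dXp (D : Dat σ u w T Q0 s s1 s2 a b c d) (t1 t2 : Bil U) {p q : ℝ}
    (hp : p ∈ Ioo a b) (hW : W u w t1 t2 p q ≠ 0) :
    DifferentiableAt ℝ (fun x => X u w t1 t2 x q) p := by
  have := (D.du 0 p hp).differentiableAt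
  have := (D.du 1 p hp).differentiableAt
  unfold W at hW
  unfold X W
  fun_prop (disch := exact hW)

theorem dXq (D : Dat σ u w T Q0 s s1 s2 a b c d) (t1 t2 : Bil U) {p q : ℝ}
    (hq : q ∈ Ioo c d) (hW : W u w t1 t2 p q ≠ 0) :
    DifferentiableAt ℝ (fun y => X u w t1 t2 p y) q := by
  have := (D.dw 0 q hq).differentiableAt
  have := (D.dw 1 q hq).differentiableAt
  unfold W at hW
  unfold X W
  fun_prop (disch := exact hW)

theorem dHp (D : Dat σ u w T Q0 s s1 s2 a b c d) (t1 t2 : Bil U) {p q : ℝ}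
    (hp : p ∈ Ioo a b) (hW : W u w t1 t2 p q ≠ 0) :
    DifferentiableAt ℝ (fun x => H u w t1 t2 x q) p := by
  have := (D.du 0 p hp).differentiableAt
  have := (D.du 1 p hp).differentiableAt
  have := (D.du 2 p hp).differentiableAt
  unfold W at hW
  unfold H W
  fun_prop (disch := exact hW)

/-- in the second case, all the functions are waves near each point -/
theorem exists_wave (D : Dat σ u w T Q0 s s1 s2 a b c d) {t1 t2 r1 r2 : Bil U} (h1 : t1 ∈ T)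
    (h2 : t2 ∈ T) (k1 : r1 ∈ T) (k2 : r2 ∈ T) {p q : ℝ} (hp : p ∈ Ioo a b)
    (hq : q ∈ Ioo c d) (hW : ∀ x ∈ Ioo a b, ∀ y ∈ Ioo c d, W u w t1 t2 x y ≠ 0)
    (hV : ∀ x ∈ Ioo a b, ∀ y ∈ Ioo c d, W w u r1 r2 y x ≠ 0)
    (hB : ∀ x ∈ Ioo a b, ∀ y ∈ Ioo c d, ∀ t ∈ T, t (u 0 x) (w 0 y) = 0 →
      t (u 1 x) (w 0 y) = 0 → t (u 0 x) (w 1 y) = 0) :
    ∃ ε a' b' c' d' : ℝ, Wave ε σ u w T Q0 s s1 s2 a' b' c' d' t1 t2 := by
  set ε := Y u w t1 t2 p q with hεdef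
  have hε : ε * ε = 1 := (D.y_sq h1 h2 hp hq (hW p hp q hq) hB).1
  have hc := D.contY t1 t2 hp hq (hW p hp q hq)
  have hev : ∀ᶠ z in 𝓝 (p, q), |Y u w t1 t2 z.1 z.2 - ε| < 1 := by
    have := Metric.continuousAt_iff'.mp hc 1 one_pos
    simpa [Real.dist_eq] using this
  obtain ⟨a', b', c', d', hp', hq', hab, hcd, hall⟩ := shrink hp hq hev
  have D' := D.mono (hp'.1.trans hp'.2) (hq'.1.trans hq'.2) hab hcd
  have hY : ∀ x ∈ Ioo a' b', ∀ y ∈ Ioo c' d', Y u w t1 t2 x y = ε := by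
    intro x hx y hy
    have e1 := (D.y_sq h1 h2 (hab hx) (hcd hy) (hW x (hab hx) y (hcd hy)) hB).1
    have e2 := abs_lt.mp (hall x hx y hy)
    simp only at e2
    rcases mul_self_eq_one_iff.mp e1 with h | h <;> rcases mul_self_eq_one_iff.mp hε with h' | h'
    · rw [h, h']
    · rw [h, h'] at e2
      linarith [e2.2]
    · rw [h, h'] at e2
      linarith [e2.1]
    · rw [h, h']
  have hxy : ∀ x ∈ Ioo a' b', ∀ y ∈ Ioo c' d', ∀ t ∈ T, t (u 0 x) (w 1 y) =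
      X u w t1 t2 x y * t (u 0 x) (w 0 y) + ε * t (u 1 x) (w 0 y) := by
    intro x hx y hy t ht
    rw [← hY x hx y hy]
    exact D.xy h1 h2 ht (hab hx) (hcd hy) (hW x (hab hx) y (hcd hy)) hB
  have hX : ∀ x ∈ Ioo a' b', ∀ y ∈ Ioo c' d', X u w t1 t2 x y = 0 := by
    intro x hx y hy
    have hWxy := hW x (hab hx) y (hcd hy)
    set t : Bil U := t1 (u 0 x) (w 0 y) • t2 - t2 (u 0 x) (w 0 y) • t1 with htdef
    have ht : t ∈ T := T.sub_mem (T.smul_mem _ h2) (T.smul_mem _ h1)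
    have z0 : t (u 0 x) (w 0 y) = 0 := by
      rw [htdef]
      simp only [sub_apply, smul_apply, smul_eq_mul]
      ring
    have z1 : t (u 1 x) (w 0 y) = W u w t1 t2 x y := by
      rw [htdef]
      simp only [sub_apply, smul_apply, smul_eq_mul]
      unfold W
      ring
    have z2 : t (u 2 x) (w 0 y) = 0 := by
      rw [D'.hill h1 h2 ht hx hy hWxy, z0, mul_zero, neg_zero]
    have z3 : t (u 0 x) (w 2 y) = 0 := by
      have := D'.swap.hill k1 k2 ht hy hx (hV x (hab hx) y (hcd hy))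
      rw [D.sym t ht (u 0 x) (w 2 y), this, D.sym t ht (w 0 y) (u 0 x), z0, mul_zero, neg_zero]
    have z4 : t (u 0 x) (w 1 y) = ε * W u w t1 t2 x y := by
      rw [hxy x hx y hy t ht, z0, z1, mul_zero, zero_add]
    -- derivative in the first variable
    have p1 : t (u 1 x) (w 1 y) = X u w t1 t2 x y * W u w t1 t2 x y := by
      have m1 := D'.dp t 0 1 y hx
      have m2 := ((D'.dXp t1 t2 hx hWxy).hasDerivAt.mul (D'.dp t 0 0 y hx)).add
        ((D'.dp t 1 0 y hx).const_mul ε)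
      have m3 : (fun x' => t (u 0 x') (w 1 y)) =ᶠ[𝓝 x]
          (((fun x' => X u w t1 t2 x' y) * (fun x' => t (u 0 x') (w 0 y))) +
          (fun x' => ε * t (u 1 x') (w 0 y))) := by
        filter_upwards [Ioo_mem_nhds hx.1 hx.2] with x' hx'
        exact hxy x' hx' y hy t ht
      have e := (m1.congr_of_eventuallyEq m3.symm).unique m2
      norm_num at e
      rw [e, z0, z1, z2]
      ring
    -- derivative in the second variable
    have p2 : t (u 0 x) (w 2 y) = X u w t1 t2 x y * (ε * W u w t1 t2 x y) +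
        ε * (X u w t1 t2 x y * W u w t1 t2 x y) := by
      have m1 := D'.dq t 0 1 x hy
      have m2 := ((D'.dXq t1 t2 hy hWxy).hasDerivAt.mul (D'.dq t 0 0 x hy)).add
        ((D'.dq t 1 0 x hy).const_mul ε)
      have m3 : (fun y' => t (u 0 x) (w 1 y')) =ᶠ[𝓝 y]
          (((fun y' => X u w t1 t2 x y') * (fun y' => t (u 0 x) (w 0 y'))) +
          (fun y' => ε * t (u 1 x) (w 0 y'))) := by
        filter_upwards [Ioo_mem_nhds hy.1 hy.2] with y' hy'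
        exact hxy x hx y' hy' t ht
      have e := (m1.congr_of_eventuallyEq m3.symm).unique m2
      norm_num at e
      rw [e, z0, z4, p1]
      ring
    rw [z3] at p2
    have hne : 2 * ε * W u w t1 t2 x y ≠ 0 := by
      have : ε ≠ 0 := by
        rintro h
        rw [h] at hε
        norm_num at hε
      exact mul_ne_zero (mul_ne_zero two_ne_zero this) hWxy
    apply mul_left_cancel₀ hne
    linear_combination -p2
  refine ⟨ε, a', b', c', d', ⟨D', hε, h1, h2, fun x hx y hy => hW x (hab hx) y (hcd hy), ?_⟩⟩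
  intro x hx y hy t ht
  rw [hxy x hx y hy t ht, hX x hx y hy, zero_mul, zero_add]

end Dat

end Stek
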