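import Pool.Agent.H.MP_fc2485_gt.Sel

/-!
Generic linear independence of the derivatives of a curve.
-/

set_option maxSynthPendingDepth 3

open Set Filter Topology
open scoped ContDiff

namespace Stek

/-- a linear combination of smooth functions is smooth -/
theorem cd_sum {m : ℕ} {a b : ℝ} {f : Fin m → ℝ → ℝ}
    (hf : ∀ i, ContDiffOn ℝ ∞ (f i) (Ioo a b)) (k : Fin m → ℝ) :
    ContDiffOn ℝ ∞ (fun x => ∑ i, k i * f i x) (Ioo a b) :=
  ContDiffOn.sum fun i _ => contDiffOn_const.mul (hf i)

/-- If no nontrivial combination of `m` smooth functions vanishes on an interval, then on some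
interval no nontrivial combination vanishes to order `m` at any point. -/
theorem wronski (m : ℕ) : ∀ (a b : ℝ) (_ : a < b) (f : Fin m → ℝ → ℝ)
    (_ : ∀ i, ContDiffOn ℝ ∞ (f i) (Ioo a b))
    (_ : ∀ (k : Fin m → ℝ) (a' b' : ℝ), a' < b' → Ioo a' b' ⊆ Ioo a b →
      (∀ x ∈ Ioo a' b', ∑ i, k i * f i x = 0) → k = 0),
    ∃ a' b' : ℝ, a' < b' ∧ Ioo a' b' ⊆ Ioo a b ∧ ∀ x ∈ Ioo a' b', ∀ k : Fin m → ℝ,
      Z m (fun x => ∑ i, k i * f i x) x → k = 0 := by
  induction m with
  | zero =>
    intro a b hab f _ _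
    exact ⟨a, b, hab, Subset.rfl, fun x _ k _ => Subsingleton.elim _ _⟩
  | succ m ih =>
    intro a b hab f hf huc
    -- a point where the first function does not vanish
    have h0 : ∃ x0 ∈ Ioo a b, f 0 x0 ≠ 0 := by
      by_contra hcon
      push Not at hcon
      have h1 := huc (Pi.single 0 1) a b hab Subset.rfl (by
        intro x hx
        rw [Finset.sum_eq_single 0]
        · simp [hcon x hx]
        · intro i _ hi
          simp [Pi.single_eq_of_ne hi]
        · simp)
      have h2 := congrFun h1 0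
      simp at h2
    obtain ⟨x0, hx0, hne⟩ := h0
    have hc0 : ContinuousAt (f 0) x0 :=
      ((hf 0).contDiffAt (Ioo_mem_nhds hx0.1 hx0.2)).continuousAt
    have hev : ∀ᶠ x in 𝓝 x0, f 0 x ≠ 0 ∧ x ∈ Ioo a b :=
      (hc0.eventually_ne hne).and (Ioo_mem_nhds hx0.1 hx0.2)
    obtain ⟨l, r, hlr, hsub⟩ := mem_nhds_iff_exists_Ioo_subset.mp hev
    have hlr' : l < r := hlr.1.trans hlr.2
    have hsub1 : Ioo l r ⊆ Ioo a b := fun x hx => (hsub hx).2
    have hne0 : ∀ x ∈ Ioo l r, f 0 x ≠ 0 := fun x hx => (hsub hx).1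
    have hfl : ∀ i, ContDiffOn ℝ ∞ (f i) (Ioo l r) := fun i => (hf i).mono hsub1
    let g : Fin m → ℝ → ℝ := fun i => deriv (fun x => f i.succ x / f 0 x)
    have hquot : ∀ i, ContDiffOn ℝ ∞ (fun x => f i x / f 0 x) (Ioo l r) :=
      fun i => (hfl i).div (hfl 0) hne0
    have hg : ∀ i, ContDiffOn ℝ ∞ (g i) (Ioo l r) :=
      fun i => (hquot i.succ).deriv_of_isOpen isOpen_Ioo (by simp)
    have hqd : ∀ i, ∀ x ∈ Ioo l r, HasDerivAt (fun x => f i x / f 0 x)
        (deriv (fun x => f i x / f 0 x) x) x := fun i x hx =>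
      (((hquot i).contDiffAt (Ioo_mem_nhds hx.1 hx.2)).differentiableAt (by simp)).hasDerivAt
    have hsd : ∀ (k : Fin m → ℝ), ∀ x ∈ Ioo l r,
        HasDerivAt (fun x => ∑ i, k i * (f i.succ x / f 0 x)) (∑ i, k i * g i x) x := by
      intro k x hx
      exact HasDerivAt.fun_sum fun i _ => (hqd i.succ x hx).const_mul (k i)
    obtain ⟨a', b', hab', hsub', hres⟩ := ih l r hlr' g hg (by
      intro k a' b' hab' hsub' hz
      obtain ⟨y, hy⟩ := nonempty_Ioo.mpr hab'
      have hcst : ∀ x ∈ Ioo a' b', ∑ i, k i * (f i.succ x / f 0 x) =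
          ∑ i, k i * (f i.succ y / f 0 y) := by
        intro x hx
        have hd : DifferentiableOn ℝ (fun x => ∑ i, k i * (f i.succ x / f 0 x)) (Ioo a' b') :=
          fun x hx => (hsd k x (hsub' hx)).differentiableAt.differentiableWithinAt
        exact isOpen_Ioo.is_const_of_deriv_eq_zero (convex_Ioo a' b').isPreconnected hd
          (fun x hx => by rw [(hsd k x (hsub' hx)).deriv]; exact hz x hx) hx hy
      set C := ∑ i, k i * (f i.succ y / f 0 y) with hC
      have h1 := huc (Fin.cons (-C) k) a' b' hab' (hsub'.trans hsub1) (by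
        intro x hx
        rw [Fin.sum_univ_succ]
        simp only [Fin.cons_zero, Fin.cons_succ]
        have h2 := hcst x hx
        have h3 := hne0 x (hsub' hx)
        have h4 : ∑ i, k i * f i.succ x = C * f 0 x := by
          rw [← h2, Finset.sum_mul]
          apply Finset.sum_congr rfl
          intro i _
          field_simp
        rw [h4]
        ring)
      funext i
      have := congrFun h1 i.succ
      simpa using this)
    refine ⟨a', b', hab', hsub'.trans hsub1, ?_⟩
    intro x hx k hk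
    have hxl : x ∈ Ioo l r := hsub' hx
    -- divide by the first function
    have hinv : ContDiffOn ℝ ∞ (fun x => (f 0 x)⁻¹) (Ioo l r) := (hfl 0).inv hne0
    have h1 := Z_mul (m + 1) hxl (cd_sum hfl k) hinv hk
    have h2 : Z m (fun x => ∑ i, k (Fin.succ i) * g i x) x := by
      refine Z_congr m ?_ h1.2
      filter_upwards [Ioo_mem_nhds hxl.1 hxl.2] with y hy
      have h3 : (fun x => (∑ i, k i * f i x) * (f 0 x)⁻¹) =ᶠ[𝓝 y]
          fun x => k 0 + ∑ i, k (Fin.succ i) * (f (Fin.succ i) x / f 0 x) := by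
        filter_upwards [Ioo_mem_nhds hy.1 hy.2] with z hz
        have hz0 := hne0 z hz
        rw [Fin.sum_univ_succ, add_mul, Finset.sum_mul]
        congr 1
        · field_simp
        · apply Finset.sum_congr rfl
          intro i _
          rw [div_eq_mul_inv]
          ring
      rw [h3.deriv_eq]
      exact ((hsd (fun i => k i.succ) y hy).const_add (k 0)).deriv
    have h4 := hres x hx (fun i => k i.succ) h2
    have h5 : ∑ i, k i * f i x = 0 := hk.1
    rw [Fin.sum_univ_succ] at h5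
    have h6 : ∀ i : Fin m, k i.succ = 0 := fun i => congrFun h4 i
    have h7 : k 0 * f 0 x = 0 := by
      rw [← h5]
      simp [h6]
    have h8 : k 0 = 0 := (mul_eq_zero.mp h7).resolve_right (hne0 x hxl)
    funext i
    refine Fin.cases h8 (fun i => h6 i) i

/-- a sequence of functions, each the derivative of the previous one, consists of smooth
functions -/
theorem cd_jet {E : Type*} [NormedAddCommGroup E] [NormedSpace ℝ E] {u : ℕ → ℝ → E} {a b : ℝ}
    (du : ∀ n, ∀ p ∈ Ioo a b, HasDerivAt (u n) (u (n + 1) p) p) (j : ℕ) :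
    ContDiffOn ℝ ∞ (u j) (Ioo a b) := by
  rw [contDiffOn_infty]
  intro n
  induction n generalizing j with
  | zero =>
    rw [Nat.cast_zero, contDiffOn_zero]
    exact fun x hx => (du j x hx).continuousAt.continuousWithinAt
  | succ n ih =>
    rw [Nat.cast_succ, contDiffOn_succ_iff_deriv_of_isOpen isOpen_Ioo]
    refine ⟨fun x hx => (du j x hx).differentiableAt.differentiableWithinAt, ?_, ?_⟩
    · intro h
      simp at h
    · exact (ih (j + 1)).congr fun x hx => (du j x hx).deriv

theorem Z_jet (n : ℕ) {f : ℕ → ℝ → ℝ} {a b q : ℝ} (hq : q ∈ Ioo a b)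
    (df : ∀ n, ∀ p ∈ Ioo a b, HasDerivAt (f n) (f (n + 1) p) p) (i : ℕ)
    (hz : ∀ j < n, f (i + j) q = 0) : Z n (f i) q := by
  induction n generalizing i with
  | zero => trivial
  | succ n ih =>
    refine ⟨by simpa using hz 0 (Nat.succ_pos n), ?_⟩
    have h1 := ih (i + 1) (fun j hj => by
      have := hz (j + 1) (Nat.succ_lt_succ hj)
      rw [add_assoc, add_comm 1 j]
      exact this)
    refine Z_congr n ?_ h1
    filter_upwards [Ioo_mem_nhds hq.1 hq.2] with x hx
    exact (df i x hx).deriv.symm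

/-- A smooth curve which has no subarc in a hyperplane has an arc on which the derivatives of order
less than the dimension span the space. -/
theorem span_jet {U : Type*} [NormedAddCommGroup U] [NormedSpace ℝ U] [FiniteDimensional ℝ U]
    {u : ℕ → ℝ → U} {a b : ℝ} (hab : a < b)
    (du : ∀ n, ∀ p ∈ Ioo a b, HasDerivAt (u n) (u (n + 1) p) p)
    (ucu : ∀ ξ : U →L[ℝ] ℝ, ∀ a' b' : ℝ, a' < b' → Ioo a' b' ⊆ Ioo a b →
      (∀ p ∈ Ioo a' b', ξ (u 0 p) = 0) → ξ = 0) {N : ℕ} (hN : Module.finrank ℝ U ≤ N) :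
    ∃ a' b' : ℝ, a' < b' ∧ Ioo a' b' ⊆ Ioo a b ∧ ∀ p ∈ Ioo a' b', ∀ ξ : U →L[ℝ] ℝ,
      (∀ j < N, ξ (u j p) = 0) → ξ = 0 := by
  let e := Module.finBasis ℝ U
  let f : Fin (Module.finrank ℝ U) → ℝ → ℝ := fun i x => e.coord i (u 0 x)
  let c : Fin (Module.finrank ℝ U) → U →L[ℝ] ℝ := fun i =>
    LinearMap.toContinuousLinearMap (e.coord i)
  have hf : ∀ i, ContDiffOn ℝ ∞ (f i) (Ioo a b) := fun i =>
    (c i).contDiff.comp_contDiffOn (cd_jet du 0)
  have hsum : ∀ (ξ : U →L[ℝ] ℝ) (z : U), ∑ i, ξ (e i) * e.coord i z = ξ z := by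
    intro ξ z
    conv_rhs => rw [← e.sum_repr z]
    rw [map_sum]
    apply Finset.sum_congr rfl
    intro i _
    simp [mul_comm]
  obtain ⟨a', b', hab', hsub, h⟩ := wronski _ a b hab f hf (by
    intro k a' b' hab' hsub hz
    have h1 := ucu (∑ i, k i • c i) a' b' hab' hsub (by
      intro p hp
      have := hz p hp
      simpa [c, f] using this)
    funext i
    have h2 := congrArg (fun φ : U →L[ℝ] ℝ => φ (e i)) h1
    simpa [c, Finsupp.single_apply] using h2)
  refine ⟨a', b', hab', hsub, ?_⟩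
  intro p hp ξ hξ
  have h1 := h p hp (fun i => ξ (e i)) (by
    have h2 : (fun x => ∑ i, ξ (e i) * f i x) = fun x => ξ (u 0 x) := by
      funext x
      exact hsum ξ (u 0 x)
    simp only [h2]
    refine Z_jet (f := fun n x => ξ (u n x)) _ (hsub hp) ?_ 0 ?_
    · intro n x hx
      exact ξ.hasFDerivAt.comp_hasDerivAt x (du n x hx)
    · intro j hj
      simp only [zero_add]
      exact hξ j (lt_of_lt_of_le hj hN))
  ext z
  rw [← hsum ξ z]
  simp only [zero_apply]
  apply Finset.sum_eq_zero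
  intro i _
  have := congrFun h1 i
  simp only [Pi.zero_apply] at this
  rw [this, zero_mul]

end Stek
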