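import Pool.Agent.H.MP_fc2485_gt.Wave
import Pool.Agent.H.MP_fc2485_gt.Wron

/-!
The theorem on two curves.
-/

set_option maxSynthPendingDepth 3

open Set Filter Topology
open scoped ContDiff

namespace Stek

variable {U : Type*} [NormedAddCommGroup U] [NormedSpace ℝ U]

/-- `Q` is symmetric, `Q (u, u) = c0` and `Q (u', u') = c1` on the interval. -/
def IsGram (c0 c1 : ℝ) (u : ℕ → ℝ → U) (a b : ℝ) (Q : Bil U) : Prop :=
  (∀ x y, Q x y = Q y x) ∧ (∀ p ∈ Ioo a b, Q (u 0 p) (u 0 p) = c0) ∧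
    ∀ p ∈ Ioo a b, Q (u 1 p) (u 1 p) = c1

/-- The space of the symmetric forms vanishing on two curves and on their derivatives. -/
def Tan (u w : ℕ → ℝ → U) (a b c d : ℝ) : Submodule ℝ (Bil U) where
  carrier := {t | IsGram 0 0 u a b t ∧ IsGram 0 0 w c d t}
  add_mem' := by
    rintro t t' ⟨⟨h1, h2, h3⟩, ⟨-, h4, h5⟩⟩ ⟨⟨k1, k2, k3⟩, ⟨-, k4, k5⟩⟩
    have hs : ∀ x y, (t + t') x y = (t + t') y x := by
      intro x y
      simp only [add_apply]
      rw [h1 x y, k1 x y]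
    refine ⟨⟨hs, ?_, ?_⟩, ⟨hs, ?_, ?_⟩⟩ <;> intro p hp <;> simp only [add_apply]
    · rw [h2 p hp, k2 p hp, add_zero]
    · rw [h3 p hp, k3 p hp, add_zero]
    · rw [h4 p hp, k4 p hp, add_zero]
    · rw [h5 p hp, k5 p hp, add_zero]
  zero_mem' := by
    refine ⟨⟨?_, ?_, ?_⟩, ⟨?_, ?_, ?_⟩⟩ <;> intros <;> simp
  smul_mem' := by
    rintro r t ⟨⟨h1, h2, h3⟩, ⟨-, h4, h5⟩⟩
    have hs : ∀ x y, (r • t) x y = (r • t) y x := by
      intro x y
      simp only [smul_apply]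
      rw [h1 x y]
    refine ⟨⟨hs, ?_, ?_⟩, ⟨hs, ?_, ?_⟩⟩ <;> intro p hp <;> simp only [smul_apply, smul_eq_mul]
    · rw [h2 p hp, mul_zero]
    · rw [h3 p hp, mul_zero]
    · rw [h4 p hp, mul_zero]
    · rw [h5 p hp, mul_zero]

theorem mem_Tan {u w : ℕ → ℝ → U} {a b c d : ℝ} {t : Bil U} :
    t ∈ Tan u w a b c d ↔ IsGram 0 0 u a b t ∧ IsGram 0 0 w c d t := Iff.rfl

theorem IsGram.sub {c0 c1 e0 e1 : ℝ} {u : ℕ → ℝ → U} {a b : ℝ} {Q Q' : Bil U}
    (h : IsGram c0 c1 u a b Q) (h' : IsGram e0 e1 u a b Q') :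
    IsGram (c0 - e0) (c1 - e1) u a b (Q - Q') := by
  refine ⟨?_, ?_, ?_⟩
  · intro x y
    simp only [sub_apply]
    rw [h.1 x y, h'.1 x y]
  · intro p hp
    simp only [sub_apply]
    rw [h.2.1 p hp, h'.2.1 p hp]
  · intro p hp
    simp only [sub_apply]
    rw [h.2.2 p hp, h'.2.2 p hp]

theorem IsGram.mono {c0 c1 : ℝ} {u : ℕ → ℝ → U} {a b a' b' : ℝ} {Q : Bil U}
    (h : IsGram c0 c1 u a b Q) (hs : Ioo a' b' ⊆ Ioo a b) : IsGram c0 c1 u a' b' Q :=
  ⟨h.1, fun p hp => h.2.1 p (hs hp), fun p hp => h.2.2 p (hs hp)⟩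

/-- The theorem on two curves in a space of dimension at most six: some pair of points is not
identified by any of the forms. -/
theorem core [FiniteDimensional ℝ U] (hU : Module.finrank ℝ U ≤ 6) {σ a b c d : ℝ}
    (hσ : 0 < σ) (hab : a < b) (hcd : c < d) {u w : ℕ → ℝ → U}
    (du : ∀ n, ∀ p ∈ Ioo a b, HasDerivAt (u n) (u (n + 1) p) p)
    (dw : ∀ n, ∀ p ∈ Ioo c d, HasDerivAt (w n) (w (n + 1) p) p)
    (ucu : ∀ ξ : U →L[ℝ] ℝ, ∀ a' b' : ℝ, a' < b' → Ioo a' b' ⊆ Ioo a b →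
      (∀ p ∈ Ioo a' b', ξ (u 0 p) = 0) → ξ = 0)
    (ucw : ∀ ξ : U →L[ℝ] ℝ, ∀ a' b' : ℝ, a' < b' → Ioo a' b' ⊆ Ioo c d →
      (∀ p ∈ Ioo a' b', ξ (w 0 p) = 0) → ξ = 0) :
    ∃ p ∈ Ioo a b, ∃ q ∈ Ioo c d, ∀ Q : Bil U, IsGram 1 (σ ^ 2) u a b Q →
      IsGram 1 (σ ^ 2) w c d Q → Q (u 0 p - w 0 q) ≠ 0 := by
  by_contra hcon
  push Not at hcon
  obtain ⟨a1, b1, hab1, hs1, spu⟩ := span_jet hab du ucu hU
  obtain ⟨c1, d1, hcd1, hs2, spw⟩ := span_jet hcd dw ucw hU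
  obtain ⟨p0, hp0⟩ := nonempty_Ioo.mpr hab1
  obtain ⟨q0, hq0⟩ := nonempty_Ioo.mpr hcd1
  obtain ⟨Q0, hQu, hQw, -⟩ := hcon p0 (hs1 hp0) q0 (hs2 hq0)
  set T : Submodule ℝ (Bil U) := Tan u w a1 b1 c1 d1 with hT
  have hfg : T.FG := IsNoetherian.noetherian T
  obtain ⟨n, e, he⟩ := Submodule.fg_iff_exists_fin_generating_family.mp hfg
  let J : (Fin n → ℝ) →L[ℝ] Bil U :=
    LinearMap.toContinuousLinearMap (Fintype.linearCombination ℝ e)
  have hJ : ∀ x, J x = ∑ i, x i • e i := fun x => Fintype.linearCombination_apply ℝ e x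
  have hJT : ∀ x, J x ∈ T := by
    intro x
    rw [hJ, ← he]
    exact Submodule.sum_mem _ fun i _ => Submodule.smul_mem _ _
      (Submodule.subset_span (mem_range_self i))
  have hTJ : ∀ t ∈ T, ∃ x, J x = t := by
    intro t ht
    rw [← he] at ht
    obtain ⟨x, hx⟩ := (Submodule.mem_span_range_iff_exists_fun ℝ).mp ht
    exact ⟨x, by rw [hJ, hx]⟩
  let v : ℝ × ℝ → U := fun z => u 0 z.1 - w 0 z.2
  have hO : IsOpen (Ioo a1 b1 ×ˢ Ioo c1 d1 : Set (ℝ × ℝ)) := isOpen_Ioo.prod isOpen_Ioo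
  have hv : ∀ z ∈ (Ioo a1 b1 ×ˢ Ioo c1 d1 : Set (ℝ × ℝ)), DifferentiableAt ℝ v z := by
    rintro ⟨p, q⟩ ⟨hp, hq⟩
    have h1 := (du 0 p (hs1 hp)).differentiableAt
    have h2 := (dw 0 q (hs2 hq)).differentiableAt
    have h3 : DifferentiableAt ℝ (fun z : ℝ × ℝ => u 0 z.1) (p, q) :=
      DifferentiableAt.comp (p, q) (g := u 0) (f := fun z : ℝ × ℝ => z.1) h1 (by fun_prop)
    have h4 : DifferentiableAt ℝ (fun z : ℝ × ℝ => w 0 z.2) (p, q) :=
      DifferentiableAt.comp (p, q) (g := w 0) (f := fun z : ℝ × ℝ => z.2) h2 (by fun_prop)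
    exact h3.sub h4
  obtain ⟨O', hO'1, hO'2, ⟨z0, hz0⟩, x, hx1, hx2⟩ := selection
    (fun z => J.flip (v z)) (fun z => -(Q0 (v z))) hO ⟨(p0, q0), hp0, hq0⟩
    (fun z hz => J.flip.differentiableAt.comp z (hv z hz))
    (fun z hz => (Q0.differentiableAt.comp z (hv z hz)).neg)
    (by
      rintro ⟨p, q⟩ ⟨hp, hq⟩
      obtain ⟨Q, k1, k2, k3⟩ := hcon p (hs1 hp) q (hs2 hq)
      have hmem : Q - Q0 ∈ T := by
        rw [hT, mem_Tan]
        have h1 := (k1.mono hs1).sub (hQu.mono hs1)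
        have h2 := (k2.mono hs2).sub (hQw.mono hs2)
        simp only [sub_self] at h1 h2
        exact ⟨h1, h2⟩
      obtain ⟨x, hx⟩ := hTJ _ hmem
      refine ⟨x, ?_⟩
      rw [ContinuousLinearMap.flip_apply, hx]
      simp only [sub_apply, v]
      rw [k3, zero_sub])
  obtain ⟨p1, q1⟩ := z0
  have hp1 : p1 ∈ Ioo a1 b1 := (hO'1 hz0).1
  have hq1 : q1 ∈ Ioo c1 d1 := (hO'1 hz0).2
  obtain ⟨a', b', c', d', hp', hq', hab', hcd', hall⟩ := shrink hp1 hq1 (hO'2.mem_nhds hz0)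
  have D : Dat σ u w T Q0 (fun z => J (x z)) (fun z => J (fderiv ℝ x z (1, 0)))
      (fun z => J (fderiv ℝ x z (0, 1))) a' b' c' d' := by
    refine
      { hσ := hσ
        hab := hp'.1.trans hp'.2
        hcd := hq'.1.trans hq'.2
        du := fun n p hp => du n p (hs1 (hab' hp))
        dw := fun n p hp => dw n p (hs2 (hcd' hp))
        ucu := fun ξ x y hxy hs => ucu ξ x y hxy (hs.trans (hab'.trans hs1))
        ucw := fun ξ x y hxy hs => ucw ξ x y hxy (hs.trans (hcd'.trans hs2))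
        spu := fun p hp => spu p (hab' hp)
        spw := fun p hp => spw p (hcd' hp)
        sym := fun t ht => ht.1.1
        tu := fun t ht p hp => ht.1.2.1 p (hab' hp)
        tu1 := fun t ht p hp => ht.1.2.2 p (hab' hp)
        tw := fun t ht p hp => ht.2.2.1 p (hcd' hp)
        tw1 := fun t ht p hp => ht.2.2.2 p (hcd' hp)
        qsym := hQu.1
        qu := fun p hp => hQu.2.1 p (hs1 (hab' hp))
        qu1 := fun p hp => hQu.2.2 p (hs1 (hab' hp))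
        qw := fun p hp => hQw.2.1 p (hs2 (hcd' hp))
        qw1 := fun p hp => hQw.2.2 p (hs2 (hcd' hp))
        sT := fun p _ q _ => hJT _
        s1T := fun p _ q _ => hJT _
        s2T := fun p _ q _ => hJT _
        ds := ?_
        hs := ?_ }
    · intro p hp q hq
      have h1 := (hx1 (p, q) (hall p hp q hq)).hasFDerivAt
      have h2 := J.hasFDerivAt.comp (p, q) h1
      refine h2.congr_fderiv ?_
      apply ContinuousLinearMap.ext
      rintro ⟨y, z⟩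
      have h3 : ((y, z) : ℝ × ℝ) = y • ((1 : ℝ), (0 : ℝ)) + z • ((0 : ℝ), (1 : ℝ)) := by
        simp
      conv_lhs => rw [h3]
      simp only [map_add, map_smul, ContinuousLinearMap.comp_apply, add_apply,
        ContinuousLinearMap.smulRight_apply, ContinuousLinearMap.coe_fst',
        ContinuousLinearMap.coe_snd']
    · intro p hp q hq
      have h1 := hx2 (p, q) (hall p hp q hq)
      rw [ContinuousLinearMap.flip_apply] at h1
      simp only [v] at h1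
      simp only [add_apply]
      rw [h1, add_neg_cancel]
  exact D.absurd

end Stek
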