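import Mathlib

/-!
Riemannian surfaces with boundary in isothermal charts, their Steklov eigenspaces, and the
conformal maps to unit balls by Steklov eigenfunctions.
-/

open Set Filter Topology InnerProductSpace
open scoped ContDiff

namespace Stek

/-- An isothermal chart of a topological space `S`: a homeomorphism `map` from an open set of `S`
onto a relatively open subset `dom ∩ {Im z ≥ 0}` of the closed upper half plane, together with a
positive function `ρ`, smooth up to the real axis. The metric is `ρ² |dz|²`. -/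
structure Chart (S : Type*) [TopologicalSpace S] where
  map : PartialEquiv S ℂ
  source_open : IsOpen map.source
  dom : Set ℂ
  dom_open : IsOpen dom
  target_eq : map.target = dom ∩ {z : ℂ | 0 ≤ z.im}
  cont : ContinuousOn map map.source
  cont_symm : ContinuousOn map.symm map.target
  ρ : ℂ → ℝ
  ρ_pos : ∀ z ∈ map.target, 0 < ρ z
  ρ_smooth : ContDiffOn ℝ ∞ ρ map.target

/-- The part of the target of `φ` on which the change of charts from `φ` to `ψ` is defined. -/
def overlap {S : Type*} [TopologicalSpace S] (φ ψ : Chart S) : Set ℂ :=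
  φ.map.target ∩ φ.map.symm ⁻¹' ψ.map.source

/-- A smooth Riemannian surface with boundary (orientable or not): a set of isothermal charts
which covers `S`, whose changes of charts are smooth isometries and respect the boundary. -/
structure Surface (S : Type*) [TopologicalSpace S] where
  charts : Set (Chart S)
  cover : ∀ x : S, ∃ φ ∈ charts, x ∈ φ.map.source
  bdry_iff : ∀ φ ∈ charts, ∀ ψ ∈ charts, ∀ x ∈ φ.map.source, x ∈ ψ.map.source →
    ((φ.map x).im = 0 ↔ (ψ.map x).im = 0)
  smooth : ∀ φ ∈ charts, ∀ ψ ∈ charts,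
    ContDiffOn ℝ ∞ (fun z => ψ.map (φ.map.symm z)) (overlap φ ψ)
  isometry : ∀ φ ∈ charts, ∀ ψ ∈ charts, ∀ z ∈ overlap φ ψ, ∀ v : ℂ,
    ψ.ρ (ψ.map (φ.map.symm z)) *
      ‖fderivWithin ℝ (fun z => ψ.map (φ.map.symm z)) (overlap φ ψ) z v‖ = φ.ρ z * ‖v‖

namespace Surface

variable {S : Type*} [TopologicalSpace S]

/-- The boundary. -/
def bdry (M : Surface S) : Set S :=
  {x | ∃ φ ∈ M.charts, x ∈ φ.map.source ∧ (φ.map x).im = 0}

/-- The function `f` in the coordinate of the chart `φ`. -/
def loc (φ : Chart S) (f : S → ℝ) (z : ℂ) : ℝ := f (φ.map.symm z)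

/-- `∂f/∂x` in the coordinate `z = x + i y` of the chart `φ` (one-sided at the boundary). -/
noncomputable def dx (φ : Chart S) (f : S → ℝ) (z : ℂ) : ℝ :=
  fderivWithin ℝ (loc φ f) φ.map.target z 1

/-- `∂f/∂y` in the coordinate `z = x + i y` of the chart `φ` (one-sided at the boundary). -/
noncomputable def dy (φ : Chart S) (f : S → ℝ) (z : ℂ) : ℝ :=
  fderivWithin ℝ (loc φ f) φ.map.target z Complex.I

/-- `f` is a solution of the Steklov problem with parameter `σ`: it is smooth up to the boundary,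
harmonic in the interior, and its outward normal derivative on the boundary is `σ f`. In the chart
`φ` the outward unit normal is `-ρ⁻¹ ∂/∂y`. -/
structure IsSteklov (M : Surface S) (σ : ℝ) (f : S → ℝ) : Prop where
  smooth : ∀ φ ∈ M.charts, ContDiffOn ℝ ∞ (loc φ f) φ.map.target
  harmonic : ∀ φ ∈ M.charts, ∀ z ∈ φ.map.target, 0 < z.im → HarmonicAt (loc φ f) z
  normal : ∀ φ ∈ M.charts, ∀ z ∈ φ.map.target, z.im = 0 →
    -((φ.ρ z)⁻¹ * dy φ f z) = σ * loc φ f z

theorem dom_nhds (φ : Chart S) {z : ℂ} (hz : z ∈ φ.map.target) (hi : 0 < z.im) :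
    φ.map.target ∈ 𝓝 z := by
  rw [φ.target_eq] at hz ⊢
  have h1 : {z : ℂ | 0 < z.im} ∈ 𝓝 z := (isOpen_lt continuous_const Complex.continuous_im).mem_nhds hi
  filter_upwards [φ.dom_open.mem_nhds hz.1, h1] with w h2 h3
  exact ⟨h2, le_of_lt h3⟩

theorem uniqueDiffOn (φ : Chart S) : UniqueDiffOn ℝ φ.map.target := by
  rw [φ.target_eq, inter_comm]
  apply UniqueDiffOn.inter _ φ.dom_open
  apply uniqueDiffOn_convex
  · exact convex_halfSpace_im_ge 0
  · refine ⟨Complex.I, ?_⟩
    rw [mem_interior_iff_mem_nhds]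
    have h1 : {z : ℂ | 0 < z.im} ∈ 𝓝 Complex.I :=
      (isOpen_lt continuous_const Complex.continuous_im).mem_nhds (by simp)
    filter_upwards [h1] with w h2
    exact le_of_lt h2

theorem loc_add (φ : Chart S) (f g : S → ℝ) : loc φ (f + g) = loc φ f + loc φ g := rfl

theorem loc_smul (φ : Chart S) (c : ℝ) (f : S → ℝ) : loc φ (c • f) = c • loc φ f := rfl

theorem diffAt {M : Surface S} {σ : ℝ} {f : S → ℝ} (h : M.IsSteklov σ f) {φ : Chart S}
    (hφ : φ ∈ M.charts) {z : ℂ} (hz : z ∈ φ.map.target) :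
    DifferentiableWithinAt ℝ (loc φ f) φ.map.target z :=
  (h.smooth φ hφ).differentiableOn (by simp) z hz

/-- The eigenspace: all solutions of the Steklov problem with parameter `σ`. -/
def eigenspace (M : Surface S) (σ : ℝ) : Submodule ℝ (S → ℝ) where
  carrier := {f | M.IsSteklov σ f}
  add_mem' := by
    intro f g hf hg
    refine ⟨?_, ?_, ?_⟩
    · intro φ hφ
      rw [loc_add]
      exact (hf.smooth φ hφ).add (hg.smooth φ hφ)
    · intro φ hφ z hz hi
      rw [loc_add]
      exact (hf.harmonic φ hφ z hz hi).add (hg.harmonic φ hφ z hz hi)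
    · intro φ hφ z hz hi
      have h1 := hf.normal φ hφ z hz hi
      have h2 := hg.normal φ hφ z hz hi
      have h3 : dy φ (f + g) z = dy φ f z + dy φ g z := by
        unfold dy
        rw [loc_add, fderivWithin_add (uniqueDiffOn φ z hz) (diffAt hf hφ hz) (diffAt hg hφ hz)]
        rfl
      have h4 : loc φ (f + g) z = loc φ f z + loc φ g z := rfl
      rw [h3, h4]
      linarith
  zero_mem' := by
    refine ⟨?_, ?_, ?_⟩
    · intro φ hφ
      exact contDiffOn_const
    · intro φ hφ z hz hi
      exact harmonicAt_const 0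
    · intro φ hφ z hz hi
      have h3 : dy φ 0 z = 0 := by
        unfold dy
        have : loc φ 0 = fun _ => (0 : ℝ) := rfl
        rw [this, fderivWithin_fun_const]
        rfl
      have h4 : loc φ 0 z = 0 := rfl
      rw [h3, h4]
      simp
  smul_mem' := by
    intro c f hf
    refine ⟨?_, ?_, ?_⟩
    · intro φ hφ
      rw [loc_smul]
      exact (hf.smooth φ hφ).const_smul c
    · intro φ hφ z hz hi
      rw [loc_smul]
      exact (hf.harmonic φ hφ z hz hi).const_smul
    · intro φ hφ z hz hi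
      have h1 := hf.normal φ hφ z hz hi
      have h3 : dy φ (c • f) z = c * dy φ f z := by
        unfold dy
        rw [loc_smul, fderivWithin_const_smul (uniqueDiffOn φ z hz) (diffAt hf hφ hz)]
        rfl
      have h4 : loc φ (c • f) z = c * loc φ f z := rfl
      rw [h3, h4]
      linear_combination c * h1

/-- The class `C(Σ, g)` of the problem, for the eigenvalue `σ`, with values in the unit ball of
`ℝⁿ`: the maps `Φ = (Φ_1, ..., Φ_n)` with `|Φ| ≤ 1`, `|Φ| = 1` on the boundary, whose components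
are Steklov eigenfunctions for `σ` (or zero), and which are conformal, possibly with branch
points. -/
structure IsFree (M : Surface S) (σ : ℝ) {n : ℕ} (Φ : Fin n → S → ℝ) : Prop where
  mem : ∀ k, Φ k ∈ M.eigenspace σ
  ball : ∀ x, ∑ k, Φ k x ^ 2 ≤ 1
  sphere : ∀ x ∈ M.bdry, ∑ k, Φ k x ^ 2 = 1
  orth : ∀ φ ∈ M.charts, ∀ z ∈ φ.map.target, ∑ k, dx φ (Φ k) z * dy φ (Φ k) z = 0
  norm_eq : ∀ φ ∈ M.charts, ∀ z ∈ φ.map.target,
    ∑ k, dx φ (Φ k) z ^ 2 = ∑ k, dy φ (Φ k) z ^ 2

/-- `p` and `q` are separated by all the maps of the class. -/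
def Separated (M : Surface S) (σ : ℝ) (p q : S) : Prop :=
  ∀ (n : ℕ) (Φ : Fin n → S → ℝ), M.IsFree σ Φ → ∃ k, Φ k p ≠ Φ k q

end Surface

end Stek
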