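import Mathlib

/-!
Equicontinuity up to the boundary of bounded harmonic functions with bounded normal derivative.
-/

open Set Filter Topology InnerProductSpace
open scoped ContDiff

namespace Stek

/-- gradient estimate at the centre of a disc -/
theorem grad_bound {h : ℂ → ℝ} {z : ℂ} {y : ℝ} (hy : 0 < y)
    (hh : ∀ w ∈ Metric.ball z y, HarmonicAt h w) (hb : ∀ w ∈ Metric.ball z y, |h w| ≤ 1) :
    ‖((fderiv ℝ h z 1 : ℝ) : ℂ) - Complex.I * ((fderiv ℝ h z Complex.I : ℝ) : ℂ)‖ ≤ 18 / y := by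
  obtain ⟨F, hF1, hF2⟩ :=
    InnerProductSpace.HarmonicOnNhd.exists_analyticOnNhd_ball_re_eq (f := h) (z := z) (R := y) hh
  have hzm : z ∈ Metric.ball z y := Metric.mem_ball_self hy
  have hFd : ∀ w ∈ Metric.ball z y, DifferentiableAt ℂ F w := fun w hw => (hF1 w hw).differentiableAt
  have hnorm : ∀ w ∈ Metric.ball z y, ‖Complex.exp (F w)‖ = Real.exp (h w) := by
    intro w hw
    rw [Complex.norm_exp]
    congr 1
    exact hF2 hw
  have he1 : Real.exp 1 < 3 := Real.exp_one_lt_d9.trans (by norm_num)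
  have hup : ∀ w ∈ Metric.ball z y, ‖Complex.exp (F w)‖ ≤ 3 := by
    intro w hw
    rw [hnorm w hw]
    have h1 := (abs_le.mp (hb w hw)).2
    exact ((Real.exp_le_exp.mpr h1).trans he1.le)
  have hlow : 1 / 3 ≤ ‖Complex.exp (F z)‖ := by
    rw [hnorm z hzm]
    have h1 := (abs_le.mp (hb z hzm)).1
    have h2 : Real.exp (-1) ≤ Real.exp (h z) := Real.exp_le_exp.mpr h1
    have h3 : (1 : ℝ) / 3 ≤ Real.exp (-1) := by
      rw [Real.exp_neg, ← one_div]
      exact one_div_le_one_div_of_le (Real.exp_pos 1) he1.le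
    linarith
  have hG : ‖deriv (fun w => Complex.exp (F w)) z‖ ≤ 6 / y := by
    apply Complex.norm_deriv_le_div_of_mapsTo_ball _ _ hy
    · intro w hw
      exact (hFd w hw).cexp.differentiableWithinAt
    · intro w hw
      rw [Metric.mem_closedBall, dist_eq_norm]
      have h1 := norm_sub_le (Complex.exp (F w)) (Complex.exp (F z))
      linarith [hup w hw, hup z hzm]
  have hFh := (hFd z hzm).hasDerivAt
  set k := deriv F z with hk
  have hG2 : deriv (fun w => Complex.exp (F w)) z = Complex.exp (F z) * k := hFh.cexp.deriv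
  rw [hG2, norm_mul] at hG
  have hkb : ‖k‖ ≤ 18 / y := by
    have h1 : (1 / 3) * ‖k‖ ≤ 6 / y :=
      (mul_le_mul_of_nonneg_right hlow (norm_nonneg k)).trans hG
    have h2 : (18 : ℝ) / y = 3 * (6 / y) := by ring
    rw [h2]
    linarith
  have hR : HasFDerivAt h (Complex.reCLM.comp
      ((ContinuousLinearMap.toSpanSingleton ℂ k : ℂ →L[ℂ] ℂ).restrictScalars ℝ)) z := by
    have h1 := hFh.hasFDerivAt.restrictScalars ℝ
    have h2 := Complex.reCLM.hasFDerivAt.comp z h1
    refine h2.congr_of_eventuallyEq ?_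
    filter_upwards [Metric.isOpen_ball.mem_nhds hzm] with w hw
    exact (hF2 hw).symm
  have h1 : fderiv ℝ h z 1 = k.re := by
    rw [hR.fderiv]
    simp
  have h2 : fderiv ℝ h z Complex.I = -k.im := by
    rw [hR.fderiv]
    simp
  rw [h1, h2]
  have h3 : ((k.re : ℝ) : ℂ) - Complex.I * ((-k.im : ℝ) : ℂ) = k := by
    apply Complex.ext <;> simp
  rw [h3]
  exact hkb

theorem re_I_div (w : ℂ) : (Complex.I / w).re = w.im / ‖w‖ ^ 2 := by
  rw [Complex.div_re, Complex.normSq_eq_norm_sq]
  simp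

/-- The half disc. -/
def HD (x0 R : ℝ) : Set ℂ := Metric.ball (x0 : ℂ) R ∩ {z | 0 ≤ z.im}

/-- data for the estimates in the half disc -/
structure HData (x0 R B : ℝ) (h : ℂ → ℝ) : Prop where
  hR : 0 < R
  smooth : ContDiffOn ℝ ∞ h (HD x0 R)
  harm : ∀ z ∈ HD x0 R, 0 < z.im → HarmonicAt h z
  bound : ∀ z ∈ HD x0 R, |h z| ≤ 1
  normal : ∀ z ∈ HD x0 R, z.im = 0 → |fderivWithin ℝ h (HD x0 R) z Complex.I| ≤ B

/-- the complex gradient -/
noncomputable def cgr (x0 R : ℝ) (h : ℂ → ℝ) (z : ℂ) : ℂ :=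
  ((fderivWithin ℝ h (HD x0 R) z 1 : ℝ) : ℂ) -
    Complex.I * ((fderivWithin ℝ h (HD x0 R) z Complex.I : ℝ) : ℂ)

namespace HData

variable {x0 R B : ℝ} {h : ℂ → ℝ}

theorem unique : UniqueDiffOn ℝ (HD x0 R) := by
  rw [HD, inter_comm]
  apply UniqueDiffOn.inter _ Metric.isOpen_ball
  apply uniqueDiffOn_convex
  · exact convex_halfSpace_im_ge 0
  · refine ⟨Complex.I, ?_⟩
    rw [mem_interior_iff_mem_nhds]
    have h1 : {z : ℂ | 0 < z.im} ∈ 𝓝 Complex.I :=
      (isOpen_lt continuous_const Complex.continuous_im).mem_nhds (by simp)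
    filter_upwards [h1] with w h2
    exact le_of_lt h2

theorem nhds {z : ℂ} (hz : z ∈ HD x0 R) (hi : 0 < z.im) : HD x0 R ∈ 𝓝 z := by
  have h1 : {z : ℂ | 0 < z.im} ∈ 𝓝 z :=
    (isOpen_lt continuous_const Complex.continuous_im).mem_nhds hi
  filter_upwards [Metric.isOpen_ball.mem_nhds hz.1, h1] with w h2 h3
  exact ⟨h2, le_of_lt h3⟩

theorem cont (H : HData x0 R B h) : ContinuousOn (cgr x0 R h) (HD x0 R) := by
  have hcf : ContinuousOn (fun z => fderivWithin ℝ h (HD x0 R) z) (HD x0 R) :=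
    H.smooth.continuousOn_fderivWithin unique (by simp)
  have c1 : ContinuousOn (fun z => ((fderivWithin ℝ h (HD x0 R) z 1 : ℝ) : ℂ)) (HD x0 R) :=
    Complex.continuous_ofReal.comp_continuousOn (hcf.clm_apply continuousOn_const)
  have c2 : ContinuousOn (fun z => ((fderivWithin ℝ h (HD x0 R) z Complex.I : ℝ) : ℂ))
      (HD x0 R) := Complex.continuous_ofReal.comp_continuousOn (hcf.clm_apply continuousOn_const)
  exact c1.sub (continuousOn_const.mul c2)

theorem holo (H : HData x0 R B h) {z : ℂ} (hz : z ∈ HD x0 R) (hi : 0 < z.im) :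
    DifferentiableAt ℂ (cgr x0 R h) z := by
  refine (_root_.HarmonicAt.differentiableAt_complex_partial
    (H.harm z hz hi)).congr_of_eventuallyEq ?_
  have h3 : ∀ᶠ w in 𝓝 z, w ∈ Metric.ball (x0 : ℂ) R ∧ 0 < w.im := by
    apply Filter.Eventually.and
    · exact Metric.isOpen_ball.mem_nhds hz.1
    · exact (isOpen_lt continuous_const Complex.continuous_im).mem_nhds hi
  filter_upwards [h3] with w hw
  unfold cgr
  rw [fderivWithin_of_mem_nhds (nhds ⟨hw.1, hw.2.le⟩ hw.2)]

/-- interior gradient estimate -/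
theorem grad (H : HData x0 R B h) {z : ℂ} (hz : ‖z - x0‖ ≤ R / 2) (hi : 0 < z.im) :
    ‖cgr x0 R h z‖ ≤ 18 / z.im := by
  have him : z.im ≤ ‖z - x0‖ := by
    have := Complex.abs_im_le_norm (z - x0)
    simp only [Complex.sub_im, Complex.ofReal_im, sub_zero] at this
    exact (le_abs_self _).trans this
  have hsub : ∀ w ∈ Metric.ball z z.im, w ∈ HD x0 R ∧ 0 < w.im := by
    intro w hw
    rw [Metric.mem_ball, dist_eq_norm] at hw
    have h1 : ‖w - x0‖ ≤ ‖w - z‖ + ‖z - x0‖ := by
      have : w - x0 = (w - z) + (z - x0) := by ring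
      rw [this]
      exact norm_add_le _ _
    have h2 : 0 < w.im := by
      have := Complex.abs_im_le_norm (w - z)
      rw [Complex.sub_im] at this
      have h3 := (abs_le.mp this).1
      linarith
    refine ⟨⟨?_, h2.le⟩, h2⟩
    rw [Metric.mem_ball, dist_eq_norm]
    linarith
  have hz' : z ∈ HD x0 R := (hsub z (Metric.mem_ball_self hi)).1
  unfold cgr
  rw [fderivWithin_of_mem_nhds (nhds hz' hi)]
  exact grad_bound hi (fun w hw => H.harm w (hsub w hw).1 (hsub w hw).2)
    (fun w hw => H.bound w (hsub w hw).1)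

theorem corner (H : HData x0 R B h) {c : ℂ} (hc : c ∈ HD x0 R) (hci : c.im = 0) {ε : ℝ}
    (hε : 0 < ε) : ∃ δ > 0, ∀ w ∈ HD x0 R, ‖w - c‖ ≤ δ →
      |fderivWithin ℝ h (HD x0 R) w Complex.I| ≤ B + ε := by
  have hcf : ContinuousOn (fun z => fderivWithin ℝ h (HD x0 R) z) (HD x0 R) :=
    H.smooth.continuousOn_fderivWithin unique (by simp)
  have c2 : ContinuousWithinAt (fun z => |fderivWithin ℝ h (HD x0 R) z Complex.I|) (HD x0 R) c :=
    (hcf.clm_apply continuousOn_const c hc).abs
  have h1 : |fderivWithin ℝ h (HD x0 R) c Complex.I| < B + ε := by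
    linarith [H.normal c hc hci]
  have h2 := c2.eventually_lt_const h1
  rw [eventually_nhdsWithin_iff] at h2
  obtain ⟨δ, hδ, h3⟩ := Metric.eventually_nhds_iff.mp h2
  refine ⟨δ / 2, by linarith, ?_⟩
  intro w hw hwc
  refine (h3 (y := w) ?_ hw).le
  rw [dist_eq_norm]
  linarith

/-- estimate of the normal derivative by the maximum principle -/
theorem normal_bound (H : HData x0 R B h) {s : ℝ} (hs : |s| ≤ 1) {z : ℂ}
    (hz : ‖z - x0‖ < R / 2) (hi : 0 < z.im) :
    s * fderivWithin ℝ h (HD x0 R) z Complex.I ≤ B + 18 *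
      (z.im / ‖z - ((x0 + R / 2 : ℝ) : ℂ)‖ ^ 2 + z.im / ‖z - ((x0 - R / 2 : ℝ) : ℂ)‖ ^ 2) := by
  have hR := H.hR
  set r := R / 2 with hr
  have hr0 : 0 < r := by linarith
  set c1 : ℂ := ((x0 + r : ℝ) : ℂ) with hc1
  set c2 : ℂ := ((x0 - r : ℝ) : ℂ) with hc2
  have c1i : c1.im = 0 := by simp [hc1]
  have c2i : c2.im = 0 := by simp [hc2]
  have c1m : c1 ∈ HD x0 R := by
    refine ⟨?_, c1i.ge⟩
    rw [Metric.mem_ball, dist_eq_norm, hc1, ← Complex.ofReal_sub, Complex.norm_real,
      Real.norm_eq_abs, add_sub_cancel_left, abs_of_pos hr0]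
    linarith
  have c2m : c2 ∈ HD x0 R := by
    refine ⟨?_, c2i.ge⟩
    rw [Metric.mem_ball, dist_eq_norm, hc2, ← Complex.ofReal_sub, Complex.norm_real,
      Real.norm_eq_abs]
    have : x0 - r - x0 = -r := by ring
    rw [this, abs_neg, abs_of_pos hr0]
    linarith
  have hne : ∀ w : ℂ, 0 < w.im → ∀ c : ℂ, c.im = 0 → w - c ≠ 0 := by
    intro w hw c hc h0
    have : (w - c).im = 0 := by rw [h0]; simp
    rw [Complex.sub_im, hc, sub_zero] at this
    linarith
  -- it suffices to prove the estimate with an error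
  apply le_of_forall_pos_le_add
  intro ε hε
  obtain ⟨δ1, hδ1, k1⟩ := H.corner c1m c1i hε
  obtain ⟨δ2, hδ2, k2⟩ := H.corner c2m c2i hε
  have n1 : 0 < ‖z - c1‖ := norm_pos_iff.mpr (hne z hi c1 c1i)
  have n2 : 0 < ‖z - c2‖ := norm_pos_iff.mpr (hne z hi c2 c2i)
  set δ := min (min δ1 δ2) (min (‖z - c1‖ / 2) (‖z - c2‖ / 2)) with hδ
  have hδ0 : 0 < δ := lt_min (lt_min hδ1 hδ2) (lt_min (by linarith) (by linarith))
  have d1 : δ ≤ δ1 := (min_le_left _ _).trans (min_le_left _ _)
  have d2 : δ ≤ δ2 := (min_le_left _ _).trans (min_le_right _ _)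
  have d3 : δ ≤ ‖z - c1‖ / 2 := (min_le_right _ _).trans (min_le_left _ _)
  have d4 : δ ≤ ‖z - c2‖ / 2 := (min_le_right _ _).trans (min_le_right _ _)
  let P : ℂ → ℂ := fun w => Complex.exp ((s : ℂ) * (Complex.I * cgr x0 R h w) -
    ((B : ℂ) + 18 * (Complex.I / (w - c1) + Complex.I / (w - c2))))
  have hPn : ∀ w, ‖P w‖ = Real.exp (s * fderivWithin ℝ h (HD x0 R) w Complex.I -
      (B + 18 * (w.im / ‖w - c1‖ ^ 2 + w.im / ‖w - c2‖ ^ 2))) := by
    intro w
    simp only [P]
    rw [Complex.norm_exp]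
    congr 1
    have e1 : (w - c1).im = w.im := by rw [Complex.sub_im, c1i, sub_zero]
    have e2 : (w - c2).im = w.im := by rw [Complex.sub_im, c2i, sub_zero]
    have e3 : (Complex.I * cgr x0 R h w).re = fderivWithin ℝ h (HD x0 R) w Complex.I := by
      simp [cgr]
    have e4 : ((18 : ℂ) * (Complex.I / (w - c1) + Complex.I / (w - c2))).re =
        18 * (w.im / ‖w - c1‖ ^ 2 + w.im / ‖w - c2‖ ^ 2) := by
      have : (18 : ℂ) = ((18 : ℝ) : ℂ) := by norm_num
      rw [this, Complex.re_ofReal_mul, Complex.add_re, re_I_div, re_I_div, e1, e2]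
    rw [Complex.sub_re, Complex.re_ofReal_mul, e3, Complex.add_re, Complex.ofReal_re, e4]
  let U : Set ℂ := {w | ‖w - x0‖ < r ∧ 0 < w.im ∧ δ < ‖w - c1‖ ∧ δ < ‖w - c2‖}
  let K : Set ℂ := {w | ‖w - x0‖ ≤ r ∧ 0 ≤ w.im ∧ δ ≤ ‖w - c1‖ ∧ δ ≤ ‖w - c2‖}
  have hUK : U ⊆ K := fun w hw => ⟨hw.1.le, hw.2.1.le, hw.2.2.1.le, hw.2.2.2.le⟩
  have hnc : ∀ c : ℂ, Continuous fun w : ℂ => ‖w - c‖ := fun c => by fun_prop
  have hUo : IsOpen U :=
    (isOpen_lt (hnc x0) (continuous_const (y := r))).inter
      ((isOpen_lt (continuous_const (y := (0 : ℝ))) Complex.continuous_im).inter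
      ((isOpen_lt (continuous_const (y := δ)) (hnc c1)).inter
      (isOpen_lt (continuous_const (y := δ)) (hnc c2))))
  have hKc : IsClosed K :=
    (isClosed_le (hnc x0) (continuous_const (y := r))).inter
      ((isClosed_le (continuous_const (y := (0 : ℝ))) Complex.continuous_im).inter
      ((isClosed_le (continuous_const (y := δ)) (hnc c1)).inter
      (isClosed_le (continuous_const (y := δ)) (hnc c2))))
  have hcl : closure U ⊆ K := closure_minimal hUK hKc
  have hKD : K ⊆ HD x0 R := by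
    intro w hw
    refine ⟨?_, hw.2.1⟩
    rw [Metric.mem_ball, dist_eq_norm]
    linarith [hw.1]
  have hKn : ∀ w ∈ K, w - c1 ≠ 0 ∧ w - c2 ≠ 0 := by
    intro w hw
    constructor
    · intro h0
      have := hw.2.2.1
      rw [h0, norm_zero] at this
      linarith
    · intro h0
      have := hw.2.2.2
      rw [h0, norm_zero] at this
      linarith
  have hUb : Bornology.IsBounded U := by
    rw [Metric.isBounded_iff_subset_closedBall (x0 : ℂ)]
    refine ⟨r, fun w hw => ?_⟩
    rw [Metric.mem_closedBall, dist_eq_norm]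
    exact hw.1.le
  have hPc : DiffContOnCl ℂ P U := by
    constructor
    · intro w hw
      have hwK := hUK hw
      have f1 := H.holo (hKD hwK) hw.2.1
      obtain ⟨g1, g2⟩ := hKn w hwK
      apply DifferentiableAt.differentiableWithinAt
      have e1 : DifferentiableAt ℂ (fun w => Complex.I / (w - c1)) w :=
        (differentiableAt_const _).div (by fun_prop) g1
      have e2 : DifferentiableAt ℂ (fun w => Complex.I / (w - c2)) w :=
        (differentiableAt_const _).div (by fun_prop) g2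
      exact (((f1.const_mul _).const_mul _).sub
        (((e1.add e2).const_mul _).const_add _)).cexp
    · have f1 : ContinuousOn (cgr x0 R h) (closure U) := H.cont.mono (hcl.trans hKD)
      have e1 : ContinuousOn (fun w => Complex.I / (w - c1)) (closure U) :=
        continuousOn_const.div (by fun_prop) (fun w hw => (hKn w (hcl hw)).1)
      have e2 : ContinuousOn (fun w => Complex.I / (w - c2)) (closure U) :=
        continuousOn_const.div (by fun_prop) (fun w hw => (hKn w (hcl hw)).2)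
      exact ((continuousOn_const.mul (continuousOn_const.mul f1)).sub
        (continuousOn_const.add (continuousOn_const.mul (e1.add e2)))).cexp
  have hfr : ∀ w ∈ frontier U, ‖P w‖ ≤ Real.exp ε := by
    intro w hw
    rw [hUo.frontier_eq] at hw
    have hwK := hcl hw.1
    rw [hPn]
    apply Real.exp_le_exp.mpr
    set b := fderivWithin ℝ h (HD x0 R) w Complex.I with hb
    have hsb : s * b ≤ |b| := by
      calc s * b ≤ |s * b| := le_abs_self _
        _ = |s| * |b| := abs_mul _ _
        _ ≤ 1 * |b| := mul_le_mul_of_nonneg_right hs (abs_nonneg b)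
        _ = |b| := one_mul _
    rcases eq_or_lt_of_le hwK.2.1 with h0 | h0
    · have e1 := H.normal w (hKD hwK) h0.symm
      rw [← h0, zero_div, zero_div]
      linarith
    · have p1 : 0 ≤ w.im / ‖w - c1‖ ^ 2 := by positivity
      have p2 : 0 ≤ w.im / ‖w - c2‖ ^ 2 := by positivity
      by_cases q1 : ‖w - c1‖ ≤ δ
      · have e1 := k1 w (hKD hwK) (q1.trans d1)
        linarith
      by_cases q2 : ‖w - c2‖ ≤ δ
      · have e1 := k2 w (hKD hwK) (q2.trans d2)
        linarith
      push Not at q1 q2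
      have q3 : ‖w - x0‖ = r := by
        apply le_antisymm hwK.1
        by_contra hcon
        push Not at hcon
        exact hw.2 ⟨hcon, h0, q1, q2⟩
      have e1 := H.grad (z := w) (by rw [q3]) h0
      have e2 : |b| ≤ ‖cgr x0 R h w‖ := by
        have e3 : (cgr x0 R h w).im = -b := by simp [cgr, hb]
        have e4 := Complex.abs_im_le_norm (cgr x0 R h w)
        rwa [e3, abs_neg] at e4
      -- the sum of the two kernels
      have hsq : (w.re - x0) ^ 2 + w.im ^ 2 = r ^ 2 := by
        rw [← q3, ← Complex.normSq_eq_norm_sq, Complex.normSq_apply]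
        simp only [Complex.sub_re, Complex.sub_im, Complex.ofReal_re, Complex.ofReal_im, sub_zero]
        ring
      have n1 : ‖w - c1‖ ^ 2 = 2 * r * (r - (w.re - x0)) := by
        rw [← Complex.normSq_eq_norm_sq, Complex.normSq_apply, hc1]
        simp only [Complex.sub_re, Complex.sub_im, Complex.ofReal_re, Complex.ofReal_im, sub_zero]
        linear_combination hsq
      have n2 : ‖w - c2‖ ^ 2 = 2 * r * (r + (w.re - x0)) := by
        rw [← Complex.normSq_eq_norm_sq, Complex.normSq_apply, hc2]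
        simp only [Complex.sub_re, Complex.sub_im, Complex.ofReal_re, Complex.ofReal_im, sub_zero]
        linear_combination hsq
      have m1 : ‖w - c1‖ ^ 2 ≠ 0 := pow_ne_zero 2 (norm_ne_zero_iff.mpr (hKn w hwK).1)
      have m2 : ‖w - c2‖ ^ 2 ≠ 0 := pow_ne_zero 2 (norm_ne_zero_iff.mpr (hKn w hwK).2)
      have hsum : w.im / ‖w - c1‖ ^ 2 + w.im / ‖w - c2‖ ^ 2 = 1 / w.im := by
        rw [div_add_div _ _ m1 m2, div_eq_div_iff (mul_ne_zero m1 m2) h0.ne', n1, n2]
        linear_combination (4 * r ^ 2) * hsq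
      rw [hsum]
      have e3 : (18 : ℝ) * (1 / w.im) = 18 / w.im := by ring
      have hB : 0 ≤ B := (abs_nonneg _).trans (H.normal c1 c1m c1i)
      rw [e3]
      linarith
  have hzU : z ∈ closure U := subset_closure ⟨hz, hi, by linarith, by linarith⟩
  have hfin := Complex.norm_le_of_forall_mem_frontier_norm_le hUb hPc hfr hzU
  rw [hPn, Real.exp_le_exp] at hfin
  linarith

/-- bound of the normal derivative in a smaller half disc -/
theorem normal_le (H : HData x0 R B h) {z : ℂ} (hz : ‖z - x0‖ ≤ R / 4) (hi : 0 ≤ z.im) :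
    |fderivWithin ℝ h (HD x0 R) z Complex.I| ≤ B + 144 / R := by
  have hR := H.hR
  have hzD : z ∈ HD x0 R := by
    refine ⟨?_, hi⟩
    rw [Metric.mem_ball, dist_eq_norm]
    linarith
  rcases eq_or_lt_of_le hi with h0 | h0
  · have := H.normal z hzD h0.symm
    have h2 : 0 < 144 / R := by positivity
    linarith
  · have key : ∀ c : ℝ, |c - x0| = R / 2 → z.im / ‖z - (c : ℂ)‖ ^ 2 ≤ 4 / R := by
      intro c hc
      have h1 : R / 4 ≤ ‖z - (c : ℂ)‖ := by
        have h2 : ‖((c : ℂ) - x0)‖ ≤ ‖z - (c : ℂ)‖ + ‖z - x0‖ := by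
          have : ((c : ℂ) - x0) = -(z - (c : ℂ)) + (z - x0) := by ring
          rw [this]
          refine (norm_add_le _ _).trans ?_
          rw [norm_neg]
        rw [← Complex.ofReal_sub, Complex.norm_real, Real.norm_eq_abs, hc] at h2
        linarith
      have h2 : z.im ≤ R / 4 := by
        have := Complex.abs_im_le_norm (z - x0)
        simp only [Complex.sub_im, Complex.ofReal_im, sub_zero] at this
        exact ((le_abs_self _).trans this).trans hz
      have h3 : 0 < ‖z - (c : ℂ)‖ ^ 2 := by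
        have : 0 < ‖z - (c : ℂ)‖ := by linarith
        positivity
      rw [div_le_div_iff₀ h3 hR]
      nlinarith
    have k1 := key (x0 + R / 2) (by rw [add_sub_cancel_left, abs_of_pos (by linarith)])
    have k2 := key (x0 - R / 2) (by
      have : x0 - R / 2 - x0 = -(R / 2) := by ring
      rw [this, abs_neg, abs_of_pos (by linarith)])
    have n1 := H.normal_bound (s := 1) (by simp) (z := z) (by linarith) h0
    have n2 := H.normal_bound (s := -1) (by simp) (z := z) (by linarith) h0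
    have e : (144 : ℝ) / R = 18 * (4 / R + 4 / R) := by ring
    rw [e, abs_le]
    constructor <;> linarith

end HData

end Stek
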