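import Pool.Agent.H.MP_fc2485_gt.Hill

/-!
If the potential does not depend on the second variable, there is a contradiction.
-/

set_option maxSynthPendingDepth 3

open Set Filter Topology

namespace Stek

variable {U : Type*} [NormedAddCommGroup U] [NormedSpace ℝ U]

/-- uniqueness for `y'' = - h y` to the right of a point -/
theorem second_order_unique {h y0 y1 : ℝ → ℝ} {p r : ℝ}
    (hc : ContinuousOn h (Icc p r))
    (h0 : ∀ x ∈ Icc p r, HasDerivAt y0 (y1 x) x)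
    (h1 : ∀ x ∈ Icc p r, HasDerivAt y1 (-(h x * y0 x)) x)
    (i0 : y0 p = 0) (i1 : y1 p = 0) : ∀ x ∈ Icc p r, y0 x = 0 := by
  obtain ⟨K, hK⟩ := isCompact_Icc.exists_bound_of_continuousOn hc
  have hf : ContinuousOn (fun x => (y0 x, y1 x)) (Icc p r) := fun x hx =>
    ((h0 x hx).continuousAt.prodMk (h1 x hx).continuousAt).continuousWithinAt
  have hf' : ∀ x ∈ Ico p r, HasDerivWithinAt (fun x => (y0 x, y1 x)) (y1 x, -(h x * y0 x))
      (Ici x) x := fun x hx =>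
    ((h0 x ⟨hx.1, hx.2.le⟩).prodMk (h1 x ⟨hx.1, hx.2.le⟩)).hasDerivWithinAt
  have hb : ∀ x ∈ Ico p r, ‖(y1 x, -(h x * y0 x))‖ ≤ (max K 1) * ‖(y0 x, y1 x)‖ := by
    intro x hx
    rw [Prod.norm_def, Prod.norm_def]
    simp only
    have hk := hK x ⟨hx.1, hx.2.le⟩
    have k1 : ‖y0 x‖ ≤ max ‖y0 x‖ ‖y1 x‖ := le_max_left _ _
    have k2 : ‖y1 x‖ ≤ max ‖y0 x‖ ‖y1 x‖ := le_max_right _ _
    have k3 : (1 : ℝ) ≤ max K 1 := le_max_right _ _
    have k4 : K ≤ max K 1 := le_max_left _ _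
    have k5 : 0 ≤ ‖y0 x‖ := norm_nonneg _
    apply max_le
    · nlinarith [norm_nonneg (y1 x)]
    · rw [norm_neg, norm_mul]
      calc ‖h x‖ * ‖y0 x‖ ≤ max K 1 * ‖y0 x‖ := by
            apply mul_le_mul_of_nonneg_right (hk.trans k4) k5
        _ ≤ max K 1 * max ‖y0 x‖ ‖y1 x‖ := by
            apply mul_le_mul_of_nonneg_left k1 (by linarith)
  have hz := eq_zero_of_abs_deriv_le_mul_abs_self_of_eq_zero_right hf hf' (by simp [i0, i1]) hb
  intro x hx
  exact congrArg Prod.fst (hz x hx)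

namespace Dat

variable {σ : ℝ} {u w : ℕ → ℝ → U} {T : Submodule ℝ (Bil U)} {Q0 : Bil U}
    {s s1 s2 : ℝ × ℝ → Bil U} {a b c d : ℝ}

theorem fin (D : Dat σ u w T Q0 s s1 s2 a b c d) (h : ℝ → ℝ) (hc : ContinuousOn h (Ioo a b))
    (he : ∀ p ∈ Ioo a b, ∀ q ∈ Ioo c d, ∀ t ∈ T,
      t (u 2 p) (w 0 q) = -(h p * t (u 0 p) (w 0 q))) : False := by
  have st1 : ∀ t ∈ T, ∀ p ∈ Ioo a b, t (u 2 p) + h p • t (u 0 p) = 0 := by
    intro t ht p hp
    apply D.ucw _ c d D.hcd Subset.rfl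
    intro q hq
    have := he p hp q hq t ht
    simp only [add_apply, smul_apply, smul_eq_mul]
    linarith
  have st2 : ∀ t ∈ T, ∀ p ∈ Ioo a b, t (u 0 p) = 0 := by
    intro t ht p hp
    obtain ⟨r, hr1, hr2⟩ := exists_between hp.2
    have hsub : Icc p r ⊆ Ioo a b := fun x hx => ⟨lt_of_lt_of_le hp.1 hx.1, lt_of_le_of_lt hx.2 hr2⟩
    apply D.ucu _ p r hr1 (Ioo_subset_Icc_self.trans hsub)
    intro x hx
    refine second_order_unique (h := h) (y0 := fun x => t (u 0 p) (u 0 x))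
      (y1 := fun x => t (u 0 p) (u 1 x)) (hc.mono hsub) ?_ ?_ (D.tu t ht p hp)
      (D.jt ht hp).1 x (Ioo_subset_Icc_self hx)
    · intro x hx
      exact hd_snd t _ (D.du 0 x (hsub hx))
    · intro x hx
      have h1 := hd_snd t (u 0 p) (D.du 1 x (hsub hx))
      refine h1.congr_deriv ?_
      have h2 := congrArg (fun φ : U →L[ℝ] ℝ => φ (u 0 p)) (st1 t ht x (hsub hx))
      simp only [add_apply, smul_apply, smul_eq_mul, zero_apply] at h2
      rw [D.sym t ht (u 2 x) (u 0 p), D.sym t ht (u 0 x) (u 0 p)] at h2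
      norm_num
      linarith
  have st3 : ∀ t ∈ T, t = 0 := by
    intro t ht
    ext z z'
    have : t z = 0 := by
      apply D.ucu _ a b D.hab Subset.rfl
      intro p hp
      rw [D.sym t ht, st2 t ht p hp]
      rfl
    rw [this]
    rfl
  obtain ⟨p, hp⟩ := nonempty_Ioo.mpr D.hab
  obtain ⟨q, hq⟩ := nonempty_Ioo.mpr D.hcd
  have h1 := (D.s1vals hp hq).2.1
  rw [st3 _ (D.s1T p hp q hq)] at h1
  have h2 : σ ^ 2 ≠ 0 := pow_ne_zero 2 D.hσ.ne'
  exact h2 (by simpa using h1.symm)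

end Dat

end Stek
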