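import Mathlib

/-!
Unique continuation from the boundary for harmonic functions in a half disc.
-/

open Set Filter Topology InnerProductSpace
open scoped ContDiff

namespace Stek

/-- A function holomorphic in a square with centre `z0`, continuous up to the boundary and zero on
the lower side vanishes at the centre. -/
theorem sq_zero {F : ℂ → ℂ} {z0 : ℂ} {d : ℝ} (hd : 0 < d) (hz0 : z0.im = d)
    (hdiff : ∀ w : ℂ, |w.re - z0.re| < d → |w.im - d| < d → DifferentiableAt ℂ F w)
    (hcont : ContinuousOn F {w : ℂ | |w.re - z0.re| ≤ d ∧ |w.im - d| ≤ d})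
    (hzero : ∀ w : ℂ, |w.re - z0.re| ≤ d → w.im = 0 → F w = 0) : F z0 = 0 := by
  set K : Set ℂ := {w : ℂ | |w.re - z0.re| ≤ d ∧ |w.im - d| ≤ d} with hK
  set A : Set ℂ := {w : ℂ | |w.re - z0.re| < d ∧ |w.im - d| < d} with hA
  have hAK : A ⊆ K := fun w hw => ⟨hw.1.le, hw.2.le⟩
  have hc1 : Continuous fun w : ℂ => |w.re - z0.re| := by fun_prop
  have hc2 : Continuous fun w : ℂ => |w.im - d| := by fun_prop
  have hAo : IsOpen A :=
    (isOpen_lt hc1 continuous_const).inter (isOpen_lt hc2 continuous_const)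
  have hKc : IsClosed K :=
    (isClosed_le hc1 continuous_const).inter (isClosed_le hc2 continuous_const)
  have hclA : closure A ⊆ K := closure_minimal hAK hKc
  have hAb : Bornology.IsBounded A := by
    rw [Metric.isBounded_iff_subset_closedBall z0]
    refine ⟨d + d, fun w hw => ?_⟩
    rw [Metric.mem_closedBall, dist_eq_norm]
    refine (Complex.norm_le_abs_re_add_abs_im _).trans ?_
    have h1 : |(w - z0).re| < d := by simpa using hw.1
    have h2 : |(w - z0).im| < d := by
      have := hw.2
      rw [Complex.sub_im, hz0]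
      exact this
    linarith
  -- the four rotations
  let r1 : ℂ → ℂ := fun w => z0 + Complex.I * (w - z0)
  let r2 : ℂ → ℂ := fun w => z0 - (w - z0)
  let r3 : ℂ → ℂ := fun w => z0 - Complex.I * (w - z0)
  have e1r : ∀ w, (r1 w).re - z0.re = -(w.im - d) := by
    intro w
    simp [r1, hz0]
  have e1i : ∀ w, (r1 w).im - d = w.re - z0.re := by
    intro w
    simp [r1, hz0]
  have e2r : ∀ w, (r2 w).re - z0.re = -(w.re - z0.re) := by
    intro w
    simp [r2]
  have e2i : ∀ w, (r2 w).im - d = -(w.im - d) := by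
    intro w
    simp [r2, hz0]
  have e3r : ∀ w, (r3 w).re - z0.re = w.im - d := by
    intro w
    simp [r3, hz0]
  have e3i : ∀ w, (r3 w).im - d = -(w.re - z0.re) := by
    intro w
    simp [r3, hz0]
  have k1 : ∀ w ∈ K, r1 w ∈ K := by
    intro w hw
    refine ⟨?_, ?_⟩
    · rw [e1r, abs_neg]; exact hw.2
    · rw [e1i]; exact hw.1
  have k2 : ∀ w ∈ K, r2 w ∈ K := by
    intro w hw
    refine ⟨?_, ?_⟩
    · rw [e2r, abs_neg]; exact hw.1
    · rw [e2i, abs_neg]; exact hw.2
  have k3 : ∀ w ∈ K, r3 w ∈ K := by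
    intro w hw
    refine ⟨?_, ?_⟩
    · rw [e3r]; exact hw.2
    · rw [e3i, abs_neg]; exact hw.1
  have a1 : ∀ w ∈ A, r1 w ∈ A := by
    intro w hw
    refine ⟨?_, ?_⟩
    · rw [e1r, abs_neg]; exact hw.2
    · rw [e1i]; exact hw.1
  have a2 : ∀ w ∈ A, r2 w ∈ A := by
    intro w hw
    refine ⟨?_, ?_⟩
    · rw [e2r, abs_neg]; exact hw.1
    · rw [e2i, abs_neg]; exact hw.2
  have a3 : ∀ w ∈ A, r3 w ∈ A := by
    intro w hw
    refine ⟨?_, ?_⟩
    · rw [e3r]; exact hw.2
    · rw [e3i, abs_neg]; exact hw.1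
  let P : ℂ → ℂ := fun w => F w * F (r1 w) * F (r2 w) * F (r3 w)
  have hFA : ∀ w ∈ A, DifferentiableAt ℂ F w := fun w hw => hdiff w hw.1 hw.2
  have hPd : DiffContOnCl ℂ P A := by
    constructor
    · intro w hw
      apply DifferentiableAt.differentiableWithinAt
      have d0 := hFA w hw
      have d1 : DifferentiableAt ℂ (fun w => F (r1 w)) w :=
        (hFA _ (a1 w hw)).comp w (by fun_prop)
      have d2 : DifferentiableAt ℂ (fun w => F (r2 w)) w :=
        (hFA _ (a2 w hw)).comp w (by fun_prop)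
      have d3 : DifferentiableAt ℂ (fun w => F (r3 w)) w :=
        (hFA _ (a3 w hw)).comp w (by fun_prop)
      exact ((d0.mul d1).mul d2).mul d3
    · have c0 : ContinuousOn F (closure A) := hcont.mono hclA
      have c1 : ContinuousOn (fun w => F (r1 w)) (closure A) :=
        hcont.comp (by fun_prop) (fun w hw => k1 w (hclA hw))
      have c2 : ContinuousOn (fun w => F (r2 w)) (closure A) :=
        hcont.comp (by fun_prop) (fun w hw => k2 w (hclA hw))
      have c3 : ContinuousOn (fun w => F (r3 w)) (closure A) :=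
        hcont.comp (by fun_prop) (fun w hw => k3 w (hclA hw))
      exact ((c0.mul c1).mul c2).mul c3
  have hPz : ∀ w ∈ frontier A, ‖P w‖ ≤ 0 := by
    intro w hw
    rw [hAo.frontier_eq] at hw
    have hwK : w ∈ K := hclA hw.1
    have hz : ∀ w ∈ K, w.im - d = -d → F w = 0 := by
      intro w hw h
      exact hzero w hw.1 (by linarith)
    have hP : P w = 0 := by
      by_cases h1 : |w.re - z0.re| < d
      · have h2 : ¬ |w.im - d| < d := fun h2 => hw.2 ⟨h1, h2⟩
        have h3 : |w.im - d| = d := le_antisymm hwK.2 (not_lt.mp h2)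
        rcases (abs_eq hd.le).mp h3 with h4 | h4
        · have : F (r2 w) = 0 := hz _ (k2 w hwK) (by rw [e2i, h4])
          simp [P, this]
        · have : F w = 0 := hz w hwK h4
          simp [P, this]
      · have h3 : |w.re - z0.re| = d := le_antisymm hwK.1 (not_lt.mp h1)
        rcases (abs_eq hd.le).mp h3 with h4 | h4
        · have : F (r3 w) = 0 := hz _ (k3 w hwK) (by rw [e3i, h4])
          simp [P, this]
        · have : F (r1 w) = 0 := hz _ (k1 w hwK) (by rw [e1i, h4])
          simp [P, this]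
    rw [hP, norm_zero]
  have hz0A : z0 ∈ closure A := by
    apply subset_closure
    refine ⟨?_, ?_⟩
    · simpa using hd
    · rw [hz0]
      simpa using hd
  have h1 := Complex.norm_le_of_forall_mem_frontier_norm_le hAb hPd hPz hz0A
  have h2 : P z0 = F z0 * F z0 * F z0 * F z0 := by
    simp [P, r1, r2, r3]
  have h3 : P z0 = 0 := norm_le_zero_iff.mp h1
  rw [h2] at h3
  simpa using h3

/-- A harmonic function in a half disc, smooth up to the diameter, whose gradient vanishes on the
diameter, is constant near the centre. -/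
theorem uc_local {h : ℂ → ℝ} {x0 : ℝ} {R : ℝ} (hR : 0 < R)
    (hsm : ContDiffOn ℝ ∞ h (Metric.ball (x0 : ℂ) R ∩ {z | 0 ≤ z.im}))
    (hharm : ∀ z ∈ Metric.ball (x0 : ℂ) R, 0 < z.im → HarmonicAt h z)
    (h1 : ∀ z ∈ Metric.ball (x0 : ℂ) R, z.im = 0 →
      fderivWithin ℝ h (Metric.ball (x0 : ℂ) R ∩ {z | 0 ≤ z.im}) z 1 = 0)
    (h2 : ∀ z ∈ Metric.ball (x0 : ℂ) R, z.im = 0 →
      fderivWithin ℝ h (Metric.ball (x0 : ℂ) R ∩ {z | 0 ≤ z.im}) z Complex.I = 0) :
    ∀ z ∈ Metric.ball (x0 : ℂ) (R / 4), 0 ≤ z.im → h z = h x0 := by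
  set B : Set ℂ := Metric.ball (x0 : ℂ) R ∩ {z | 0 ≤ z.im} with hB
  have hBu : UniqueDiffOn ℝ B := by
    rw [hB, inter_comm]
    apply UniqueDiffOn.inter _ Metric.isOpen_ball
    apply uniqueDiffOn_convex
    · exact convex_halfSpace_im_ge 0
    · refine ⟨Complex.I, ?_⟩
      rw [mem_interior_iff_mem_nhds]
      have h1 : {z : ℂ | 0 < z.im} ∈ 𝓝 Complex.I :=
        (isOpen_lt continuous_const Complex.continuous_im).mem_nhds (by simp)
      filter_upwards [h1] with w h2
      exact le_of_lt h2
  have hnh : ∀ z ∈ Metric.ball (x0 : ℂ) R, 0 < z.im → B ∈ 𝓝 z := by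
    intro z hz hi
    have h1 : {z : ℂ | 0 < z.im} ∈ 𝓝 z :=
      (isOpen_lt continuous_const Complex.continuous_im).mem_nhds hi
    filter_upwards [Metric.isOpen_ball.mem_nhds hz, h1] with w h2 h3
    exact ⟨h2, le_of_lt h3⟩
  let F : ℂ → ℂ := fun z => (fderivWithin ℝ h B z 1 : ℂ) - Complex.I * (fderivWithin ℝ h B z Complex.I : ℂ)
  have hcf : ContinuousOn (fun z => fderivWithin ℝ h B z) B :=
    hsm.continuousOn_fderivWithin hBu (by simp)
  have hFc : ContinuousOn F B := by
    have c1 : ContinuousOn (fun z => (fderivWithin ℝ h B z 1 : ℂ)) B :=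
      Complex.continuous_ofReal.comp_continuousOn (hcf.clm_apply continuousOn_const)
    have c2 : ContinuousOn (fun z => (fderivWithin ℝ h B z Complex.I : ℂ)) B :=
      Complex.continuous_ofReal.comp_continuousOn (hcf.clm_apply continuousOn_const)
    exact c1.sub (continuousOn_const.mul c2)
  have hFd : ∀ z ∈ Metric.ball (x0 : ℂ) R, 0 < z.im → DifferentiableAt ℂ F z := by
    intro z hz hi
    refine (_root_.HarmonicAt.differentiableAt_complex_partial
      (hharm z hz hi)).congr_of_eventuallyEq ?_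
    have h3 : ∀ᶠ w in 𝓝 z, w ∈ Metric.ball (x0 : ℂ) R ∧ 0 < w.im := by
      apply Filter.Eventually.and
      · exact Metric.isOpen_ball.mem_nhds hz
      · exact (isOpen_lt continuous_const Complex.continuous_im).mem_nhds hi
    filter_upwards [h3] with w hw
    simp only [F]
    rw [fderivWithin_of_mem_nhds (hnh w hw.1 hw.2)]
  have hF0 : ∀ z ∈ Metric.ball (x0 : ℂ) (R / 4), 0 ≤ z.im → F z = 0 := by
    intro z hz hi
    rcases eq_or_lt_of_le hi with h0 | h0
    · have hzR : z ∈ Metric.ball (x0 : ℂ) R := Metric.ball_subset_ball (by linarith) hz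
      simp only [F]
      rw [h1 z hzR h0.symm, h2 z hzR h0.symm]
      simp
    · have hdist : ‖z - x0‖ < R / 4 := by rwa [← dist_eq_norm]
      have him : z.im ≤ ‖z - x0‖ := by
        have := Complex.abs_im_le_norm (z - x0)
        simp only [Complex.sub_im, Complex.ofReal_im, sub_zero] at this
        exact (le_abs_self _).trans this
      have hin : ∀ w : ℂ, |w.re - z.re| ≤ z.im → |w.im - z.im| ≤ z.im →
          w ∈ Metric.ball (x0 : ℂ) R ∧ 0 ≤ w.im := by
        intro w hw1 hw2
        constructor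
        · rw [Metric.mem_ball, dist_eq_norm]
          have e1 : ‖w - z‖ ≤ z.im + z.im := by
            refine (Complex.norm_le_abs_re_add_abs_im _).trans ?_
            simp only [Complex.sub_re, Complex.sub_im]
            linarith
          have e2 : ‖w - x0‖ ≤ ‖w - z‖ + ‖z - x0‖ := by
            have : w - x0 = (w - z) + (z - x0) := by ring
            rw [this]
            exact norm_add_le _ _
          linarith
        · have := (abs_le.mp hw2).1
          linarith
      apply sq_zero h0 rfl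
      · intro w hw1 hw2
        have h3 := hin w hw1.le hw2.le
        have h4 := (abs_lt.mp hw2).1
        exact hFd w h3.1 (by linarith)
      · apply hFc.mono
        intro w hw
        exact hin w hw.1 hw.2
      · intro w hw1 hw2
        have h3 := hin w hw1 (by rw [hw2, zero_sub, abs_neg, abs_of_pos h0])
        simp only [F]
        rw [h1 w h3.1 hw2, h2 w h3.1 hw2]
        simp
  set B' : Set ℂ := Metric.ball (x0 : ℂ) (R / 4) ∩ {z | 0 ≤ z.im} with hB'
  have hBB' : B ∩ Metric.ball (x0 : ℂ) (R / 4) = B' := by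
    ext w
    constructor
    · rintro ⟨⟨-, h4⟩, h5⟩
      exact ⟨h5, h4⟩
    · rintro ⟨h4, h5⟩
      exact ⟨⟨Metric.ball_subset_ball (by linarith) h4, h5⟩, h4⟩
  have hsub : B' ⊆ B := by
    rw [← hBB']
    exact inter_subset_left
  have hconv : Convex ℝ B' := (convex_ball _ _).inter (convex_halfSpace_im_ge 0)
  have hd : DifferentiableOn ℝ h B' := (hsm.differentiableOn (by simp)).mono hsub
  have hf : ∀ z ∈ B', fderivWithin ℝ h B' z = 0 := by
    intro z hz
    have e1 : fderivWithin ℝ h B' z = fderivWithin ℝ h B z := by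
      rw [← hBB']
      exact fderivWithin_inter (Metric.isOpen_ball.mem_nhds hz.1)
    have e2 := hF0 z hz.1 hz.2
    simp only [F] at e2
    have e3 := congrArg Complex.re e2
    have e4 := congrArg Complex.im e2
    simp at e3 e4
    rw [e1]
    ext v
    have e5 : v = v.re • (1 : ℂ) + v.im • Complex.I := by simp
    rw [e5, map_add, map_smul, map_smul, e3, e4]
    simp
  intro z hz hi
  exact hconv.is_const_of_fderivWithin_eq_zero hd hf ⟨hz, hi⟩
    ⟨Metric.mem_ball_self (by linarith), by simp⟩

end Stek
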