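import Pool.Agent.H.MP_fc2485_gt.Defs
import Pool.Agent.H.MP_fc2485_gt.UC

/-!
Unique continuation of Steklov eigenfunctions from a boundary arc.
-/

open Set Filter Topology InnerProductSpace
open scoped ContDiff

namespace Stek

namespace Surface

variable {S : Type*} [TopologicalSpace S]

theorem mem_target_real (φ : Chart S) {x : ℝ} (hx : (x : ℂ) ∈ φ.map.target) :
    ∃ R : ℝ, 0 < R ∧ Metric.ball (x : ℂ) R ⊆ φ.dom := by
  rw [φ.target_eq] at hx
  exact Metric.isOpen_iff.mp φ.dom_open _ hx.1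

theorem real_mem (φ : Chart S) {x R : ℝ} (hR : Metric.ball (x : ℂ) R ⊆ φ.dom) {t : ℝ}
    (ht : |t - x| < R) : (t : ℂ) ∈ φ.map.target := by
  rw [φ.target_eq]
  refine ⟨hR ?_, by simp⟩
  rw [Metric.mem_ball, dist_eq_norm, ← Complex.ofReal_sub, Complex.norm_real]
  exact ht

theorem real_mem_nhds (φ : Chart S) {x : ℝ} (hx : (x : ℂ) ∈ φ.map.target) :
    ∀ᶠ t : ℝ in 𝓝 x, (t : ℂ) ∈ φ.map.target := by
  obtain ⟨R, hR, hsub⟩ := mem_target_real φ hx
  filter_upwards [Metric.ball_mem_nhds x hR] with t ht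
  exact real_mem φ hsub (by rwa [Metric.mem_ball, Real.dist_eq] at ht)

/-- the derivative along the boundary -/
theorem hasDerivAt_real {M : Surface S} {σ : ℝ} {f : S → ℝ} (h : M.IsSteklov σ f) {φ : Chart S}
    (hφ : φ ∈ M.charts) {x : ℝ} (hx : (x : ℂ) ∈ φ.map.target) :
    HasDerivAt (fun t : ℝ => loc φ f t) (dx φ f x) x := by
  have h1 := (diffAt h hφ hx).hasFDerivWithinAt
  have h2 : HasDerivAt (fun t : ℝ => (t : ℂ)) 1 x := Complex.ofRealCLM.hasDerivAt
  exact h1.comp_hasDerivAt x h2 (real_mem_nhds φ hx)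

/-- the restriction to the boundary is smooth -/
theorem contDiffOn_real {M : Surface S} {σ : ℝ} {f : S → ℝ} (h : M.IsSteklov σ f) {φ : Chart S}
    (hφ : φ ∈ M.charts) : ContDiffOn ℝ ∞ (fun t : ℝ => loc φ f t)
      {t : ℝ | (t : ℂ) ∈ φ.map.target} := by
  have h2 : ContDiff ℝ ∞ (fun t : ℝ => (t : ℂ)) := Complex.ofRealCLM.contDiff
  exact (h.smooth φ hφ).comp h2.contDiffOn (fun t ht => ht)

/-- an eigenfunction which vanishes on a boundary arc vanishes near a point of the arc -/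
theorem uc_near {M : Surface S} {σ : ℝ} {f : S → ℝ} (h : M.IsSteklov σ f) {φ : Chart S}
    (hφ : φ ∈ M.charts) {x0 : ℝ} (hx0 : (x0 : ℂ) ∈ φ.map.target)
    (hz : ∀ᶠ t : ℝ in 𝓝 x0, loc φ f t = 0) : ∀ᶠ y in 𝓝 (φ.map.symm x0), f y = 0 := by
  obtain ⟨R0, hR0, hsub0⟩ := mem_target_real φ hx0
  obtain ⟨δ, hδ, hz⟩ := Metric.eventually_nhds_iff.mp hz
  set R := min R0 δ with hRdef
  have hR : 0 < R := lt_min hR0 hδ
  have hsub : Metric.ball (x0 : ℂ) R ⊆ φ.dom :=
    (Metric.ball_subset_ball (min_le_left _ _)).trans hsub0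
  set B : Set ℂ := Metric.ball (x0 : ℂ) R ∩ {z | 0 ≤ z.im} with hB
  have hBt : B = φ.map.target ∩ Metric.ball (x0 : ℂ) R := by
    rw [φ.target_eq]
    ext w
    constructor
    · rintro ⟨h1, h2⟩
      exact ⟨⟨hsub h1, h2⟩, h1⟩
    · rintro ⟨⟨-, h2⟩, h3⟩
      exact ⟨h3, h2⟩
  have hBsub : B ⊆ φ.map.target := by
    rw [hBt]
    exact inter_subset_left
  have hfd : ∀ z ∈ Metric.ball (x0 : ℂ) R,
      fderivWithin ℝ (loc φ f) B z = fderivWithin ℝ (loc φ f) φ.map.target z := by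
    intro z hz
    rw [hBt]
    exact fderivWithin_inter (Metric.isOpen_ball.mem_nhds hz)
  have hreal : ∀ z ∈ Metric.ball (x0 : ℂ) R, z.im = 0 → ∃ t : ℝ, z = t ∧
      (t : ℂ) ∈ φ.map.target ∧ ∀ᶠ t' : ℝ in 𝓝 t, loc φ f t' = 0 := by
    intro z hzb hi
    refine ⟨z.re, ?_, ?_, ?_⟩
    · apply Complex.ext
      · simp
      · simpa using hi
    · have : ((z.re : ℝ) : ℂ) = z := by
        apply Complex.ext
        · simp
        · simpa using hi.symm
      rw [this]
      exact hBsub ⟨hzb, hi.ge⟩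
    · have h1 : |z.re - x0| < R := by
        rw [Metric.mem_ball, dist_eq_norm] at hzb
        have := Complex.abs_re_le_norm (z - x0)
        simp only [Complex.sub_re, Complex.ofReal_re] at this
        linarith
      have h2 : ∀ᶠ t' : ℝ in 𝓝 z.re, |t' - x0| < R := by
        have hc : ContinuousAt (fun t' : ℝ => |t' - x0|) z.re := by fun_prop
        exact hc.eventually_lt_const h1
      filter_upwards [h2] with t' ht'
      apply hz
      rw [Real.dist_eq]
      exact lt_of_lt_of_le ht' (min_le_right _ _)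
  have key := uc_local (h := loc φ f) (x0 := x0) hR
    ((h.smooth φ hφ).mono hBsub)
    (fun z hz hi => h.harmonic φ hφ z (hBsub ⟨hz, hi.le⟩) hi)
    (by
      intro z hzb hi
      rw [hfd z hzb]
      obtain ⟨t, rfl, ht, hev⟩ := hreal z hzb hi
      have h1 := hasDerivAt_real h hφ ht
      have h2 : HasDerivAt (fun t : ℝ => loc φ f t) 0 t :=
        (hasDerivAt_const t (0 : ℝ)).congr_of_eventuallyEq hev
      exact h1.unique h2)
    (by
      intro z hzb hi
      rw [hfd z hzb]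
      obtain ⟨t, rfl, ht, hev⟩ := hreal z hzb hi
      have h1 := h.normal φ hφ t ht (by simp)
      rw [hev.self_of_nhds, mul_zero, neg_eq_zero] at h1
      exact (mul_eq_zero.mp h1).resolve_left (inv_ne_zero (φ.ρ_pos _ ht).ne'))
  have hx00 : loc φ f x0 = 0 := hz (by simpa using hδ)
  rw [hx00] at key
  have hsrc : φ.map.symm x0 ∈ φ.map.source := φ.map.map_target hx0
  have hO : ∀ᶠ y in 𝓝 (φ.map.symm x0), y ∈ φ.map.source ∧
      φ.map y ∈ Metric.ball (x0 : ℂ) (R / 4) := by
    have h1 : ContinuousAt φ.map (φ.map.symm x0) :=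
      φ.cont.continuousAt (φ.source_open.mem_nhds hsrc)
    have h2 : Metric.ball (x0 : ℂ) (R / 4) ∈ 𝓝 (φ.map (φ.map.symm x0)) := by
      rw [φ.map.right_inv hx0]
      exact Metric.ball_mem_nhds _ (by linarith)
    exact (φ.source_open.eventually_mem hsrc).and (h1 h2)
  filter_upwards [hO] with y hy
  have h1 : φ.map y ∈ φ.map.target := φ.map.map_source hy.1
  have h2 : 0 ≤ (φ.map y).im := by
    rw [φ.target_eq] at h1
    exact h1.2
  have h3 := key (φ.map y) hy.2 h2
  unfold loc at h3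
  rwa [φ.map.left_inv hy.1] at h3

/-- an eigenfunction which vanishes near a point vanishes -/
theorem uc_global [ConnectedSpace S] {M : Surface S} {σ : ℝ} {f : S → ℝ} (h : M.IsSteklov σ f)
    {x : S} (hx : ∀ᶠ y in 𝓝 x, f y = 0) : f = 0 := by
  set A : Set S := {x | ∀ᶠ y in 𝓝 x, f y = 0} with hA
  have hAo : IsOpen A := isOpen_setOfPred_eventually_nhds
  have hAc : IsClosed A := by
    rw [← closure_subset_iff_isClosed]
    intro x hx
    obtain ⟨φ, hφ, hxs⟩ := M.cover x
    have hzt : φ.map x ∈ φ.map.target := φ.map.map_source hxs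
    obtain ⟨r, hr, hsub⟩ : ∃ r : ℝ, 0 < r ∧ Metric.ball (φ.map x) r ⊆ φ.dom := by
      rw [φ.target_eq] at hzt
      exact Metric.isOpen_iff.mp φ.dom_open _ hzt.1
    set B : Set ℂ := Metric.ball (φ.map x) r ∩ {z | 0 < z.im} with hB
    have hBo : IsOpen B := Metric.isOpen_ball.inter
      (isOpen_lt continuous_const Complex.continuous_im)
    have hBt : B ⊆ φ.map.target := by
      rw [φ.target_eq]
      intro w hw
      have hw2 : 0 < w.im := hw.2
      exact ⟨hsub hw.1, hw2.le⟩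
    have hBc : IsPreconnected B :=
      ((convex_ball _ _).inter (convex_halfSpace_im_gt 0)).isPreconnected
    have hBa : AnalyticOnNhd ℝ (loc φ f) B := fun w hw =>
      _root_.HarmonicAt.analyticAt (h.harmonic φ hφ w (hBt hw) hw.2)
    have hO : ∀ᶠ y in 𝓝 x, y ∈ φ.map.source ∧ φ.map y ∈ Metric.ball (φ.map x) r := by
      have h1 : ContinuousAt φ.map x := φ.cont.continuousAt (φ.source_open.mem_nhds hxs)
      exact (φ.source_open.eventually_mem hxs).and (h1 (Metric.ball_mem_nhds _ hr))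
    obtain ⟨y, hyO, hyA⟩ := mem_closure_iff_nhds.mp hx _ hO
    -- the function vanishes near a point of the open half disc
    have hyt : φ.map y ∈ φ.map.target := φ.map.map_source hyO.1
    have hcs : ContinuousWithinAt φ.map.symm φ.map.target (φ.map y) := φ.cont_symm _ hyt
    have hev : ∀ᶠ w in 𝓝[φ.map.target] (φ.map y), loc φ f w = 0 := by
      have : Tendsto φ.map.symm (𝓝[φ.map.target] (φ.map y)) (𝓝 y) := by
        have := hcs.tendsto
        rwa [φ.map.left_inv hyO.1] at this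
      exact this.eventually hyA
    rw [eventually_nhdsWithin_iff] at hev
    obtain ⟨N, hN1, hN2, hN3⟩ := mem_nhds_iff.mp
      (hev.and (Metric.isOpen_ball.eventually_mem hyO.2))
    have him : 0 ≤ (φ.map y).im := by
      rw [φ.target_eq] at hyt
      exact hyt.2
    have hpath : ∀ w : ℂ, Tendsto (fun t : ℝ => w + t * Complex.I) (𝓝[>] 0) (𝓝 w) := by
      intro w
      have hc : ContinuousAt (fun t : ℝ => w + t * Complex.I) 0 := by fun_prop
      have := hc.tendsto
      simp only [Complex.ofReal_zero, zero_mul, add_zero] at this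
      exact this.mono_left nhdsWithin_le_nhds
    obtain ⟨t, ht1, ht2⟩ : ∃ t : ℝ, 0 < t ∧ φ.map y + t * Complex.I ∈ N := by
      have h1 := (hpath (φ.map y)).eventually (hN2.mem_nhds hN3)
      obtain ⟨t, ht⟩ := (h1.and self_mem_nhdsWithin).exists
      exact ⟨t, ht.2, ht.1⟩
    have hpos : 0 < (φ.map y + t * Complex.I).im := by
      simp
      linarith
    have hmem : φ.map y + t * Complex.I ∈ B := ⟨(hN1 ht2).2, hpos⟩
    have hzero : loc φ f =ᶠ[𝓝 (φ.map y + t * Complex.I)] 0 := by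
      filter_upwards [hN2.mem_nhds ht2, hBo.mem_nhds hmem] with w hw1 hw2
      exact (hN1 hw1).1 (hBt hw2)
    have hBz := hBa.eqOn_zero_of_preconnected_of_eventuallyEq_zero hBc hmem hzero
    -- the function vanishes in the closed half disc
    have hall : ∀ w ∈ Metric.ball (φ.map x) r, 0 ≤ w.im → loc φ f w = 0 := by
      intro w hw hi
      have hwt : w ∈ φ.map.target := by
        rw [φ.target_eq]
        exact ⟨hsub hw, hi⟩
      have hcw : ContinuousWithinAt (loc φ f) φ.map.target w :=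
        (h.smooth φ hφ).continuousOn w hwt
      have hp : ∀ᶠ t : ℝ in 𝓝[>] 0, w + t * Complex.I ∈ B := by
        have h1 := (hpath w).eventually (Metric.isOpen_ball.mem_nhds hw)
        filter_upwards [h1, self_mem_nhdsWithin] with t ht1 ht2
        refine ⟨ht1, ?_⟩
        have : 0 < t := ht2
        simp
        linarith
      have hlim : Tendsto (fun t : ℝ => loc φ f (w + t * Complex.I)) (𝓝[>] 0)
          (𝓝 (loc φ f w)) := by
        apply hcw.tendsto.comp
        rw [tendsto_nhdsWithin_iff]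
        exact ⟨hpath w, hp.mono fun t ht => hBt ht⟩
      have hlim2 : Tendsto (fun t : ℝ => loc φ f (w + t * Complex.I)) (𝓝[>] 0) (𝓝 0) := by
        apply tendsto_const_nhds.congr'
        filter_upwards [hp] with t ht
        exact (hBz ht).symm
      exact tendsto_nhds_unique hlim hlim2
    change ∀ᶠ y in 𝓝 x, f y = 0
    filter_upwards [hO] with y hy
    have h1 : φ.map y ∈ φ.map.target := φ.map.map_source hy.1
    have h2 : 0 ≤ (φ.map y).im := by
      rw [φ.target_eq] at h1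
      exact h1.2
    have h3 := hall (φ.map y) hy.2 h2
    unfold loc at h3
    rwa [φ.map.left_inv hy.1] at h3
  have hAu : A = univ := IsClopen.eq_univ ⟨hAc, hAo⟩ ⟨x, hx⟩
  funext y
  have : y ∈ A := by
    rw [hAu]
    trivial
  have h2 : ∀ᶠ z in 𝓝 y, f z = 0 := this
  exact h2.self_of_nhds

/-- the boundary is parametrised by arclength near each of its points -/
theorem exists_arc (φ : Chart S) {x0 : ℝ} (hx0 : (x0 : ℂ) ∈ φ.map.target) {δ : ℝ} (hδ : 0 < δ) :
    ∃ (X : ℝ → ℝ) (η : ℝ), 0 < η ∧ X 0 = x0 ∧ ∀ s ∈ Ioo (-η) η, |X s - x0| < δ ∧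
      ((X s : ℝ) : ℂ) ∈ φ.map.target ∧ HasDerivAt X ((φ.ρ (X s))⁻¹) s := by
  obtain ⟨R, hR, hsub⟩ := mem_target_real φ hx0
  have hnb : {t : ℝ | (t : ℂ) ∈ φ.map.target} ∈ 𝓝 x0 := real_mem_nhds φ hx0
  have hcd : ContDiffAt ℝ 1 (fun t : ℝ => (φ.ρ t)⁻¹) x0 := by
    have h2 : ContDiff ℝ ∞ (fun t : ℝ => (t : ℂ)) := Complex.ofRealCLM.contDiff
    have h3 : ContDiffOn ℝ ∞ (fun t : ℝ => φ.ρ t) {t : ℝ | (t : ℂ) ∈ φ.map.target} :=
      φ.ρ_smooth.comp h2.contDiffOn (fun t ht => ht)
    have h4 : ContDiffAt ℝ ∞ (fun t : ℝ => φ.ρ t) x0 := h3.contDiffAt hnb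
    exact (h4.inv (φ.ρ_pos _ hx0).ne').of_le (by simp)
  obtain ⟨X, hX0, ε, hε, hX⟩ :=
    hcd.exists_forall_mem_closedBall_exists_eq_forall_mem_Ioo_hasDerivAt₀ 0
  simp only [zero_sub, zero_add] at hX
  have hc : ContinuousAt X 0 := (hX 0 ⟨by linarith, hε⟩).continuousAt
  have hev : ∀ᶠ s in 𝓝 (0 : ℝ), |X s - x0| < min δ R := by
    have h1 : ContinuousAt (fun s => |X s - x0|) 0 := (hc.sub continuousAt_const).abs
    apply h1.eventually_lt_const
    simp only
    rw [hX0, sub_self, abs_zero]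
    exact lt_min hδ hR
  obtain ⟨η, hη, h⟩ := Metric.eventually_nhds_iff.mp hev
  refine ⟨X, min η ε, lt_min hη hε, hX0, ?_⟩
  intro s hs
  have hs1 : |s| < min η ε := abs_lt.mpr hs
  have h1 := h (y := s) (by
    rw [Real.dist_eq, sub_zero]
    exact lt_of_lt_of_le hs1 (min_le_left _ _))
  have hs2 := abs_lt.mp (lt_of_lt_of_le hs1 (min_le_right _ _))
  refine ⟨lt_of_lt_of_le h1 (min_le_left _ _), ?_, hX s hs2⟩
  exact real_mem φ hsub (lt_of_lt_of_le h1 (min_le_right _ _))

end Surface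

end Stek
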