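import Pool.Agent.H.MP_fc2485_gt.Equi
import Pool.Agent.H.MP_fc2485_gt.Geo

/-!
The Steklov eigenspaces of a compact surface are finite dimensional.
-/

open Set Filter Topology InnerProductSpace
open scoped ContDiff

namespace Stek

/-- a real functional is bounded by its complex gradient -/
theorem clm_bound (L : ℂ →L[ℝ] ℝ) (v : ℂ) :
    |L v| ≤ ‖((L 1 : ℝ) : ℂ) - Complex.I * ((L Complex.I : ℝ) : ℂ)‖ * ‖v‖ := by
  have h1 : L v = v.re * L 1 + v.im * L Complex.I := by
    have h2 : v = v.re • (1 : ℂ) + v.im • Complex.I := by simp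
    conv_lhs => rw [h2, map_add, map_smul, map_smul]
    rfl
  have h3 : L v = ((((L 1 : ℝ) : ℂ) - Complex.I * ((L Complex.I : ℝ) : ℂ)) * v).re := by
    rw [h1]
    simp
    ring
  rw [h3, ← norm_mul]
  exact Complex.abs_re_le_norm _

/-- equicontinuity inside -/
theorem int_equi {h : ℂ → ℝ} {z0 : ℂ} {r : ℝ} (hr : 0 < r)
    (hh : ∀ w ∈ Metric.ball z0 r, HarmonicAt h w) (hb : ∀ w ∈ Metric.ball z0 r, |h w| ≤ 1)
    {z : ℂ} (hz : z ∈ Metric.ball z0 (r / 2)) : |h z - h z0| ≤ 36 / r * ‖z - z0‖ := by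
  have hd : ∀ w ∈ Metric.ball z0 (r / 2), ‖fderiv ℝ h w‖ ≤ 36 / r := by
    intro w hw
    apply ContinuousLinearMap.opNorm_le_bound _ (by positivity)
    intro v
    rw [Real.norm_eq_abs]
    refine (clm_bound _ v).trans ?_
    apply mul_le_mul_of_nonneg_right _ (norm_nonneg v)
    have hsub : Metric.ball w (r / 2) ⊆ Metric.ball z0 r := by
      apply Metric.ball_subset_ball'
      rw [Metric.mem_ball] at hw
      linarith
    have h1 := grad_bound (h := h) (z := w) (y := r / 2) (by linarith)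
      (fun x hx => hh x (hsub hx)) (fun x hx => hb x (hsub hx))
    refine h1.trans (le_of_eq ?_)
    field_simp
    norm_num
  have hz0 : z0 ∈ Metric.ball z0 (r / 2) := Metric.mem_ball_self (by linarith)
  have h2 := Convex.norm_image_sub_le_of_norm_fderiv_le (𝕜 := ℝ) (f := h) (C := 36 / r)
    (fun w hw => ((hh w (Metric.ball_subset_ball (by linarith) hw)).1).differentiableAt (by simp))
    hd (convex_ball z0 (r / 2)) hz0 hz
  rwa [Real.norm_eq_abs] at h2

namespace HData

variable {x0 R B : ℝ} {h : ℂ → ℝ}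

/-- vertical paths -/
theorem vert (H : HData x0 R B h) {z : ℂ} (hi : 0 ≤ z.im) {η : ℝ} (hη : 0 ≤ η)
    (hz : ‖z - x0‖ + η ≤ R / 4) :
    |h (z + η * Complex.I) - h z| ≤ (B + 144 / R) * η := by
  have hR := H.hR
  have hm : ∀ t ∈ Icc (0 : ℝ) η, ‖z + t * Complex.I - x0‖ ≤ R / 4 ∧
      0 ≤ (z + t * Complex.I).im := by
    intro t ht
    constructor
    · have h1 : z + t * Complex.I - x0 = (z - x0) + t * Complex.I := by ring
      rw [h1]
      refine (norm_add_le _ _).trans ?_
      rw [norm_mul, Complex.norm_I, mul_one, Complex.norm_real, Real.norm_eq_abs,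
        abs_of_nonneg ht.1]
      linarith [ht.2]
    · simp
      linarith [ht.1]
  have hD : ∀ t ∈ Icc (0 : ℝ) η, z + t * Complex.I ∈ HD x0 R := by
    intro t ht
    obtain ⟨h1, h2⟩ := hm t ht
    refine ⟨?_, h2⟩
    rw [Metric.mem_ball, dist_eq_norm]
    linarith
  have hder : ∀ t ∈ Icc (0 : ℝ) η, HasDerivWithinAt (fun t : ℝ => h (z + t * Complex.I))
      (fderivWithin ℝ h (HD x0 R) (z + t * Complex.I) Complex.I) (Icc 0 η) t := by
    intro t ht
    have h1 : HasFDerivWithinAt h (fderivWithin ℝ h (HD x0 R) (z + t * Complex.I)) (HD x0 R)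
        (z + t * Complex.I) :=
      (H.smooth.differentiableOn (by simp) _ (hD t ht)).hasFDerivWithinAt
    have h2 : HasDerivWithinAt (fun t : ℝ => z + t * Complex.I) Complex.I (Icc 0 η) t := by
      have h3 : HasDerivAt (fun t : ℝ => (t : ℂ)) 1 t := Complex.ofRealCLM.hasDerivAt
      have h4 := (h3.mul_const Complex.I).const_add z
      rw [one_mul] at h4
      exact h4.hasDerivWithinAt
    exact h1.comp_hasDerivWithinAt t h2 (fun s hs => hD s hs)
  have h1 := norm_image_sub_le_of_norm_deriv_le_segment' hder (C := B + 144 / R) (by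
    intro t ht
    obtain ⟨h1, h2⟩ := hm t ⟨ht.1, ht.2.le⟩
    rw [Real.norm_eq_abs]
    exact H.normal_le h1 h2) η ⟨hη, le_rfl⟩
  simpa using h1

/-- paths parallel to the boundary -/
theorem hor (H : HData x0 R B h) {z : ℂ} (hi : 0 ≤ z.im) {η : ℝ} (hη : 0 < η)
    (hz : ‖z - x0‖ + η ≤ R / 4) :
    |h (z + η * Complex.I) - h (x0 + η * Complex.I)| ≤ 18 / η * ‖z - x0‖ := by
  have hR := H.hR
  have hm : ∀ t ∈ Icc (0 : ℝ) 1, ‖(x0 : ℂ) + η * Complex.I + t * (z - x0) - x0‖ ≤ R / 4 ∧
      η ≤ ((x0 : ℂ) + η * Complex.I + t * (z - x0)).im := by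
    intro t ht
    constructor
    · have h1 : (x0 : ℂ) + η * Complex.I + t * (z - x0) - x0 = t * (z - x0) + η * Complex.I := by
        ring
      rw [h1]
      refine (norm_add_le _ _).trans ?_
      rw [norm_mul, norm_mul, Complex.norm_I, mul_one, Complex.norm_real, Complex.norm_real,
        Real.norm_eq_abs, Real.norm_eq_abs, abs_of_nonneg ht.1, abs_of_pos hη]
      have : t * ‖z - x0‖ ≤ 1 * ‖z - x0‖ := mul_le_mul_of_nonneg_right ht.2 (norm_nonneg _)
      linarith
    · have h1 : ((x0 : ℂ) + η * Complex.I + t * (z - x0)).im = η + t * z.im := by simp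
      rw [h1]
      have := mul_nonneg ht.1 hi
      linarith
  have hD : ∀ t ∈ Icc (0 : ℝ) 1, (x0 : ℂ) + η * Complex.I + t * (z - x0) ∈ HD x0 R := by
    intro t ht
    obtain ⟨h1, h2⟩ := hm t ht
    refine ⟨?_, by
      have h3 : (0 : ℝ) ≤ ((x0 : ℂ) + η * Complex.I + t * (z - x0)).im := by linarith
      exact h3⟩
    rw [Metric.mem_ball, dist_eq_norm]
    linarith
  have hder : ∀ t ∈ Icc (0 : ℝ) 1, HasDerivWithinAt
      (fun t : ℝ => h ((x0 : ℂ) + η * Complex.I + t * (z - x0)))
      (fderivWithin ℝ h (HD x0 R) ((x0 : ℂ) + η * Complex.I + t * (z - x0)) (z - x0))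
      (Icc 0 1) t := by
    intro t ht
    have h1 : HasFDerivWithinAt h
        (fderivWithin ℝ h (HD x0 R) ((x0 : ℂ) + η * Complex.I + t * (z - x0))) (HD x0 R)
        ((x0 : ℂ) + η * Complex.I + t * (z - x0)) :=
      (H.smooth.differentiableOn (by simp) _ (hD t ht)).hasFDerivWithinAt
    have h2 : HasDerivWithinAt (fun t : ℝ => (x0 : ℂ) + η * Complex.I + t * (z - x0)) (z - x0)
        (Icc 0 1) t := by
      have h3 : HasDerivAt (fun t : ℝ => (t : ℂ)) 1 t := Complex.ofRealCLM.hasDerivAt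
      have h4 := (h3.mul_const (z - x0)).const_add ((x0 : ℂ) + η * Complex.I)
      rw [one_mul] at h4
      exact h4.hasDerivWithinAt
    exact h1.comp_hasDerivWithinAt t h2 (fun s hs => hD s hs)
  have h1 := norm_image_sub_le_of_norm_deriv_le_segment_01' hder (C := 18 / η * ‖z - x0‖) (by
    intro t ht
    obtain ⟨h1, h2⟩ := hm t ⟨ht.1, ht.2.le⟩
    rw [Real.norm_eq_abs]
    refine (clm_bound _ _).trans ?_
    apply mul_le_mul_of_nonneg_right _ (norm_nonneg _)
    have h3 := H.grad (z := (x0 : ℂ) + η * Complex.I + t * (z - x0)) (by linarith)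
      (lt_of_lt_of_le hη h2)
    refine h3.trans ?_
    exact div_le_div_of_nonneg_left (by norm_num) hη h2)
  rw [Real.norm_eq_abs] at h1
  have e1 : (x0 : ℂ) + η * Complex.I + ((1 : ℝ) : ℂ) * (z - x0) = z + η * Complex.I := by
    rw [Complex.ofReal_one]
    ring
  have e0 : (x0 : ℂ) + η * Complex.I + ((0 : ℝ) : ℂ) * (z - x0) = x0 + η * Complex.I := by
    rw [Complex.ofReal_zero]
    ring
  simp only [e1, e0] at h1
  exact h1

end HData

/-- equicontinuity at the boundary -/
theorem hd_equi {R B : ℝ} (hR : 0 < R) (hB : 0 ≤ B) {ε : ℝ} (hε : 0 < ε) :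
    ∃ δ > 0, ∀ (x0 : ℝ) (h : ℂ → ℝ), HData x0 R B h → ∀ z ∈ HD x0 δ, |h z - h x0| ≤ ε := by
  set K := B + 144 / R with hK
  have hK0 : 0 < K := by positivity
  set η := min (R / 8) (ε / (4 * K)) with hη
  have hη0 : 0 < η := lt_min (by linarith) (by positivity)
  have hη1 : η ≤ R / 8 := min_le_left _ _
  have hη2 : K * η ≤ ε / 4 := by
    have h1 : η ≤ ε / (4 * K) := min_le_right _ _
    have h2 : K * η ≤ K * (ε / (4 * K)) := mul_le_mul_of_nonneg_left h1 hK0.le
    have h3 : K * (ε / (4 * K)) = ε / 4 := by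
      field_simp
    linarith
  refine ⟨min (R / 8) (ε * η / 36), lt_min (by linarith) (by positivity), ?_⟩
  intro x0 h H z hz
  have hz1 : ‖z - x0‖ < min (R / 8) (ε * η / 36) := by
    have := hz.1
    rwa [Metric.mem_ball, dist_eq_norm] at this
  have hz2 : ‖z - x0‖ < R / 8 := lt_of_lt_of_le hz1 (min_le_left _ _)
  have hz3 : ‖z - x0‖ < ε * η / 36 := lt_of_lt_of_le hz1 (min_le_right _ _)
  have v1 := H.vert (z := z) hz.2 hη0.le (by linarith)
  have v2 := H.vert (z := (x0 : ℂ)) (by simp) hη0.le (by simp; linarith)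
  have v3 := H.hor (z := z) hz.2 hη0 (by linarith)
  have v4 : 18 / η * ‖z - x0‖ ≤ ε / 2 := by
    have h1 : 18 / η * ‖z - x0‖ ≤ 18 / η * (ε * η / 36) :=
      mul_le_mul_of_nonneg_left hz3.le (by positivity)
    have h2 : 18 / η * (ε * η / 36) = ε / 2 := by
      field_simp
      norm_num
    linarith
  rw [← hK] at v1 v2
  have a1 := abs_le.mp v1
  have a2 := abs_le.mp v2
  have a3 := abs_le.mp (v3.trans v4)
  rw [abs_le]
  constructor <;> linarith [a1.1, a1.2, a2.1, a2.2, a3.1, a3.2]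

namespace Surface

variable {S : Type*} [TopologicalSpace S]

/-- eigenfunctions are continuous -/
theorem continuous_of_steklov {M : Surface S} {σ : ℝ} {f : S → ℝ} (h : M.IsSteklov σ f) :
    Continuous f := by
  rw [continuous_iff_continuousAt]
  intro x
  obtain ⟨φ, hφ, hxs⟩ := M.cover x
  have h1 : ContinuousWithinAt (loc φ f) φ.map.target (φ.map x) :=
    (h.smooth φ hφ).continuousOn _ (φ.map.map_source hxs)
  have h2 : ContinuousAt φ.map x := φ.cont.continuousAt (φ.source_open.mem_nhds hxs)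
  have h3 : Tendsto φ.map (𝓝 x) (𝓝[φ.map.target] (φ.map x)) := by
    rw [tendsto_nhdsWithin_iff]
    refine ⟨h2, ?_⟩
    filter_upwards [φ.source_open.mem_nhds hxs] with y hy
    exact φ.map.map_source hy
  have h4 : Tendsto (fun y => loc φ f (φ.map y)) (𝓝 x) (𝓝 (loc φ f (φ.map x))) := h1.tendsto.comp h3
  have h5 : loc φ f (φ.map x) = f x := by
    unfold loc
    rw [φ.map.left_inv hxs]
  rw [h5] at h4
  refine h4.congr' ?_
  filter_upwards [φ.source_open.mem_nhds hxs] with y hy
  unfold loc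
  rw [φ.map.left_inv hy]

/-- bounded eigenfunctions are equicontinuous -/
theorem equi (M : Surface S) (σ : ℝ) (x : S) {ε : ℝ} (hε : 0 < ε) :
    ∀ᶠ y in 𝓝 x, ∀ f : S → ℝ, M.IsSteklov σ f → (∀ z, |f z| ≤ 1) → |f y - f x| ≤ ε := by
  obtain ⟨φ, hφ, hxs⟩ := M.cover x
  have hzt : φ.map x ∈ φ.map.target := φ.map.map_source hxs
  have hcx : ContinuousAt φ.map x := φ.cont.continuousAt (φ.source_open.mem_nhds hxs)
  have him : 0 ≤ (φ.map x).im := by
    have := hzt
    rw [φ.target_eq] at this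
    exact this.2
  rcases eq_or_lt_of_le him with h0 | h0
  · -- a boundary point
    set x0 : ℝ := (φ.map x).re with hx0
    have hx0p : (x0 : ℂ) = φ.map x := by
      apply Complex.ext
      · simp [hx0]
      · simpa using h0
    have hxt : (x0 : ℂ) ∈ φ.map.target := by
      rw [hx0p]
      exact hzt
    obtain ⟨R0, hR0, hsub0⟩ := mem_target_real φ hxt
    have hρ : ContinuousWithinAt φ.ρ φ.map.target (x0 : ℂ) := φ.ρ_smooth.continuousOn _ hxt
    have hρ2 : ∀ᶠ z in 𝓝[φ.map.target] (x0 : ℂ), φ.ρ z < φ.ρ x0 + 1 :=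
      hρ.eventually_lt_const (by linarith)
    rw [eventually_nhdsWithin_iff] at hρ2
    obtain ⟨R1, hR1, hρ3⟩ := Metric.eventually_nhds_iff.mp hρ2
    set R := min R0 R1 with hRdef
    have hR : 0 < R := lt_min hR0 hR1
    have hsub : Metric.ball (x0 : ℂ) R ⊆ φ.dom :=
      (Metric.ball_subset_ball (min_le_left _ _)).trans hsub0
    have hBt : HD x0 R = φ.map.target ∩ Metric.ball (x0 : ℂ) R := by
      rw [φ.target_eq]
      ext w
      constructor
      · rintro ⟨h1, h2⟩
        exact ⟨⟨hsub h1, h2⟩, h1⟩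
      · rintro ⟨⟨-, h2⟩, h3⟩
        exact ⟨h3, h2⟩
    have hBsub : HD x0 R ⊆ φ.map.target := by
      rw [hBt]
      exact inter_subset_left
    have hρ0 := φ.ρ_pos _ hxt
    set B := |σ| * (φ.ρ x0 + 1) with hB
    have hB0 : 0 ≤ B := mul_nonneg (abs_nonneg _) (by linarith)
    obtain ⟨δ, hδ, key⟩ := hd_equi hR hB0 hε
    have hev : ∀ᶠ y in 𝓝 x, y ∈ φ.map.source ∧ φ.map y ∈ Metric.ball (x0 : ℂ) δ := by
      refine (φ.source_open.eventually_mem hxs).and (hcx.eventually_mem ?_)
      rw [← hx0p]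
      exact Metric.ball_mem_nhds _ hδ
    filter_upwards [hev] with y hy f hf hfb
    have H : HData x0 R B (loc φ f) := by
      refine ⟨hR, (hf.smooth φ hφ).mono hBsub, ?_, ?_, ?_⟩
      · intro z hz hi
        exact hf.harmonic φ hφ z (hBsub hz) hi
      · intro z _
        exact hfb _
      · intro z hz hi
        have h1 : fderivWithin ℝ (loc φ f) (HD x0 R) z = fderivWithin ℝ (loc φ f) φ.map.target z := by
          rw [hBt]
          exact fderivWithin_inter (Metric.isOpen_ball.mem_nhds hz.1)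
        rw [h1]
        have hzt := hBsub hz
        have h2 := hf.normal φ hφ z hzt hi
        have h3 := φ.ρ_pos z hzt
        have h4 : fderivWithin ℝ (loc φ f) φ.map.target z Complex.I =
            -(φ.ρ z * (σ * loc φ f z)) := by
          rw [← h2]
          unfold dy
          field_simp
        rw [h4, abs_neg, abs_mul, abs_mul, abs_of_pos h3, hB]
        have h5 : φ.ρ z ≤ φ.ρ x0 + 1 := by
          refine (hρ3 (y := z) ?_ hzt).le
          exact lt_of_lt_of_le hz.1 (min_le_right _ _)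
        have h6 : |loc φ f z| ≤ 1 := hfb _
        have h7 : |σ| * |loc φ f z| ≤ |σ| * 1 := mul_le_mul_of_nonneg_left h6 (abs_nonneg _)
        calc φ.ρ z * (|σ| * |loc φ f z|) ≤ (φ.ρ x0 + 1) * (|σ| * 1) :=
              mul_le_mul h5 h7 (by positivity) (by linarith)
          _ = |σ| * (φ.ρ x0 + 1) := by ring
    have hy1 : φ.map y ∈ HD x0 δ := by
      refine ⟨hy.2, ?_⟩
      have := φ.map.map_source hy.1
      rw [φ.target_eq] at this
      exact this.2
    have h1 := key x0 (loc φ f) H (φ.map y) hy1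
    unfold loc at h1
    rwa [φ.map.left_inv hy.1, hx0p, φ.map.left_inv hxs] at h1
  · -- an interior point
    have hn := dom_nhds φ hzt h0
    have hn2 : {z : ℂ | 0 < z.im} ∈ 𝓝 (φ.map x) :=
      (isOpen_lt continuous_const Complex.continuous_im).mem_nhds h0
    obtain ⟨r, hr, hsub⟩ := Metric.mem_nhds_iff.mp (inter_mem hn hn2)
    set δ := min (r / 2) (ε * r / 36) with hδ
    have hδ0 : 0 < δ := lt_min (by linarith) (by positivity)
    have hev : ∀ᶠ y in 𝓝 x, y ∈ φ.map.source ∧ φ.map y ∈ Metric.ball (φ.map x) δ :=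
      (φ.source_open.eventually_mem hxs).and (hcx.eventually_mem (Metric.ball_mem_nhds _ hδ0))
    filter_upwards [hev] with y hy f hf hfb
    have h1 := int_equi (h := loc φ f) (z0 := φ.map x) hr
      (fun w hw => hf.harmonic φ hφ w (hsub hw).1 (hsub hw).2) (fun w _ => hfb _)
      (z := φ.map y) (Metric.ball_subset_ball (min_le_left _ _) hy.2)
    have h2 : ‖φ.map y - φ.map x‖ ≤ ε * r / 36 := by
      have := hy.2
      rw [Metric.mem_ball, dist_eq_norm] at this
      exact (this.le).trans (min_le_right _ _)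
    have h3 : 36 / r * ‖φ.map y - φ.map x‖ ≤ ε := by
      have h4 : 36 / r * ‖φ.map y - φ.map x‖ ≤ 36 / r * (ε * r / 36) :=
        mul_le_mul_of_nonneg_left h2 (by positivity)
      have h5 : 36 / r * (ε * r / 36) = ε := by
        field_simp
      linarith
    unfold loc at h1
    rw [φ.map.left_inv hy.1, φ.map.left_inv hxs] at h1
    exact h1.trans h3

/-- The Steklov eigenspaces of a compact surface are finite dimensional. -/
theorem finite_eigenspace [CompactSpace S] (M : Surface S) (σ : ℝ) :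
    Module.Finite ℝ (M.eigenspace σ) := by
  let Θ : M.eigenspace σ →ₗ[ℝ] C(S, ℝ) :=
    { toFun := fun f => ⟨f, continuous_of_steklov f.2⟩
      map_add' := fun f g => rfl
      map_smul' := fun c f => rfl }
  have hΘ : Function.Injective Θ := by
    intro f g h
    apply Subtype.ext
    exact congrArg (fun k : C(S, ℝ) => (k : S → ℝ)) h
  have hV : FiniteDimensional ℝ (LinearMap.range Θ) := by
    by_contra hcon
    obtain ⟨R, g, hR, hg1, hg2⟩ := exists_seq_norm_le_one_le_norm_sub (𝕜 := ℝ)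
      (E := LinearMap.range Θ) hcon
    have hR0 : 0 < R := by linarith
    let a : ℕ → BoundedContinuousFunction S ℝ := fun n =>
      BoundedContinuousFunction.mkOfCompact (R⁻¹ • (g n : C(S, ℝ)))
    have hst : ∀ n, M.IsSteklov σ (fun x => a n x) := by
      intro n
      obtain ⟨f, hf⟩ := (g n).2
      have h1 : (fun x => a n x) = ((R⁻¹ • f : M.eigenspace σ) : S → ℝ) := by
        funext x
        change R⁻¹ * (g n : C(S, ℝ)) x = R⁻¹ * (f : S → ℝ) x
        rw [← hf]
        rfl
      rw [h1]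
      exact (R⁻¹ • f : M.eigenspace σ).2
    have hbd : ∀ n x, |a n x| ≤ 1 := by
      intro n x
      change |R⁻¹ * (g n : C(S, ℝ)) x| ≤ 1
      rw [abs_mul, abs_of_pos (inv_pos.mpr hR0)]
      have h1 : |(g n : C(S, ℝ)) x| ≤ R := by
        have h2 := (g n : C(S, ℝ)).norm_coe_le_norm x
        rw [Real.norm_eq_abs] at h2
        exact h2.trans (hg1 n)
      have h2 : R⁻¹ * |(g n : C(S, ℝ)) x| ≤ R⁻¹ * R :=
        mul_le_mul_of_nonneg_left h1 (inv_pos.mpr hR0).le
      rwa [inv_mul_cancel₀ hR0.ne'] at h2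
    have hcomp : IsCompact (closure (range a)) := by
      apply BoundedContinuousFunction.arzela_ascoli (Metric.closedBall (0 : ℝ) 1)
        (isCompact_closedBall 0 1)
      · rintro _ x ⟨n, rfl⟩
        rw [Metric.mem_closedBall, dist_zero_right, Real.norm_eq_abs]
        exact hbd n x
      · intro x
        rw [Metric.equicontinuousAt_iff_right]
        intro ε hε
        filter_upwards [M.equi σ x (half_pos hε)] with y hy
        rintro ⟨_, n, rfl⟩
        rw [dist_comm, Real.dist_eq]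
        have h1 := hy _ (hst n) (hbd n)
        linarith
    obtain ⟨b, -, φ, hφ, hlim⟩ := hcomp.tendsto_subseq (x := a)
      (fun n => subset_closure (mem_range_self n))
    have hcau := hlim.cauchySeq
    obtain ⟨N, hN⟩ := Metric.cauchySeq_iff.mp hcau R⁻¹ (inv_pos.mpr hR0)
    have h1 := hN N le_rfl (N + 1) (Nat.le_succ N)
    have hne : φ N ≠ φ (N + 1) := (hφ (Nat.lt_succ_self N)).ne
    have h2 := hg2 hne
    simp only [Function.comp_apply, a] at h1
    rw [BoundedContinuousFunction.dist_mkOfCompact, dist_eq_norm, ← smul_sub, norm_smul,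
      norm_inv, Real.norm_eq_abs, abs_of_pos hR0] at h1
    have h3 : R⁻¹ * 1 ≤ R⁻¹ * ‖((g (φ N) : C(S, ℝ)) - (g (φ (N + 1)) : C(S, ℝ)))‖ :=
      mul_le_mul_of_nonneg_left h2 (inv_pos.mpr hR0).le
    linarith
  exact Module.Finite.of_injective Θ.rangeRestrict (by
    intro f g h
    apply hΘ
    exact congrArg Subtype.val h)

end Surface

end Stek
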