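import Pool.Agent.H.MP_fc2485_gt.Main4
import Pool.Agent.H.MP_fc2485_gt.FinDim

/-!
Compact surfaces: the maps to balls of dimension at most four.
-/

open Set Filter Topology

namespace Stek

namespace Surface

variable {S : Type*} [TopologicalSpace S]

/-- the set of the pairs separated by all the maps to balls of dimension at most four is open -/
theorem separated4_open (M : Surface S) {σ : ℝ} (hfin : (M.kernels σ).Finite) :
    IsOpen {z : S × S | ∀ n : ℕ, n ≤ 4 → ∀ Φ : Fin n → S → ℝ, M.IsFree σ Φ →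
      ∃ k, Φ k z.1 ≠ Φ k z.2} := by
  have h1 : {z : S × S | ∀ n : ℕ, n ≤ 4 → ∀ Φ : Fin n → S → ℝ, M.IsFree σ Φ →
      ∃ k, Φ k z.1 ≠ Φ k z.2} =
      ⋂ G ∈ M.kernels σ, {z : S × S | G z.1 z.1 - 2 * G z.1 z.2 + G z.2 z.2 ≠ 0} := by
    have hid : ∀ {n : ℕ} (Φ : Fin n → S → ℝ) (G : S → S → ℝ),
        (∀ x y, G x y = ∑ k, Φ k x * Φ k y) → ∀ x y,
        G x x - 2 * G x y + G y y = ∑ k, (Φ k x - Φ k y) ^ 2 := by
      intro n Φ G hG x y
      rw [hG, hG, hG, Finset.mul_sum, ← Finset.sum_sub_distrib, ← Finset.sum_add_distrib]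
      apply Finset.sum_congr rfl
      intro k _
      ring
    ext z
    simp only [mem_iInter]
    constructor
    · rintro h G ⟨n, hn, Φ, hΦ, hG⟩ h0
      rw [hid Φ G hG] at h0
      obtain ⟨k, hk⟩ := h n hn Φ hΦ
      rw [Finset.sum_eq_zero_iff_of_nonneg (fun k _ => sq_nonneg _)] at h0
      have h2 := h0 k (Finset.mem_univ k)
      exact hk (sub_eq_zero.mp (pow_eq_zero_iff (two_ne_zero) |>.mp h2))
    · intro h n hn Φ hΦ
      by_contra hcon
      push Not at hcon
      apply h (fun x y => ∑ k, Φ k x * Φ k y) ⟨n, hn, Φ, hΦ, fun _ _ => rfl⟩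
      rw [hid Φ _ (fun _ _ => rfl)]
      apply Finset.sum_eq_zero
      intro k _
      rw [hcon k, sub_self]
      ring
  rw [h1]
  apply hfin.isOpen_biInter
  rintro G ⟨n, hn, Φ, hΦ, hG⟩
  have hc : ∀ k, Continuous (Φ k) := fun k => continuous_of_steklov (hΦ.mem k)
  have hG' : Continuous fun z : S × S => G z.1 z.1 - 2 * G z.1 z.2 + G z.2 z.2 := by
    simp only [hG]
    have h2 : ∀ k, Continuous fun z : S × S => Φ k z.1 := fun k => (hc k).comp continuous_fst
    have h3 : ∀ k, Continuous fun z : S × S => Φ k z.2 := fun k => (hc k).comp continuous_snd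
    exact ((continuous_finset_sum _ fun k _ => (h2 k).mul (h2 k)).sub
      (continuous_const.mul (continuous_finset_sum _ fun k _ => (h2 k).mul (h3 k)))).add
      (continuous_finset_sum _ fun k _ => (h3 k).mul (h3 k))
  exact isOpen_ne_fun hG' continuous_const

end Surface

end Stek
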