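import Pool.Agent.H.MP_fc2485_gt.Basic

/-!
The partial derivatives of the family of forms, and the Hill equation.
-/

set_option maxSynthPendingDepth 3

open Set Filter Topology

namespace Stek

variable {U : Type*} [NormedAddCommGroup U] [NormedSpace ℝ U]

namespace Dat

variable {σ : ℝ} {u w : ℕ → ℝ → U} {T : Submodule ℝ (Bil U)} {Q0 : Bil U}
    {s s1 s2 : ℝ × ℝ → Bil U} {a b c d : ℝ}

theorem ds1 (D : Dat σ u w T Q0 s s1 s2 a b c d) {p q : ℝ} (hp : p ∈ Ioo a b)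
    (hq : q ∈ Ioo c d) : HasDerivAt (fun x => s (x, q)) (s1 (p, q)) p := by
  have h1 : HasDerivAt (fun x : ℝ => (x, q)) ((1 : ℝ), (0 : ℝ)) p :=
    (hasDerivAt_id p).prodMk (hasDerivAt_const p q)
  have h2 := (D.ds p hp q hq).comp_hasDerivAt p h1
  refine h2.congr_deriv ?_
  simp

/-- the first partial derivative, at the vector `u - w` -/
theorem e1 (D : Dat σ u w T Q0 s s1 s2 a b c d) {p q : ℝ} (hp : p ∈ Ioo a b)
    (hq : q ∈ Ioo c d) (z : U) :
    s1 (p, q) (u 0 p) z - s1 (p, q) (w 0 q) z + (Q0 + s (p, q)) (u 1 p) z = 0 := by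
  have h1 : HasDerivAt (fun x => Q0 + s (x, q)) (s1 (p, q)) p := (D.ds1 hp hq).const_add Q0
  have h2 : HasDerivAt (fun x => u 0 x - w 0 q) (u 1 p) p := (D.du 0 p hp).sub_const _
  have h3 := h1.clm_apply h2
  have h4 := deriv_zero_of_const hp (fun x hx => D.hs x hx q hq) h3
  have h5 := congrArg (fun φ : U →L[ℝ] ℝ => φ z) h4
  simpa using h5

/-- facts on the chosen form: it takes the same values on `u` and `w` -/
theorem kill (D : Dat σ u w T Q0 s s1 s2 a b c d) {p q : ℝ} (hp : p ∈ Ioo a b)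
    (hq : q ∈ Ioo c d) (z : U) :
    (Q0 + s (p, q)) (u 0 p) z = (Q0 + s (p, q)) (w 0 q) z := by
  have h := congrArg (fun φ : U →L[ℝ] ℝ => φ z) (D.hs p hp q hq)
  simp only [map_sub, sub_apply, zero_apply] at h
  linarith

/-- the values of the first partial derivative -/
theorem s1vals (D : Dat σ u w T Q0 s s1 s2 a b c d) {p q : ℝ} (hp : p ∈ Ioo a b)
    (hq : q ∈ Ioo c d) :
    s1 (p, q) (u 0 p) (w 0 q) = 0 ∧ s1 (p, q) (u 1 p) (w 0 q) = σ ^ 2 ∧
      s1 (p, q) (u 2 p) (w 0 q) = 0 ∧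
      s1 (p, q) (u 0 p) (w 1 q) = -((Q0 + s (p, q)) (u 1 p) (w 1 q)) := by
  have hT := D.s1T p hp q hq
  have hsT := D.sT p hp q hq
  have ju := D.jt hT hp
  have jw := D.swap.jt hT hq
  have jqu := D.jq hsT hp
  have tu0 := D.tu _ hT p hp
  have tw0 := D.tw _ hT q hq
  have sy := D.sym _ hT
  have qsy := D.qtsym hsT
  refine ⟨?_, ?_, ?_, ?_⟩
  · have h := D.e1 hp hq (w 0 q)
    have k := D.kill hp hq (u 1 p)
    rw [tw0, qsy (u 1 p) (w 0 q), ← k, jqu.2.2.1] at h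
    linarith
  · have h := D.e1 hp hq (u 1 p)
    rw [ju.1, jqu.2.1, sy (w 0 q) (u 1 p)] at h
    linarith
  · have h := D.e1 hp hq (u 2 p)
    rw [ju.2.1, jqu.2.2.2.2.1, sy (w 0 q) (u 2 p)] at h
    linarith
  · have h := D.e1 hp hq (w 1 q)
    rw [jw.1] at h
    linarith

/-- the values of the second partial derivative -/
theorem s2vals (D : Dat σ u w T Q0 s s1 s2 a b c d) {p q : ℝ} (hp : p ∈ Ioo a b)
    (hq : q ∈ Ioo c d) :
    s2 (p, q) (u 0 p) (w 0 q) = 0 ∧ s2 (p, q) (u 0 p) (w 1 q) = σ ^ 2 ∧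
      s2 (p, q) (u 0 p) (w 2 q) = 0 ∧
      s2 (p, q) (u 1 p) (w 0 q) = -((Q0 + s (p, q)) (u 1 p) (w 1 q)) := by
  have h := D.swap.s1vals hq hp
  have hT := D.s2T p hp q hq
  have hsT := D.sT p hp q hq
  have sy := D.sym _ hT
  have qsy := D.qtsym hsT
  simp only at h
  rw [sy (w 0 q) (u 0 p), sy (w 1 q) (u 0 p), sy (w 2 q) (u 0 p), sy (w 0 q) (u 1 p),
    qsy (w 1 q) (u 1 p)] at h
  exact h

/-- the second order cross product vanishes -/
theorem wr' (D : Dat σ u w T Q0 s s1 s2 a b c d) {t1 t2 : Bil U} (h1 : t1 ∈ T) (h2 : t2 ∈ T)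
    {p q : ℝ} (hp : p ∈ Ioo a b) (hq : q ∈ Ioo c d) :
    t1 (u 0 p) (w 0 q) * t2 (u 2 p) (w 0 q) = t1 (u 2 p) (w 0 q) * t2 (u 0 p) (w 0 q) := by
  have hT := D.s1T p hp q hq
  obtain ⟨x, y, z, hne, h⟩ := D.dep h1 h2 hT hq
  obtain ⟨v0, v1, v2, -⟩ := D.s1vals hp hq
  have hv : ∀ j, x * t1 (u j p) (w 0 q) + y * t2 (u j p) (w 0 q) +
      z * s1 (p, q) (u j p) (w 0 q) = 0 := by
    intro j
    have := congrArg (fun φ : U →L[ℝ] ℝ => φ (u j p)) h
    simp only [add_apply, smul_apply, smul_eq_mul, zero_apply] at this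
    rw [D.sym _ h1 (w 0 q) (u j p), D.sym _ h2 (w 0 q) (u j p), D.sym _ hT (w 0 q) (u j p)] at this
    exact this
  have e0 := hv 0
  have e1 := hv 1
  have e2 := hv 2
  rw [v0, mul_zero, add_zero] at e0
  rw [v1] at e1
  rw [v2, mul_zero, add_zero] at e2
  have hσ : σ ^ 2 ≠ 0 := pow_ne_zero 2 D.hσ.ne'
  by_cases hx : x = 0
  · by_cases hy : y = 0
    · exfalso
      rw [hx, hy] at e1
      have : z = 0 := by
        have : z * σ ^ 2 = 0 := by linarith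
        rcases mul_eq_zero.mp this with h | h
        · exact h
        · exact absurd h hσ
      exact hne ⟨hx, hy, this⟩
    · apply mul_left_cancel₀ hy
      linear_combination (t1 (u 0 p) (w 0 q)) * e2 - (t1 (u 2 p) (w 0 q)) * e0
  · apply mul_left_cancel₀ hx
    linear_combination (t2 (u 2 p) (w 0 q)) * e0 - (t2 (u 0 p) (w 0 q)) * e2

/-- The Wronskian of two forms. -/
noncomputable def W (u w : ℕ → ℝ → U) (t1 t2 : Bil U) (p q : ℝ) : ℝ :=
  t1 (u 0 p) (w 0 q) * t2 (u 1 p) (w 0 q) - t1 (u 1 p) (w 0 q) * t2 (u 0 p) (w 0 q)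

/-- the Wronskian is constant in `p` -/
theorem W_const (D : Dat σ u w T Q0 s s1 s2 a b c d) {t1 t2 : Bil U} (h1 : t1 ∈ T) (h2 : t2 ∈ T)
    {p p' q : ℝ} (hp : p ∈ Ioo a b) (hp' : p' ∈ Ioo a b) (hq : q ∈ Ioo c d) :
    W u w t1 t2 p q = W u w t1 t2 p' q := by
  have hd : ∀ x ∈ Ioo a b, HasDerivAt (fun x => W u w t1 t2 x q) 0 x := by
    intro x hx
    have k : ∀ (t : Bil U) (j : ℕ), HasDerivAt (fun x => t (u j x) (w 0 q))
      (t (u (j + 1) x) (w 0 q)) x := fun t j => hd_fst t (D.du j x hx) _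
    have h := ((k t1 0).mul (k t2 1)).sub ((k t1 1).mul (k t2 0))
    refine h.congr_deriv ?_
    have := D.wr' h1 h2 hx hq
    norm_num
    linarith
  have hc : DifferentiableOn ℝ (fun x => W u w t1 t2 x q) (Ioo a b) :=
    fun x hx => (hd x hx).differentiableAt.differentiableWithinAt
  have := isOpen_Ioo.is_const_of_deriv_eq_zero (convex_Ioo a b).isPreconnected hc
    (fun x hx => (hd x hx).deriv) hp hp'
  exact this

/-- there are two forms whose Wronskian does not vanish -/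
theorem exists_W (D : Dat σ u w T Q0 s s1 s2 a b c d) {p q : ℝ} (hp : p ∈ Ioo a b)
    (hq : q ∈ Ioo c d) : ∃ t1 ∈ T, ∃ t2 ∈ T, W u w t1 t2 p q ≠ 0 := by
  have hT := D.s1T p hp q hq
  obtain ⟨v0, v1, v2, -⟩ := D.s1vals hp hq
  have hσ : σ ^ 2 ≠ 0 := pow_ne_zero 2 D.hσ.ne'
  have hd : HasDerivAt (fun x => s1 (p, q) (u 0 x) (w 0 q)) (σ ^ 2) p := by
    have := hd_fst (s1 (p, q)) (D.du 0 p hp) (w 0 q)
    rw [← v1]
    exact this
  have hev := hd.eventually_ne (c := (0 : ℝ)) hσ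
  have hev2 : ∀ᶠ x in 𝓝[≠] p, x ∈ Ioo a b :=
    (Ioo_mem_nhds hp.1 hp.2 : Ioo a b ∈ 𝓝 p) |> mem_nhdsWithin_of_mem_nhds
  obtain ⟨x, hx1, hx2⟩ := (hev.and hev2).exists
  refine ⟨s1 (p, q), hT, s1 (x, q), D.s1T x hx2 q hq, ?_⟩
  rw [D.W_const hT (D.s1T x hx2 q hq) hp hx2 hq]
  obtain ⟨y0, y1, -, -⟩ := D.s1vals hx2 hq
  unfold W
  rw [y0, y1, mul_zero, sub_zero]
  exact mul_ne_zero hx1 hσ

/-- the potential of the Hill equation -/
noncomputable def H (u w : ℕ → ℝ → U) (t1 t2 : Bil U) (p q : ℝ) : ℝ :=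
  (t1 (u 1 p) (w 0 q) * t2 (u 2 p) (w 0 q) - t1 (u 2 p) (w 0 q) * t2 (u 1 p) (w 0 q)) /
    W u w t1 t2 p q

/-- the Hill equation -/
theorem hill (D : Dat σ u w T Q0 s s1 s2 a b c d) {t1 t2 t : Bil U} (h1 : t1 ∈ T) (h2 : t2 ∈ T)
    (ht : t ∈ T) {p q : ℝ} (hp : p ∈ Ioo a b) (hq : q ∈ Ioo c d)
    (hW : W u w t1 t2 p q ≠ 0) :
    t (u 2 p) (w 0 q) = -(H u w t1 t2 p q * t (u 0 p) (w 0 q)) := by
  have k1 := D.wr' h1 ht hp hq
  have k2 := D.wr' h2 ht hp hq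
  unfold H
  rw [div_mul_eq_mul_div, eq_neg_iff_add_eq_zero, ← mul_right_inj' hW, mul_zero, mul_add,
    mul_div_cancel₀ _ hW]
  unfold W
  linear_combination (t2 (u 1 p) (w 0 q)) * k1 - (t1 (u 1 p) (w 0 q)) * k2

/-- a form which vanishes to first order at a point kills `w` there -/
theorem ker_of_zero (D : Dat σ u w T Q0 s s1 s2 a b c d) {t1 t2 t : Bil U} (h1 : t1 ∈ T)
    (h2 : t2 ∈ T) (ht : t ∈ T) {p q : ℝ} (hq : q ∈ Ioo c d)
    (hW : W u w t1 t2 p q ≠ 0) (z0 : t (u 0 p) (w 0 q) = 0) (z1 : t (u 1 p) (w 0 q) = 0) :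
    t (w 0 q) = 0 := by
  obtain ⟨x, y, z, hne, h⟩ := D.dep h1 h2 ht hq
  have hv : ∀ j, x * t1 (u j p) (w 0 q) + y * t2 (u j p) (w 0 q) +
      z * t (u j p) (w 0 q) = 0 := by
    intro j
    have := congrArg (fun φ : U →L[ℝ] ℝ => φ (u j p)) h
    simp only [add_apply, smul_apply, smul_eq_mul, zero_apply] at this
    rw [D.sym _ h1 (w 0 q) (u j p), D.sym _ h2 (w 0 q) (u j p), D.sym _ ht (w 0 q) (u j p)] at this
    exact this
  have e0 := hv 0
  have e1 := hv 1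
  rw [z0, mul_zero, add_zero] at e0
  rw [z1, mul_zero, add_zero] at e1
  unfold W at hW
  have hx : x = 0 := by
    have : x * (t1 (u 0 p) (w 0 q) * t2 (u 1 p) (w 0 q) -
        t1 (u 1 p) (w 0 q) * t2 (u 0 p) (w 0 q)) = 0 := by
      linear_combination (t2 (u 1 p) (w 0 q)) * e0 - (t2 (u 0 p) (w 0 q)) * e1
    rcases mul_eq_zero.mp this with h | h
    · exact h
    · exact absurd h hW
  have hy : y = 0 := by
    have : y * (t1 (u 0 p) (w 0 q) * t2 (u 1 p) (w 0 q) -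
        t1 (u 1 p) (w 0 q) * t2 (u 0 p) (w 0 q)) = 0 := by
      linear_combination (t1 (u 0 p) (w 0 q)) * e1 - (t1 (u 1 p) (w 0 q)) * e0
    rcases mul_eq_zero.mp this with h | h
    · exact h
    · exact absurd h hW
  have hz : z ≠ 0 := fun hz => hne ⟨hx, hy, hz⟩
  rw [hx, hy, zero_smul, zero_smul, zero_add, zero_add] at h
  have : z • t (w 0 q) = 0 := by simpa using h
  exact (smul_eq_zero.mp this).resolve_left hz

end Dat

end Stek
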