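import Pool.Agent.H.MP_fc2485_gt.Core
import Pool.Agent.H.MP_fc2485_gt.Geo

/-!
Separation of boundary points when the eigenspace has dimension at most six.
-/

set_option maxSynthPendingDepth 3

open Set Filter Topology InnerProductSpace
open scoped ContDiff

namespace Stek

/-- the iterated derivatives of a smooth function form a jet -/
theorem jet_iteratedDeriv {E : Type*} [NormedAddCommGroup E] [NormedSpace ℝ E] {f : ℝ → E}
    {a b : ℝ} (hf : ContDiffOn ℝ ∞ f (Ioo a b)) (n : ℕ) :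
    ContDiffOn ℝ ∞ (iteratedDeriv n f) (Ioo a b) ∧ ∀ p ∈ Ioo a b,
      HasDerivAt (iteratedDeriv n f) (iteratedDeriv (n + 1) f p) p := by
  have key : ContDiffOn ℝ ∞ (iteratedDeriv n f) (Ioo a b) := by
    induction n with
    | zero => simpa using hf
    | succ n ih =>
      rw [iteratedDeriv_succ]
      exact ih.deriv_of_isOpen isOpen_Ioo (by simp)
  refine ⟨key, fun p hp => ?_⟩
  rw [iteratedDeriv_succ]
  exact ((key.contDiffAt (Ioo_mem_nhds hp.1 hp.2)).differentiableAt (by simp)).hasDerivAt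

namespace Surface

variable {S : Type*} [TopologicalSpace S]

/-- an arclength parametrisation is smooth -/
theorem arc_smooth (φ : Chart S) {X : ℝ → ℝ} {η : ℝ}
    (hX : ∀ s ∈ Ioo (-η) η, ((X s : ℝ) : ℂ) ∈ φ.map.target ∧ HasDerivAt X ((φ.ρ (X s))⁻¹) s) :
    ContDiffOn ℝ ∞ X (Ioo (-η) η) := by
  have hv : ContDiffOn ℝ ∞ (fun t : ℝ => (φ.ρ t)⁻¹) {t : ℝ | (t : ℂ) ∈ φ.map.target} := by
    have h2 : ContDiff ℝ ∞ (fun t : ℝ => (t : ℂ)) := Complex.ofRealCLM.contDiff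
    have h3 : ContDiffOn ℝ ∞ (fun t : ℝ => φ.ρ t) {t : ℝ | (t : ℂ) ∈ φ.map.target} :=
      φ.ρ_smooth.comp h2.contDiffOn (fun t ht => ht)
    exact h3.inv fun t ht => (φ.ρ_pos _ ht).ne'
  rw [contDiffOn_infty]
  intro n
  induction n with
  | zero =>
    rw [Nat.cast_zero, contDiffOn_zero]
    exact fun x hx => (hX x hx).2.continuousAt.continuousWithinAt
  | succ n ih =>
    rw [Nat.cast_succ, contDiffOn_succ_iff_deriv_of_isOpen isOpen_Ioo]
    refine ⟨fun x hx => (hX x hx).2.differentiableAt.differentiableWithinAt, ?_, ?_⟩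
    · intro h
      simp at h
    · have h1 : ContDiffOn ℝ n (fun s => (φ.ρ (X s))⁻¹) (Ioo (-η) η) :=
        (contDiffOn_infty.mp hv n).comp ih (fun s hs => (hX s hs).1)
      exact h1.congr fun x hx => (hX x hx).2.deriv

/-- The curve of the values of a basis of the eigenspace along a boundary arc parametrised by
arclength. -/
structure IsCurve (M : Surface S) (σ : ℝ) {m : ℕ} (e : Fin m → M.eigenspace σ) (φ : Chart S)
    (X : ℝ → ℝ) (η : ℝ) (u : ℕ → ℝ → Fin m → ℝ) : Prop where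
  hφ : φ ∈ M.charts
  hη : 0 < η
  mem : ∀ s ∈ Ioo (-η) η, ((X s : ℝ) : ℂ) ∈ φ.map.target
  dX : ∀ s ∈ Ioo (-η) η, HasDerivAt X ((φ.ρ (X s))⁻¹) s
  val : ∀ s, u 0 s = fun i => (e i : S → ℝ) (φ.map.symm (X s))
  du : ∀ n, ∀ s ∈ Ioo (-η) η, HasDerivAt (u n) (u (n + 1) s) s

theorem exists_curve (M : Surface S) (σ : ℝ) {m : ℕ} (e : Fin m → M.eigenspace σ) {φ : Chart S}
    (hφ : φ ∈ M.charts) {x0 : ℝ} (hx0 : (x0 : ℂ) ∈ φ.map.target) {δ : ℝ} (hδ : 0 < δ) :
    ∃ (X : ℝ → ℝ) (η : ℝ) (u : ℕ → ℝ → Fin m → ℝ), M.IsCurve σ e φ X η u ∧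
      ∀ s ∈ Ioo (-η) η, |X s - x0| < δ := by
  obtain ⟨X, η, hη, -, h⟩ := exists_arc φ hx0 hδ
  have hXs : ContDiffOn ℝ ∞ X (Ioo (-η) η) := arc_smooth φ fun s hs => ⟨(h s hs).2.1, (h s hs).2.2⟩
  have hu : ContDiffOn ℝ ∞ (fun s => fun i => (e i : S → ℝ) (φ.map.symm (X s))) (Ioo (-η) η) := by
    rw [contDiffOn_pi]
    intro i
    have h1 := contDiffOn_real (e i).2 hφ
    exact h1.comp hXs (fun s hs => (h s hs).2.1)
  refine ⟨X, η, fun n => iteratedDeriv n (fun s => fun i => (e i : S → ℝ) (φ.map.symm (X s))),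
    ⟨hφ, hη, fun s hs => (h s hs).2.1, fun s hs => (h s hs).2.2, ?_, ?_⟩, fun s hs => (h s hs).1⟩
  · intro s
    simp
  · intro n s hs
    exact (jet_iteratedDeriv hu n).2 s hs

namespace IsCurve

variable {M : Surface S} {σ : ℝ} {m : ℕ} {e : Fin m → M.eigenspace σ} {φ : Chart S}
  {X : ℝ → ℝ} {η : ℝ} {u : ℕ → ℝ → Fin m → ℝ}

/-- unique continuation along the curve -/
theorem uc [ConnectedSpace S] (C : M.IsCurve σ e φ X η u) (he : LinearIndependent ℝ e)
    (ξ : (Fin m → ℝ) →L[ℝ] ℝ) (a' b' : ℝ) (hab : a' < b') (hsub : Ioo a' b' ⊆ Ioo (-η) η)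
    (hz : ∀ s ∈ Ioo a' b', ξ (u 0 s) = 0) : ξ = 0 := by
  let k : Fin m → ℝ := fun i => ξ (Pi.single i 1)
  have hξ : ∀ z : Fin m → ℝ, ξ z = ∑ i, k i * z i := by
    intro z
    have h1 : z = ∑ i, z i • (Pi.single i (1 : ℝ) : Fin m → ℝ) := by
      funext j
      simp [Finset.sum_apply, Pi.single_apply]
    conv_lhs => rw [h1]
    rw [map_sum]
    apply Finset.sum_congr rfl
    intro i _
    rw [map_smul, smul_eq_mul, mul_comm]
  let f : M.eigenspace σ := ∑ i, k i • e i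
  have hf : ∀ x : S, (f : S → ℝ) x = ∑ i, k i * (e i : S → ℝ) x := by
    intro x
    simp [f, Finset.sum_apply]
  obtain ⟨s0, hs0⟩ := nonempty_Ioo.mpr hab
  -- the parametrisation is increasing
  have hev : ∀ᶠ t : ℝ in 𝓝 (X s0), loc φ (f : S → ℝ) t = 0 := by
    obtain ⟨l, hl1, hl2⟩ := exists_between hs0.1
    obtain ⟨r, hr1, hr2⟩ := exists_between hs0.2
    have hsub2 : Icc l r ⊆ Ioo a' b' := fun s hs =>
      ⟨lt_of_lt_of_le hl1 hs.1, lt_of_le_of_lt hs.2 hr2⟩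
    have hcont : ContinuousOn X (Icc l r) := fun s hs =>
      (C.dX s (hsub (hsub2 hs))).continuousAt.continuousWithinAt
    have hmono : StrictMonoOn X (Icc l r) := by
      apply strictMonoOn_of_deriv_pos (convex_Icc l r) hcont
      intro s hs
      rw [interior_Icc] at hs
      have hs' := hsub (hsub2 (Ioo_subset_Icc_self hs))
      rw [(C.dX s hs').deriv]
      exact inv_pos.mpr (φ.ρ_pos _ (C.mem s hs'))
    have h1 : X l < X s0 := hmono ⟨le_rfl, by linarith⟩ ⟨hl2.le, hr1.le⟩ hl2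
    have h2 : X s0 < X r := hmono ⟨hl2.le, hr1.le⟩ ⟨by linarith, le_rfl⟩ hr1
    filter_upwards [Ioo_mem_nhds h1 h2] with t ht
    obtain ⟨s, hs, rfl⟩ := intermediate_value_Icc (by linarith) hcont ⟨ht.1.le, ht.2.le⟩
    have h3 := hz s (hsub2 hs)
    rw [hξ, C.val s] at h3
    unfold loc
    rw [hf]
    exact h3
  have h1 := uc_near f.2 C.hφ (C.mem s0 (hsub hs0)) hev
  have h2 := uc_global f.2 h1
  have h3 : f = 0 := Subtype.ext h2
  have h4 : ∀ i, k i = 0 := Fintype.linearIndependent_iff.mp he k h3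
  ext z
  rw [hξ]
  simp [h4]

/-- the value of a component of a map along the curve -/
theorem comp_val (C : M.IsCurve σ e φ X η u) {f : M.eigenspace σ} {k : Fin m → ℝ}
    (hf : f = ∑ i, k i • e i) {L : (Fin m → ℝ) →L[ℝ] ℝ} (hL : ∀ z, L z = ∑ i, k i * z i) (s : ℝ) :
    L (u 0 s) = (f : S → ℝ) (φ.map.symm (X s)) := by
  rw [hL, C.val s, hf]
  simp [Finset.sum_apply]

theorem comp_deriv (C : M.IsCurve σ e φ X η u) {f : M.eigenspace σ} {k : Fin m → ℝ}
    (hf : f = ∑ i, k i • e i) {L : (Fin m → ℝ) →L[ℝ] ℝ} (hL : ∀ z, L z = ∑ i, k i * z i) {s : ℝ}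
    (hs : s ∈ Ioo (-η) η) : L (u 1 s) = dx φ (f : S → ℝ) (X s) * (φ.ρ (X s))⁻¹ := by
  have h1 : HasDerivAt (fun s => L (u 0 s)) (L (u 1 s)) s :=
    L.hasFDerivAt.comp_hasDerivAt s (C.du 0 s hs)
  have h2 : HasDerivAt (fun s => (f : S → ℝ) (φ.map.symm (X s)))
      (dx φ (f : S → ℝ) (X s) * (φ.ρ (X s))⁻¹) s :=
    (hasDerivAt_real f.2 C.hφ (C.mem s hs)).comp s (C.dX s hs)
  have h3 : (fun s => L (u 0 s)) = fun s => (f : S → ℝ) (φ.map.symm (X s)) := by
    funext s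
    exact C.comp_val hf hL s
  rw [h3] at h1
  exact h1.unique h2

theorem mem_bdry (C : M.IsCurve σ e φ X η u) {s : ℝ} (hs : s ∈ Ioo (-η) η) :
    φ.map.symm (X s) ∈ M.bdry := by
  refine ⟨φ, C.hφ, φ.map.map_target (C.mem s hs), ?_⟩
  rw [φ.map.right_inv (C.mem s hs)]
  simp

/-- the Gram form of a map -/
theorem isGram (C : M.IsCurve σ e φ X η u) {n : ℕ} {Φ : Fin n → S → ℝ} (hΦ : M.IsFree σ Φ)
    {A : Fin n → Fin m → ℝ} (hA : ∀ k, (⟨Φ k, hΦ.mem k⟩ : M.eigenspace σ) = ∑ i, A k i • e i)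
    {L : Fin n → (Fin m → ℝ) →L[ℝ] ℝ} (hL : ∀ k z, L k z = ∑ i, A k i * z i) :
    IsGram 1 (σ ^ 2) u (-η) η (∑ k, (L k).smulRight (L k)) := by
  have hQ : ∀ x y : Fin m → ℝ, (∑ k, (L k).smulRight (L k)) x y = ∑ k, L k x * L k y := by
    intro x y
    simp
  refine ⟨?_, ?_, ?_⟩
  · intro x y
    rw [hQ, hQ]
    exact Finset.sum_congr rfl fun k _ => mul_comm _ _
  · intro s hs
    rw [hQ, ← hΦ.sphere _ (C.mem_bdry hs)]
    apply Finset.sum_congr rfl
    intro k _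
    rw [C.comp_val (hA k) (hL k) s]
    ring
  · intro s hs
    rw [hQ]
    have hm := C.mem s hs
    have h1 : ∀ k, L k (u 1 s) * L k (u 1 s) = dx φ (Φ k) (X s) ^ 2 * (φ.ρ (X s))⁻¹ ^ 2 := by
      intro k
      rw [C.comp_deriv (hA k) (hL k) hs]
      ring
    have h2 : ∀ k, dy φ (Φ k) (X s) ^ 2 * (φ.ρ (X s))⁻¹ ^ 2 =
        σ ^ 2 * Φ k (φ.map.symm (X s)) ^ 2 := by
      intro k
      have h3 := (hΦ.mem k).normal φ C.hφ (X s) hm (by simp)
      unfold loc at h3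
      have h4 : dy φ (Φ k) (X s) ^ 2 * (φ.ρ (X s))⁻¹ ^ 2 =
          (-((φ.ρ (X s))⁻¹ * dy φ (Φ k) (X s))) ^ 2 := by ring
      rw [h4, h3]
      ring
    simp only [h1]
    rw [← Finset.sum_mul, hΦ.norm_eq φ C.hφ _ hm, Finset.sum_mul]
    simp only [h2]
    rw [← Finset.mul_sum, hΦ.sphere _ (C.mem_bdry hs), mul_one]

end IsCurve

/-- a boundary point has arbitrarily small boundary arcs in its component -/
theorem arc_mem (M : Surface S) {p : S} (hp : p ∈ M.bdry) {O : Set S} (hO : O ∈ 𝓝 p) :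
    ∃ φ ∈ M.charts, ∃ x0 δ : ℝ, (x0 : ℂ) ∈ φ.map.target ∧ 0 < δ ∧
      ∀ t : ℝ, |t - x0| < δ → φ.map.symm t ∈ O ∧
        φ.map.symm t ∈ connectedComponentIn M.bdry p := by
  obtain ⟨φ, hφ, hps, hi⟩ := hp
  set x0 : ℝ := (φ.map p).re with hx0
  have hx0p : (x0 : ℂ) = φ.map p := by
    apply Complex.ext
    · simp [hx0]
    · simpa using hi.symm
  have hxt : (x0 : ℂ) ∈ φ.map.target := by
    rw [hx0p]
    exact φ.map.map_source hps
  obtain ⟨R, hR, hsub⟩ := mem_target_real φ hxt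
  have hsymm : φ.map.symm x0 = p := by
    rw [hx0p, φ.map.left_inv hps]
  have hcw : ContinuousWithinAt φ.map.symm φ.map.target (x0 : ℂ) := φ.cont_symm _ hxt
  have hca : ContinuousAt (fun t : ℝ => φ.map.symm t) x0 := by
    have h1 : Tendsto (fun t : ℝ => (t : ℂ)) (𝓝 x0) (𝓝[φ.map.target] (x0 : ℂ)) := by
      rw [tendsto_nhdsWithin_iff]
      exact ⟨Complex.continuous_ofReal.continuousAt, real_mem_nhds φ hxt⟩
    exact hcw.tendsto.comp h1
  have hev : ∀ᶠ t : ℝ in 𝓝 x0, φ.map.symm t ∈ O := by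
    apply hca.eventually_mem
    rw [hsymm]
    exact hO
  obtain ⟨δ0, hδ0, hev⟩ := Metric.eventually_nhds_iff.mp hev
  set δ := min δ0 R with hδ
  have hδp : 0 < δ := lt_min hδ0 hR
  refine ⟨φ, hφ, x0, δ, hxt, hδp, ?_⟩
  have harc : IsPreconnected ((fun t : ℝ => φ.map.symm t) '' Ioo (x0 - δ) (x0 + δ)) := by
    apply isPreconnected_Ioo.image
    have h1 : ContinuousOn (fun t : ℝ => (t : ℂ)) (Ioo (x0 - δ) (x0 + δ)) :=
      Complex.continuous_ofReal.continuousOn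
    apply φ.cont_symm.comp h1
    intro t ht
    apply real_mem φ hsub
    have : |t - x0| < δ := abs_lt.mpr ⟨by linarith [ht.1], by linarith [ht.2]⟩
    exact lt_of_lt_of_le this (min_le_right _ _)
  have hsubset : ((fun t : ℝ => φ.map.symm t) '' Ioo (x0 - δ) (x0 + δ)) ⊆
      connectedComponentIn M.bdry p := by
    apply harc.subset_connectedComponentIn
    · exact ⟨x0, ⟨by linarith, by linarith⟩, hsymm⟩
    · rintro _ ⟨t, ht, rfl⟩
      have h1 : |t - x0| < δ := abs_lt.mpr ⟨by linarith [ht.1], by linarith [ht.2]⟩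
      have h2 : (t : ℂ) ∈ φ.map.target := real_mem φ hsub (lt_of_lt_of_le h1 (min_le_right _ _))
      refine ⟨φ, hφ, φ.map.map_target h2, ?_⟩
      simp only
      rw [φ.map.right_inv h2]
      simp
  intro t ht
  refine ⟨?_, hsubset ⟨t, ?_, rfl⟩⟩
  · apply hev
    rw [Real.dist_eq]
    exact lt_of_lt_of_le ht (min_le_left _ _)
  · have := abs_lt.mp ht
    exact ⟨by linarith, by linarith⟩

/-- The main theorem: for an eigenspace of dimension at most six, the pairs of boundary points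
which are separated by all the maps of the class are dense in the pairs of boundary points. -/
theorem separation [ConnectedSpace S] (M : Surface S) {σ : ℝ} (hσ : 0 < σ)
    (hdim : Module.rank ℝ (M.eigenspace σ) ≤ 6) {p q : S} (hp : p ∈ M.bdry) (hq : q ∈ M.bdry)
    {O O' : Set S} (hO : O ∈ 𝓝 p) (hO' : O' ∈ 𝓝 q) :
    ∃ p' ∈ O ∩ connectedComponentIn M.bdry p, ∃ q' ∈ O' ∩ connectedComponentIn M.bdry q,
      M.Separated σ p' q' := by
  have hfin : Module.Finite ℝ (M.eigenspace σ) := by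
    rw [← Module.rank_lt_aleph0_iff]
    exact lt_of_le_of_lt hdim (by exact_mod_cast Cardinal.natCast_lt_aleph0 (n := 6))
  have hrank : Module.finrank ℝ (M.eigenspace σ) ≤ 6 :=
    Module.finrank_le_of_rank_le (by exact_mod_cast hdim)
  let e := Module.finBasis ℝ (M.eigenspace σ)
  obtain ⟨φ, hφ, x0, δ, hx0, hδ, harc⟩ := M.arc_mem hp hO
  obtain ⟨ψ, hψ, y0, δ', hy0, hδ', harc'⟩ := M.arc_mem hq hO'
  obtain ⟨X, η, u, C, hX⟩ := M.exists_curve σ e hφ hx0 hδ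
  obtain ⟨Y, η', w, C', hY⟩ := M.exists_curve σ e hψ hy0 hδ'
  obtain ⟨s, hs, s', hs', h⟩ := core (U := Fin (Module.finrank ℝ (M.eigenspace σ)) → ℝ)
    (by simpa using hrank) hσ (by linarith [C.hη] : -η < η) (by linarith [C'.hη] : -η' < η')
    C.du C'.du (C.uc e.linearIndependent) (C'.uc e.linearIndependent)
  refine ⟨φ.map.symm (X s), harc _ (hX s hs), ψ.map.symm (Y s'), harc' _ (hY s' hs'), ?_⟩
  intro n Φ hΦ
  by_contra hcon
  push Not at hcon
  let A : Fin n → Fin (Module.finrank ℝ (M.eigenspace σ)) → ℝ :=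
    fun k i => e.repr ⟨Φ k, hΦ.mem k⟩ i
  have hA : ∀ k, (⟨Φ k, hΦ.mem k⟩ : M.eigenspace σ) = ∑ i, A k i • e i :=
    fun k => (e.sum_repr _).symm
  let L : Fin n → (Fin (Module.finrank ℝ (M.eigenspace σ)) → ℝ) →L[ℝ] ℝ :=
    fun k => ∑ i, A k i • ContinuousLinearMap.proj i
  have hL : ∀ k z, L k z = ∑ i, A k i * z i := by
    intro k z
    simp [L]
  apply h _ (C.isGram hΦ hA hL) (C'.isGram hΦ hA hL)
  ext z
  have h1 : ∀ k, L k (u 0 s - w 0 s') = 0 := by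
    intro k
    rw [map_sub, C.comp_val (hA k) (hL k), C'.comp_val (hA k) (hL k)]
    exact sub_eq_zero.mpr (hcon k)
  simp [h1]

end Surface

end Stek
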