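import Pool.Agent.H.MP_fc2485_gt.Bdd4
import Pool.Agent.H.MP_fc2485_gt.Main

/-!
Maps with values in the ball of a space of dimension at most four.
-/

set_option maxSynthPendingDepth 3

open Set Filter Topology InnerProductSpace
open scoped ContDiff

namespace Stek

variable {m : ℕ}

/-- the complex matrix of a real form -/
noncomputable def toC (Q : Bil (Fin m → ℝ)) (z : Fin m × Fin m) : ℂ :=
  ((Q (Pi.single z.1 1) (Pi.single z.2 1) : ℝ) : ℂ)

theorem single_sum (v : Fin m → ℝ) : v = ∑ i, v i • (Pi.single i (1 : ℝ) : Fin m → ℝ) := by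
  funext j
  simp [Finset.sum_apply, Pi.single_apply]

theorem cf_toC (Q : Bil (Fin m → ℝ)) (v w : Fin m → ℝ) : cf (toC Q) v w = ((Q v w : ℝ) : ℂ) := by
  have h1 : Q v w = ∑ k, ∑ l, v k * (Q (Pi.single k 1) (Pi.single l 1) * w l) := by
    conv_lhs => rw [single_sum v, map_sum]
    rw [ContinuousLinearMap.sum_apply]
    apply Finset.sum_congr rfl
    intro k _
    rw [map_smul, smul_apply, smul_eq_mul]
    conv_lhs => rw [single_sum w, map_sum]
    rw [Finset.mul_sum]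
    apply Finset.sum_congr rfl
    intro l _
    rw [map_smul, smul_eq_mul]
    ring
  rw [h1]
  unfold cf toC
  push_cast
  rfl

theorem toC_inj : Function.Injective (toC : Bil (Fin m → ℝ) → Fin m × Fin m → ℂ) := by
  intro Q Q' h
  ext v w
  have h1 := cf_toC Q v w
  rw [h, cf_toC Q' v w] at h1
  exact_mod_cast h1.symm

/-- real forms which are sums of at most four squares and are constant on a curve and on its
derivative -/
def Fr (u : ℕ → ℝ → Fin m → ℝ) (a b σ : ℝ) : Set (Bil (Fin m → ℝ)) :=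
  {Q | IsGram 1 (σ ^ 2) u a b Q ∧ ∃ n : ℕ, n ≤ 4 ∧ ∃ L : Fin n → (Fin m → ℝ) →L[ℝ] ℝ,
    Q = ∑ k, (L k).smulRight (L k)}

theorem Fr_finite {u : ℕ → ℝ → Fin m → ℝ} {a b : ℝ} (hab : a < b)
    (du : ∀ n, ∀ p ∈ Ioo a b, HasDerivAt (u n) (u (n + 1) p) p)
    (ucu : ∀ ξ : (Fin m → ℝ) →L[ℝ] ℝ, ∀ a' b' : ℝ, a' < b' → Ioo a' b' ⊆ Ioo a b →
      (∀ p ∈ Ioo a' b', ξ (u 0 p) = 0) → ξ = 0) (σ : ℝ) : (Fr u a b σ).Finite := by
  refine ((Gr_finite hab du ucu 1 ((σ ^ 2 : ℝ) : ℂ)).preimage toC_inj.injOn).subset ?_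
  rintro Q ⟨⟨h1, h2, h3⟩, n, hn, L, rfl⟩
  refine ⟨?_, ?_, ?_, ?_⟩
  · intro k l
    unfold toC
    rw [h1]
  · have h4 := D5_of_sum hn fun r k => L r (Pi.single k 1)
    have h5 : toC (∑ k, (L k).smulRight (L k)) = fun z : Fin m × Fin m =>
        ((∑ r, L r (Pi.single z.1 1) * L r (Pi.single z.2 1) : ℝ) : ℂ) := by
      funext z
      simp [toC]
    rw [h5]
    exact h4
  · intro p hp
    rw [cf_toC, h2 p hp, Complex.ofReal_one]
  · intro p hp
    rw [cf_toC, h3 p hp]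

/-- finitely many forms do not cover a rectangle -/
theorem not_covered {u w : ℕ → ℝ → Fin m → ℝ} {σ : ℝ} (hσ : 0 < σ) {F : Set (Bil (Fin m → ℝ))}
    (hF : F.Finite) : ∀ {a b c d : ℝ}, a < b → c < d →
    (∀ n, ∀ p ∈ Ioo a b, HasDerivAt (u n) (u (n + 1) p) p) →
    (∀ n, ∀ p ∈ Ioo c d, HasDerivAt (w n) (w (n + 1) p) p) →
    (∀ Q ∈ F, ∀ p ∈ Ioo a b, Q (u 1 p) (u 1 p) = σ ^ 2) →
    ∃ a' b' c' d' : ℝ, a' < b' ∧ c' < d' ∧ Ioo a' b' ⊆ Ioo a b ∧ Ioo c' d' ⊆ Ioo c d ∧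
      ∀ p ∈ Ioo a' b', ∀ q ∈ Ioo c' d', ∀ Q ∈ F, Q (u 0 p - w 0 q) ≠ 0 := by
  induction F, hF using Set.Finite.induction_on with
  | empty =>
    intro a b c d hab hcd _ _ _
    exact ⟨a, b, c, d, hab, hcd, Subset.rfl, Subset.rfl, fun _ _ _ _ Q hQ => absurd hQ (by simp)⟩
  | @insert Q F _ _ ih =>
    intro a b c d hab hcd du dw hQ
    obtain ⟨a', b', c', d', hab', hcd', hs, hs', h⟩ := ih hab hcd du dw
      (fun Q' hQ' => hQ Q' (mem_insert_of_mem _ hQ'))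
    -- a point where the form does not kill the difference
    have hex : ∃ p ∈ Ioo a' b', ∃ q ∈ Ioo c' d', Q (u 0 p - w 0 q) ≠ 0 := by
      by_contra hcon
      push Not at hcon
      obtain ⟨p, hp⟩ := nonempty_Ioo.mpr hab'
      obtain ⟨q, hq⟩ := nonempty_Ioo.mpr hcd'
      have h1 : HasDerivAt (fun x => Q (u 0 x - w 0 q)) (Q (u 1 p)) p :=
        Q.hasFDerivAt.comp_hasDerivAt p ((du 0 p (hs hp)).sub_const _)
      have h2 := deriv_zero_of_const hp (fun x hx => hcon x hx q hq) h1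
      have h3 := hQ Q (mem_insert _ _) p (hs hp)
      rw [h2, zero_apply] at h3
      exact (pow_ne_zero 2 hσ.ne') h3.symm
    obtain ⟨p, hp, q, hq, hne⟩ := hex
    have hc : ContinuousAt (fun z : ℝ × ℝ => Q (u 0 z.1 - w 0 z.2)) (p, q) := by
      have h1 : ContinuousAt (fun z : ℝ × ℝ => u 0 z.1) (p, q) :=
        ContinuousAt.comp (f := fun z : ℝ × ℝ => z.1) (g := u 0) (x := (p, q))
          (du 0 p (hs hp)).continuousAt continuousAt_fst
      have h2 : ContinuousAt (fun z : ℝ × ℝ => w 0 z.2) (p, q) :=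
        ContinuousAt.comp (f := fun z : ℝ × ℝ => z.2) (g := w 0) (x := (p, q))
          (dw 0 q (hs' hq)).continuousAt continuousAt_snd
      exact Q.continuous.continuousAt.comp (h1.sub h2)
    obtain ⟨a2, b2, c2, d2, hp2, hq2, hs2, hs2', h2⟩ :=
      shrink (P := fun z => Q (u 0 z.1 - w 0 z.2) ≠ 0) hp hq (hc.eventually_ne hne)
    refine ⟨a2, b2, c2, d2, hp2.1.trans hp2.2, hq2.1.trans hq2.2, hs2.trans hs, hs2'.trans hs', ?_⟩
    intro x hx y hy Q' hQ'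
    rcases mem_insert_iff.mp hQ' with rfl | hQ'
    · exact h2 x hx y hy
    · exact h x (hs2 hx) y (hs2' hy) Q' hQ'

namespace Surface

variable {S : Type*} [TopologicalSpace S]

/-- the Gram kernels of the maps to balls of dimension at most four -/
def kernels (M : Surface S) (σ : ℝ) : Set (S → S → ℝ) :=
  {G | ∃ n : ℕ, n ≤ 4 ∧ ∃ Φ : Fin n → S → ℝ, M.IsFree σ Φ ∧ ∀ x y, G x y = ∑ k, Φ k x * Φ k y}

theorem kernels_finite [ConnectedSpace S] (M : Surface S) {σ : ℝ}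
    (hdim : Module.Finite ℝ (M.eigenspace σ)) (hb : M.bdry.Nonempty) :
    (M.kernels σ).Finite := by
  let e := Module.finBasis ℝ (M.eigenspace σ)
  obtain ⟨p, hp⟩ := hb
  obtain ⟨φ, hφ, x0, δ, hx0, hδ, -⟩ := M.arc_mem hp univ_mem
  obtain ⟨X, η, u, C, hX⟩ := M.exists_curve σ e hφ hx0 hδ
  have hfin := Fr_finite (by linarith [C.hη] : -η < η) C.du (C.uc e.linearIndependent) σ
  let ev : S → Fin (Module.finrank ℝ (M.eigenspace σ)) → ℝ := fun x i => (e i : S → ℝ) x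
  refine (hfin.image fun Q => fun x y => Q (ev x) (ev y)).subset ?_
  rintro G ⟨n, hn, Φ, hΦ, hG⟩
  let A : Fin n → Fin (Module.finrank ℝ (M.eigenspace σ)) → ℝ :=
    fun k i => e.repr ⟨Φ k, hΦ.mem k⟩ i
  have hA : ∀ k, (⟨Φ k, hΦ.mem k⟩ : M.eigenspace σ) = ∑ i, A k i • e i :=
    fun k => (e.sum_repr _).symm
  let L : Fin n → (Fin (Module.finrank ℝ (M.eigenspace σ)) → ℝ) →L[ℝ] ℝ :=
    fun k => ∑ i, A k i • ContinuousLinearMap.proj i
  have hL : ∀ k z, L k z = ∑ i, A k i * z i := by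
    intro k z
    simp [L]
  refine ⟨∑ k, (L k).smulRight (L k), ⟨C.isGram hΦ hA hL, n, hn, L, rfl⟩, ?_⟩
  have hval : ∀ k x, L k (ev x) = Φ k x := by
    intro k x
    rw [hL]
    have h1 := congrArg (fun f : M.eigenspace σ => (f : S → ℝ) x) (hA k)
    simp only [Submodule.coe_sum, Submodule.coe_smul, Finset.sum_apply, Pi.smul_apply,
      smul_eq_mul] at h1
    exact h1.symm
  funext x y
  rw [hG]
  simp [hval]

/-- separation by all the maps to balls of dimension at most four -/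
theorem separation4 [ConnectedSpace S] (M : Surface S) {σ : ℝ} (hσ : 0 < σ)
    (hdim : Module.Finite ℝ (M.eigenspace σ)) {p q : S} (hp : p ∈ M.bdry) (hq : q ∈ M.bdry)
    {O O' : Set S} (hO : O ∈ 𝓝 p) (hO' : O' ∈ 𝓝 q) :
    ∃ p' ∈ O ∩ connectedComponentIn M.bdry p, ∃ q' ∈ O' ∩ connectedComponentIn M.bdry q,
      ∀ n : ℕ, n ≤ 4 → ∀ Φ : Fin n → S → ℝ, M.IsFree σ Φ → ∃ k, Φ k p' ≠ Φ k q' := by
  let e := Module.finBasis ℝ (M.eigenspace σ)
  obtain ⟨φ, hφ, x0, δ, hx0, hδ, harc⟩ := M.arc_mem hp hO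
  obtain ⟨ψ, hψ, y0, δ', hy0, hδ', harc'⟩ := M.arc_mem hq hO'
  obtain ⟨X, η, u, C, hX⟩ := M.exists_curve σ e hφ hx0 hδ
  obtain ⟨Y, η', w, C', hY⟩ := M.exists_curve σ e hψ hy0 hδ'
  have hfin := Fr_finite (by linarith [C.hη] : -η < η) C.du (C.uc e.linearIndependent) σ
  obtain ⟨a, b, c, d, hab, hcd, hs1, hs2, h⟩ := not_covered hσ hfin
    (by linarith [C.hη] : -η < η) (by linarith [C'.hη] : -η' < η') C.du C'.du
    (fun Q hQ => hQ.1.2.2)
  obtain ⟨s, hs⟩ := nonempty_Ioo.mpr hab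
  obtain ⟨s', hs'⟩ := nonempty_Ioo.mpr hcd
  refine ⟨φ.map.symm (X s), harc _ (hX s (hs1 hs)), ψ.map.symm (Y s'), harc' _ (hY s' (hs2 hs')),
    ?_⟩
  intro n hn Φ hΦ
  by_contra hcon
  push Not at hcon
  let A : Fin n → Fin (Module.finrank ℝ (M.eigenspace σ)) → ℝ :=
    fun k i => e.repr ⟨Φ k, hΦ.mem k⟩ i
  have hA : ∀ k, (⟨Φ k, hΦ.mem k⟩ : M.eigenspace σ) = ∑ i, A k i • e i :=
    fun k => (e.sum_repr _).symm
  let L : Fin n → (Fin (Module.finrank ℝ (M.eigenspace σ)) → ℝ) →L[ℝ] ℝ :=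
    fun k => ∑ i, A k i • ContinuousLinearMap.proj i
  have hL : ∀ k z, L k z = ∑ i, A k i * z i := by
    intro k z
    simp [L]
  apply h s hs s' hs' (∑ k, (L k).smulRight (L k)) ⟨C.isGram hΦ hA hL, n, hn, L, rfl⟩
  ext z
  have h1 : ∀ k, L k (u 0 s - w 0 s') = 0 := by
    intro k
    rw [map_sub, C.comp_val (hA k) (hL k), C'.comp_val (hA k) (hL k)]
    exact sub_eq_zero.mpr (hcon k)
  simp [h1]

end Surface

end Stek
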