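import Pool.Agent.H.MP_fc2485_gt.WronC
import Pool.Agent.H.MP_fc2485_gt.Wron
import Pool.Agent.H.MP_fc2485_gt.AlgSet

/-!
Complex symmetric forms of rank at most four which vanish on a curve and on its derivative.
-/

set_option maxSynthPendingDepth 3

open Set Filter Topology
open scoped ContDiff Matrix

namespace Stek

variable {m : ℕ}

/-- The value of the complex form with matrix `x` on two real vectors. -/
noncomputable def cf (x : Fin m × Fin m → ℂ) (v w : Fin m → ℝ) : ℂ :=
  ∑ k, ∑ l, (v k : ℂ) * (x (k, l) * (w l : ℂ))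

/-- the value of the complex form with matrix `x` on two complex vectors -/
noncomputable def cg (x : Fin m × Fin m → ℂ) (v w : Fin m → ℂ) : ℂ :=
  ∑ k, ∑ l, v k * (x (k, l) * w l)

/-- all the `5 × 5` determinants of the form vanish -/
def D5 (x : Fin m × Fin m → ℂ) : Prop :=
  ∀ v w : Fin 5 → Fin m → ℂ, Matrix.det (Matrix.of fun i j => cg x (v i) (w j)) = 0

theorem cf_eq_cg (x : Fin m × Fin m → ℂ) (v w : Fin m → ℝ) :
    cf x v w = cg x (fun k => (v k : ℂ)) (fun l => (w l : ℂ)) := rfl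

theorem cf_symm {x : Fin m × Fin m → ℂ} (hx : ∀ k l, x (k, l) = x (l, k)) (v w : Fin m → ℝ) :
    cf x v w = cf x w v := by
  unfold cf
  rw [Finset.sum_comm]
  apply Finset.sum_congr rfl
  intro k _
  apply Finset.sum_congr rfl
  intro l _
  rw [hx l k]
  ring

/-- the form as a matrix product -/
theorem cg_eq (x : Fin m × Fin m → ℂ) (v w : Fin m → ℂ) :
    cg x v w = ∑ k, v k * ((Matrix.of fun i j => x (i, j)) *ᵥ w) k := by
  unfold cg
  apply Finset.sum_congr rfl
  intro k _
  rw [Matrix.mulVec, dotProduct, Finset.mul_sum]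
  rfl

/-- derivative of the form along jets -/
theorem cf_deriv (x : Fin m × Fin m → ℂ) {f g : ℝ → Fin m → ℝ} {f' g' : Fin m → ℝ} {s : ℝ}
    (hf : HasDerivAt f f' s) (hg : HasDerivAt g g' s) :
    HasDerivAt (fun s => cf x (f s) (g s)) (cf x f' (g s) + cf x (f s) g') s := by
  have hf1 : ∀ k, HasDerivAt (fun s => ((f s k : ℝ) : ℂ)) ((f' k : ℝ) : ℂ) s := fun k =>
    (hasDerivAt_pi.mp hf k).ofReal_comp
  have hg1 : ∀ k, HasDerivAt (fun s => ((g s k : ℝ) : ℂ)) ((g' k : ℝ) : ℂ) s := fun k =>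
    (hasDerivAt_pi.mp hg k).ofReal_comp
  have h1 : HasDerivAt (fun s => cf x (f s) (g s))
      (∑ k, ∑ l, (((f' k : ℝ) : ℂ) * (x (k, l) * ((g s l : ℝ) : ℂ)) +
        ((f s k : ℝ) : ℂ) * (x (k, l) * ((g' l : ℝ) : ℂ)))) s := by
    unfold cf
    apply HasDerivAt.fun_sum
    intro k _
    apply HasDerivAt.fun_sum
    intro l _
    exact (hf1 k).mul ((hg1 l).const_mul (x (k, l)))
  refine h1.congr_deriv ?_
  unfold cf
  rw [← Finset.sum_add_distrib]
  apply Finset.sum_congr rfl
  intro k _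
  rw [← Finset.sum_add_distrib]

theorem zero_deriv_of_const {f : ℝ → ℂ} {f' c : ℂ} {p a b : ℝ} (hp : p ∈ Ioo a b)
    (hc : ∀ x ∈ Ioo a b, f x = c) (hf : HasDerivAt f f' p) : f' = 0 := by
  have h1 : f =ᶠ[𝓝 p] fun _ => c := by
    filter_upwards [Ioo_mem_nhds hp.1 hp.2] with x hx using hc x hx
  exact hf.unique ((hasDerivAt_const p c).congr_of_eventuallyEq h1)

/-- a form vanishing on a curve and on its derivative -/
theorem cf_jets {x : Fin m × Fin m → ℂ} (hx : ∀ k l, x (k, l) = x (l, k))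
    {u : ℕ → ℝ → Fin m → ℝ} {a b : ℝ}
    (du : ∀ n, ∀ p ∈ Ioo a b, HasDerivAt (u n) (u (n + 1) p) p)
    (h0 : ∀ p ∈ Ioo a b, cf x (u 0 p) (u 0 p) = 0) (h1 : ∀ p ∈ Ioo a b, cf x (u 1 p) (u 1 p) = 0) :
    ∀ p ∈ Ioo a b, ∀ j < 4, cf x (u 0 p) (u j p) = 0 := by
  have e01 : ∀ p ∈ Ioo a b, cf x (u 0 p) (u 1 p) = 0 := by
    intro p hp
    have := zero_deriv_of_const hp h0 (cf_deriv x (du 0 p hp) (du 0 p hp))
    rw [cf_symm hx (u (0 + 1) p) (u 0 p)] at this
    simp only [zero_add] at this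
    linear_combination this / 2
  have e12 : ∀ p ∈ Ioo a b, cf x (u 1 p) (u 2 p) = 0 := by
    intro p hp
    have := zero_deriv_of_const hp h1 (cf_deriv x (du 1 p hp) (du 1 p hp))
    rw [cf_symm hx (u (1 + 1) p) (u 1 p)] at this
    norm_num at this
    exact this
  have e02 : ∀ p ∈ Ioo a b, cf x (u 0 p) (u 2 p) = 0 := by
    intro p hp
    have := zero_deriv_of_const hp e01 (cf_deriv x (du 0 p hp) (du 1 p hp))
    norm_num at this
    rw [h1 p hp, zero_add] at this
    exact this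
  have e03 : ∀ p ∈ Ioo a b, cf x (u 0 p) (u 3 p) = 0 := by
    intro p hp
    have := zero_deriv_of_const hp e02 (cf_deriv x (du 0 p hp) (du 2 p hp))
    norm_num at this
    rw [e12 p hp, zero_add] at this
    exact this
  intro p hp j hj
  interval_cases j
  · exact h0 p hp
  · exact e01 p hp
  · exact e02 p hp
  · exact e03 p hp

/-- the rank -/
theorem D5.finrank_le {x : Fin m × Fin m → ℂ} (h : D5 x) :
    Module.finrank ℂ (LinearMap.range (Matrix.mulVecLin (Matrix.of fun i j => x (i, j)))) ≤ 4 := by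
  by_contra hcon
  push Not at hcon
  set A : Matrix (Fin m) (Fin m) ℂ := Matrix.of fun i j => x (i, j) with hA
  set W := LinearMap.range (Matrix.mulVecLin A) with hW
  let e := Module.finBasis ℂ W
  let ι : Fin 5 → Fin (Module.finrank ℂ W) := Fin.castLE hcon
  have hy : ∀ j : Fin 5, ∃ y : Fin m → ℂ, A *ᵥ y = (e (ι j) : Fin m → ℂ) := by
    intro j
    obtain ⟨y, hy⟩ := (e (ι j)).2
    exact ⟨y, hy⟩
  choose y hy using hy
  have hz : ∀ i : Fin 5, ∃ z : Fin m → ℂ, ∀ w : W,
      ∑ k, z k * (w : Fin m → ℂ) k = e.coord (ι i) w := by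
    intro i
    obtain ⟨g, hg⟩ := LinearMap.exists_extend (e.coord (ι i))
    refine ⟨fun k => g (Pi.single k 1), ?_⟩
    intro w
    have h1 : g (w : Fin m → ℂ) = e.coord (ι i) w := by
      rw [← hg]
      rfl
    rw [← h1]
    conv_rhs => rw [pi_eq_sum_univ (w : Fin m → ℂ)]
    rw [map_sum]
    apply Finset.sum_congr rfl
    intro k _
    rw [map_smul, smul_eq_mul, mul_comm]
    have h2 : (Pi.single k 1 : Fin m → ℂ) = fun j => if k = j then 1 else 0 := by
      funext l
      simp [Pi.single_apply, eq_comm]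
    simp only [h2]
  choose z hz using hz
  have h1 := h z y
  have h2 : (Matrix.of fun i j => cg x (z i) (y j)) = (1 : Matrix (Fin 5) (Fin 5) ℂ) := by
    ext i j
    rw [Matrix.of_apply, cg_eq, ← hA, hy j, hz i (e (ι j)), Module.Basis.coord_apply,
      Module.Basis.repr_self, Matrix.one_apply]
    have hinj : Function.Injective ι := Fin.castLE_injective hcon
    by_cases hij : i = j
    · rw [hij]
      simp
    · rw [if_neg hij, Finsupp.single_apply, if_neg]
      exact fun h => hij (hinj h).symm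
  rw [h2, Matrix.det_one] at h1
  exact one_ne_zero h1

/-- the inclusion of real vectors into complex vectors -/
noncomputable def cv (m : ℕ) : (Fin m → ℝ) →L[ℝ] (Fin m → ℂ) :=
  ContinuousLinearMap.pi fun k => Complex.ofRealCLM.comp (ContinuousLinearMap.proj k)

theorem cv_apply (v : Fin m → ℝ) (k : Fin m) : cv m v k = (v k : ℂ) := rfl

/-- unique continuation for complex functionals -/
theorem ucC {u : ℕ → ℝ → Fin m → ℝ} {a b : ℝ}
    (ucu : ∀ ξ : (Fin m → ℝ) →L[ℝ] ℝ, ∀ a' b' : ℝ, a' < b' → Ioo a' b' ⊆ Ioo a b →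
      (∀ p ∈ Ioo a' b', ξ (u 0 p) = 0) → ξ = 0) (Λ : (Fin m → ℝ) →L[ℝ] ℂ) {a' b' : ℝ}
    (hab : a' < b') (hs : Ioo a' b' ⊆ Ioo a b) (hz : ∀ p ∈ Ioo a' b', Λ (u 0 p) = 0) : Λ = 0 := by
  have h1 := ucu (Complex.reCLM.comp Λ) a' b' hab hs (by
    intro p hp
    rw [ContinuousLinearMap.comp_apply, hz p hp, map_zero])
  have h2 := ucu (Complex.imCLM.comp Λ) a' b' hab hs (by
    intro p hp
    rw [ContinuousLinearMap.comp_apply, hz p hp, map_zero])
  ext v
  apply Complex.ext
  · exact congrArg (fun φ : (Fin m → ℝ) →L[ℝ] ℝ => φ v) h1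
  · exact congrArg (fun φ : (Fin m → ℝ) →L[ℝ] ℝ => φ v) h2

/-- A complex symmetric form of rank at most four which vanishes on a curve and on its derivative
is zero. -/
theorem null_eq_zero {u : ℕ → ℝ → Fin m → ℝ} {a b : ℝ} (hab : a < b)
    (du : ∀ n, ∀ p ∈ Ioo a b, HasDerivAt (u n) (u (n + 1) p) p)
    (ucu : ∀ ξ : (Fin m → ℝ) →L[ℝ] ℝ, ∀ a' b' : ℝ, a' < b' → Ioo a' b' ⊆ Ioo a b →
      (∀ p ∈ Ioo a' b', ξ (u 0 p) = 0) → ξ = 0)
    {x : Fin m × Fin m → ℂ} (hx : ∀ k l, x (k, l) = x (l, k)) (hD : D5 x)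
    (h0 : ∀ p ∈ Ioo a b, cf x (u 0 p) (u 0 p) = 0)
    (h1 : ∀ p ∈ Ioo a b, cf x (u 1 p) (u 1 p) = 0) : x = 0 := by
  set A : Matrix (Fin m) (Fin m) ℂ := Matrix.of fun i j => x (i, j) with hA
  have hrank := hD.finrank_le
  rw [← hA] at hrank
  set W := LinearMap.range (Matrix.mulVecLin A) with hW
  let e := Module.finBasis ℂ W
  set d := Module.finrank ℂ W with hd
  let η : Fin d → (Fin m → ℂ) →ₗ[ℂ] ℂ := fun i =>
    (e.coord i).comp (Matrix.mulVecLin A).rangeRestrict
  let Λ : Fin d → (Fin m → ℝ) →L[ℝ] ℂ := fun i =>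
    (LinearMap.toContinuousLinearMap ((η i).restrictScalars ℝ)).comp (cv m)
  have hΛ : ∀ i v, Λ i v = η i (cv m v) := fun i v => rfl
  let f : Fin d → ℝ → ℂ := fun i s => Λ i (u 0 s)
  have hf : ∀ i, ContDiffOn ℝ ∞ (f i) (Ioo a b) := fun i =>
    (Λ i).contDiff.comp_contDiffOn (cd_jet du 0)
  have hcomb : ∀ (k : Fin d → ℂ), (∀ v : Fin m → ℝ, ∑ i, k i * Λ i v = 0) → k = 0 := by
    intro k hk
    have h2 : ∀ z : Fin m → ℂ, ∑ i, k i * η i z = 0 := by
      intro z
      have h3 : z = cv m (fun l => (z l).re) + Complex.I • cv m (fun l => (z l).im) := by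
        funext l
        simp only [Pi.add_apply, Pi.smul_apply, cv_apply, smul_eq_mul]
        rw [mul_comm Complex.I, Complex.re_add_im]
      have h4 := hk (fun l => (z l).re)
      have h5 := hk (fun l => (z l).im)
      simp only [hΛ] at h4 h5
      have h6 : ∑ i, k i * η i z = ∑ i, k i * η i (cv m (fun l => (z l).re)) +
          Complex.I * ∑ i, k i * η i (cv m (fun l => (z l).im)) := by
        rw [Finset.mul_sum, ← Finset.sum_add_distrib]
        apply Finset.sum_congr rfl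
        intro i _
        conv_lhs => rw [h3]
        rw [map_add, map_smul, smul_eq_mul]
        ring
      rw [h6, h4, h5]
      ring
    funext i
    obtain ⟨z, hz⟩ := (Matrix.mulVecLin A).surjective_rangeRestrict (e i)
    have h3 := h2 z
    have h4 : ∀ j, η j z = if i = j then 1 else 0 := by
      intro j
      change e.coord j ((Matrix.mulVecLin A).rangeRestrict z) = _
      rw [hz, Module.Basis.coord_apply, Module.Basis.repr_self, Finsupp.single_apply]
    simp only [h4] at h3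
    simpa using h3
  obtain ⟨a', b', hab', hsub, hw⟩ := wronskiC d a b hab f hf (by
    intro k a' b' hab' hsub hz
    apply hcomb
    intro v
    have h2 : (∑ i, k i • Λ i) = 0 := by
      apply ucC ucu _ hab' hsub
      intro p hp
      have := hz p hp
      simpa [f] using this
    have h3 := congrArg (fun φ : (Fin m → ℝ) →L[ℝ] ℂ => φ v) h2
    simpa using h3)
  -- the form kills the curve
  have key : ∀ s ∈ Ioo a' b', ∀ z : Fin m → ℂ, ∑ k, (u 0 s k : ℂ) * (A *ᵥ z) k = 0 := by
    intro s hs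
    let k : Fin d → ℂ := fun i => ∑ l, (u 0 s l : ℂ) * (e i : Fin m → ℂ) l
    have hexp : ∀ z : Fin m → ℂ, ∑ l, (u 0 s l : ℂ) * (A *ᵥ z) l = ∑ i, k i * η i z := by
      intro z
      have h2 : (A *ᵥ z : Fin m → ℂ) = ∑ i, η i z • (e i : Fin m → ℂ) := by
        have h3 := e.sum_repr ((Matrix.mulVecLin A).rangeRestrict z)
        have h4 := congrArg (fun w : W => (w : Fin m → ℂ)) h3
        simp only [Submodule.coe_sum, Submodule.coe_smul] at h4
        exact h4.symm
      rw [h2]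
      simp only [Finset.sum_apply, Pi.smul_apply, smul_eq_mul, k, Finset.sum_mul, Finset.mul_sum]
      rw [Finset.sum_comm]
      apply Finset.sum_congr rfl
      intro i _
      apply Finset.sum_congr rfl
      intro l _
      ring
    have hk : k = 0 := by
      apply hw s hs
      have h2 : ZC 4 (fun t => cf x (u 0 s) (u 0 t)) s := by
        refine ZC_jet (f := fun n t => cf x (u 0 s) (u n t)) 4 (hsub hs) ?_ 0 ?_
        · intro n t ht
          have h3 := cf_deriv x (hasDerivAt_const t (u 0 s)) (du n t ht)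
          refine h3.congr_deriv ?_
          simp [cf]
        · intro j hj
          rw [zero_add]
          exact cf_jets hx du h0 h1 s (hsub hs) j hj
      refine ZC_mono hrank (ZC_congr 4 ?_ h2)
      apply Eventually.of_forall
      intro t
      change cf x (u 0 s) (u 0 t) = ∑ i, k i * f i t
      rw [cf_eq_cg, cg_eq, ← hA]
      exact hexp (cv m (u 0 t))
    intro z
    rw [hexp z, hk]
    simp
  have hAz : ∀ z : Fin m → ℂ, A *ᵥ z = 0 := by
    intro z
    let Λ' : (Fin m → ℝ) →L[ℝ] ℂ :=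
      ∑ k, (ContinuousLinearMap.proj k : (Fin m → ℝ) →L[ℝ] ℝ).smulRight ((A *ᵥ z) k)
    have hΛ' : ∀ v, Λ' v = ∑ k, (v k : ℂ) * (A *ᵥ z) k := by
      intro v
      simp [Λ']
    have h2 : Λ' = 0 := by
      apply ucC ucu _ hab' hsub
      intro p hp
      rw [hΛ']
      exact key p hp z
    funext k
    have h3 := congrArg (fun φ : (Fin m → ℝ) →L[ℝ] ℂ => φ (Pi.single k 1)) h2
    simp only [hΛ', zero_apply] at h3
    rw [Finset.sum_eq_single k] at h3
    · simpa using h3
    · intro l _ hl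
      simp [Pi.single_eq_of_ne hl]
    · simp
  funext ⟨k, l⟩
  have h2 := congrFun (hAz (Pi.single l 1)) k
  simpa [hA] using h2

end Stek
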