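import Mathlib

/-!
Smooth solutions of linear systems, and generic linear independence of derivatives.
-/

set_option maxSynthPendingDepth 3

open Set Filter Topology
open scoped ContDiff

namespace Stek

/-- A family of linear systems, solvable for each parameter, has a differentiable solution on some
nonempty open set of parameters. -/
theorem selection {Z F G : Type*} [NormedAddCommGroup Z] [NormedSpace ℝ Z]
    [NormedAddCommGroup F] [NormedSpace ℝ F] [FiniteDimensional ℝ F]
    [NormedAddCommGroup G] [NormedSpace ℝ G] [FiniteDimensional ℝ G]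
    (M : Z → F →L[ℝ] G) (b : Z → G) {O : Set Z} (hO : IsOpen O) (hne : O.Nonempty)
    (hM : ∀ z ∈ O, DifferentiableAt ℝ M z) (hb : ∀ z ∈ O, DifferentiableAt ℝ b z)
    (hs : ∀ z ∈ O, ∃ x, M z x = b z) :
    ∃ O' ⊆ O, IsOpen O' ∧ O'.Nonempty ∧ ∃ s : Z → F, (∀ z ∈ O', DifferentiableAt ℝ s z) ∧
      ∀ z ∈ O', M z (s z) = b z := by
  -- a point of maximal rank
  let R : Set ℕ := (fun z => Module.finrank ℝ (LinearMap.range (M z : F →ₗ[ℝ] G))) '' O
  have hRb : BddAbove R := by
    refine ⟨Module.finrank ℝ F, ?_⟩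
    rintro n ⟨z, -, rfl⟩
    exact LinearMap.finrank_range_le _
  have hRn : R.Nonempty := hne.image _
  obtain ⟨z0, hz0, hr⟩ := Nat.sSup_mem hRn hRb
  have hmax : ∀ z ∈ O, Module.finrank ℝ (LinearMap.range (M z : F →ₗ[ℝ] G)) ≤
      Module.finrank ℝ (LinearMap.range (M z0 : F →ₗ[ℝ] G)) := by
    intro z hz
    have h1 : Module.finrank ℝ (LinearMap.range (M z : F →ₗ[ℝ] G)) ≤ sSup R :=
      le_csSup hRb ⟨z, hz, rfl⟩
    simp only at hr
    rw [← hr] at h1
    exact h1
  obtain ⟨T', hT'⟩ := Submodule.exists_isCompl (LinearMap.ker (M z0 : F →ₗ[ℝ] G))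
  have hdim : Module.finrank ℝ T' = Module.finrank ℝ (LinearMap.range (M z0 : F →ₗ[ℝ] G)) := by
    have h1 := Submodule.finrank_add_eq_of_isCompl hT'
    have h2 := LinearMap.finrank_range_add_finrank_ker (M z0 : F →ₗ[ℝ] G)
    omega
  let ι : T' →L[ℝ] F := T'.subtypeL
  let m0 : T' →ₗ[ℝ] G := (M z0 : F →ₗ[ℝ] G) ∘ₗ T'.subtype
  have hm0 : LinearMap.ker m0 = ⊥ := by
    rw [LinearMap.ker_eq_bot']
    intro x hx
    have h1 : (x : F) ∈ LinearMap.ker (M z0 : F →ₗ[ℝ] G) ⊓ T' := ⟨hx, x.2⟩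
    rw [hT'.inf_eq_bot] at h1
    exact Subtype.ext h1
  obtain ⟨g, hg⟩ := LinearMap.exists_leftInverse_of_injective m0 hm0
  let L : G →L[ℝ] T' := LinearMap.toContinuousLinearMap g
  let N : Z → T' →L[ℝ] T' := fun z => (L.comp (M z)).comp ι
  have hN0 : N z0 = 1 := by
    ext x
    have := LinearMap.congr_fun hg x
    simpa [N, L, ι, m0] using congrArg (Subtype.val) this
  have hNd : ∀ z ∈ O, DifferentiableAt ℝ N z := by
    intro z hz
    have h1 := hM z hz
    have h2 : DifferentiableAt ℝ (fun z => L.comp (M z)) z := by fun_prop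
    exact h2.clm_comp (differentiableAt_const ι)
  have hunit : ∀ᶠ z in 𝓝 z0, IsUnit (N z) := by
    have h1 : {x : T' →L[ℝ] T' | IsUnit x} ∈ 𝓝 (N z0) :=
      Units.isOpen.mem_nhds (by rw [hN0]; exact isUnit_one)
    exact (hNd z0 hz0).continuousAt h1
  obtain ⟨O', hO'1, hO'2, hO'3⟩ := mem_nhds_iff.mp (hunit.and (hO.mem_nhds hz0))
  refine ⟨O', fun z hz => (hO'1 hz).2, hO'2, ⟨z0, hO'3⟩,
    fun z => ι (Ring.inverse (N z) (L (b z))), ?_, ?_⟩
  · intro z hz
    have hzO := (hO'1 hz).2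
    have hu := (hO'1 hz).1
    have h1 : DifferentiableAt ℝ (fun z => Ring.inverse (N z)) z :=
      (differentiableAt_inverse hu).comp z (hNd z hzO)
    have h2 := hb z hzO
    have h3 : DifferentiableAt ℝ (fun z => L (b z)) z := by fun_prop
    have h4 := h1.clm_apply h3
    exact ι.differentiableAt.comp z h4
  · intro z hz
    have hzO := (hO'1 hz).2
    have hu := (hO'1 hz).1
    obtain ⟨v, hv⟩ := hu
    let mz : T' →ₗ[ℝ] G := (M z : F →ₗ[ℝ] G) ∘ₗ T'.subtype
    have hinj : Function.Injective mz := by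
      intro x y hxy
      have h1 : N z x = N z y := by
        change L (M z x) = L (M z y)
        have : M z x = M z y := hxy
        rw [this]
      rw [← hv] at h1
      have h2 := congrArg (v⁻¹ : (T' →L[ℝ] T')ˣ).val h1
      rw [← mul_apply_eq_comp, ← mul_apply_eq_comp, v.inv_mul] at h2
      simpa using h2
    have hle : LinearMap.range mz ≤ LinearMap.range (M z : F →ₗ[ℝ] G) :=
      LinearMap.range_comp_le_range _ _
    have heq : LinearMap.range mz = LinearMap.range (M z : F →ₗ[ℝ] G) := by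
      apply Submodule.eq_of_le_of_finrank_le hle
      rw [LinearMap.finrank_range_of_inj hinj, hdim]
      exact hmax z hzO
    obtain ⟨x, hx⟩ := hs z hzO
    have hmem : b z ∈ LinearMap.range mz := by
      rw [heq, ← hx]
      exact ⟨x, rfl⟩
    obtain ⟨y, hy⟩ := hmem
    have hy' : M z y = b z := hy
    have h3 : Ring.inverse (N z) (L (b z)) = y := by
      rw [← hy', ← hv, Ring.inverse_unit]
      have h4 : L (M z y) = (v : T' →L[ℝ] T') y := by
        rw [hv]
        rfl
      rw [h4, ← mul_apply_eq_comp, v.inv_mul]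
      rfl
    simp only [h3]
    exact hy'

/-- all derivatives of order less than `n` vanish at `q` -/
def Z : ℕ → (ℝ → ℝ) → ℝ → Prop
  | 0, _, _ => True
  | n + 1, f, q => f q = 0 ∧ Z n (deriv f) q

theorem Z_congr (n : ℕ) {f g : ℝ → ℝ} {q : ℝ} (h : f =ᶠ[𝓝 q] g) (hf : Z n f q) : Z n g q := by
  induction n generalizing f g with
  | zero => trivial
  | succ n ih => exact ⟨h.eq_of_nhds ▸ hf.1, ih h.deriv hf.2⟩

theorem Z_pred (n : ℕ) {f : ℝ → ℝ} {q : ℝ} (hf : Z (n + 1) f q) : Z n f q := by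
  induction n generalizing f with
  | zero => trivial
  | succ n ih => exact ⟨hf.1, ih hf.2⟩

theorem Z_add (n : ℕ) {f g : ℝ → ℝ} {a b q : ℝ} (hq : q ∈ Ioo a b)
    (df : ContDiffOn ℝ ∞ f (Ioo a b)) (dg : ContDiffOn ℝ ∞ g (Ioo a b)) (hf : Z n f q)
    (hg : Z n g q) : Z n (fun x => f x + g x) q := by
  induction n generalizing f g with
  | zero => trivial
  | succ n ih =>
    refine ⟨by simp [hf.1, hg.1], ?_⟩
    have h1 := ih (df.deriv_of_isOpen isOpen_Ioo (by simp)) (dg.deriv_of_isOpen isOpen_Ioo (by simp))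
      hf.2 hg.2
    refine Z_congr n ?_ h1
    filter_upwards [Ioo_mem_nhds hq.1 hq.2] with x hx
    have e1 : DifferentiableAt ℝ f x := (df.contDiffAt (Ioo_mem_nhds hx.1 hx.2)).differentiableAt
      (by simp)
    have e2 : DifferentiableAt ℝ g x := (dg.contDiffAt (Ioo_mem_nhds hx.1 hx.2)).differentiableAt
      (by simp)
    exact (e1.hasDerivAt.add e2.hasDerivAt).deriv.symm

theorem Z_mul (n : ℕ) {f g : ℝ → ℝ} {a b q : ℝ} (hq : q ∈ Ioo a b)
    (df : ContDiffOn ℝ ∞ f (Ioo a b)) (dg : ContDiffOn ℝ ∞ g (Ioo a b)) (hf : Z n f q) :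
    Z n (fun x => f x * g x) q := by
  induction n generalizing f g with
  | zero => trivial
  | succ n ih =>
    refine ⟨by simp [hf.1], ?_⟩
    have df' := df.deriv_of_isOpen isOpen_Ioo (m := ∞) (by simp)
    have dg' := dg.deriv_of_isOpen isOpen_Ioo (m := ∞) (by simp)
    have h1 := ih df' dg hf.2
    have h2 := ih df dg' (Z_pred n hf)
    have h3 := Z_add n hq (df'.mul dg) (df.mul dg') h1 h2
    refine Z_congr n ?_ h3
    filter_upwards [Ioo_mem_nhds hq.1 hq.2] with x hx
    have e1 : DifferentiableAt ℝ f x := (df.contDiffAt (Ioo_mem_nhds hx.1 hx.2)).differentiableAt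
      (by simp)
    have e2 : DifferentiableAt ℝ g x := (dg.contDiffAt (Ioo_mem_nhds hx.1 hx.2)).differentiableAt
      (by simp)
    exact (e1.hasDerivAt.mul e2.hasDerivAt).deriv.symm

end Stek
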