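import Pool.Agent.H.MP_fc2485_gt.CaseB

/-!
The second case is impossible.
-/

set_option maxSynthPendingDepth 3

open Set Filter Topology

namespace Stek

variable {U : Type*} [NormedAddCommGroup U] [NormedSpace ℝ U]

/-- a function with negative second derivative and vanishing first derivative is smaller to the
right of the point -/
theorem lt_of_second_deriv {F G : ℝ → ℝ} {k r : ℝ} (hk : k < 0) (hr : 0 < r)
    (hF : ∀ x ∈ Ioo (-r) r, HasDerivAt F (G x) x) (hG : HasDerivAt G k 0) (hG0 : G 0 = 0) :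
    ∃ δ : ℝ, 0 < δ ∧ ∀ y : ℝ, 0 < y → y < δ → F y < F 0 := by
  have h1 := hG.isLittleO.def (c := -k / 2) (by linarith)
  obtain ⟨ε, hε, h2⟩ := Metric.eventually_nhds_iff.mp h1
  refine ⟨min ε r, lt_min hε hr, ?_⟩
  intro y hy0 hy1
  have hyε : y < ε := lt_of_lt_of_le hy1 (min_le_left _ _)
  have hyr : y < r := lt_of_lt_of_le hy1 (min_le_right _ _)
  have hneg : ∀ z, 0 < z → z < ε → G z < 0 := by
    intro z hz0 hz1
    have h3 := h2 (y := z) (by rw [Real.dist_eq, sub_zero, abs_of_pos hz0]; exact hz1)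
    rw [hG0, sub_zero, sub_zero, Real.norm_eq_abs, Real.norm_eq_abs, abs_of_pos hz0] at h3
    have h4 := (abs_le.mp h3).2
    simp only [smul_eq_mul] at h4
    nlinarith
  have hc : ContinuousOn F (Icc 0 y) := fun x hx =>
    (hF x ⟨by linarith [hx.1], by linarith [hx.2]⟩).continuousAt.continuousWithinAt
  obtain ⟨z, hz, hz'⟩ := exists_hasDerivAt_eq_slope F G hy0 hc
    (fun x hx => hF x ⟨by linarith [hx.1], by linarith [hx.2]⟩)
  have h5 := hneg z hz.1 (hz.2.trans hyε)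
  rw [hz', sub_zero, div_lt_iff₀ hy0, zero_mul] at h5
  linarith

namespace Wave

variable {ε σ : ℝ} {u w : ℕ → ℝ → U} {T : Submodule ℝ (Bil U)} {Q0 : Bil U}
    {s s1 s2 : ℝ × ℝ → Bil U} {a b c d : ℝ} {t1 t2 : Bil U}

theorem ne0 (V : Wave ε σ u w T Q0 s s1 s2 a b c d t1 t2) : ε ≠ 0 := by
  rintro h
  have := V.hε
  rw [h] at this
  norm_num at this

theorem hx1 (V : Wave ε σ u w T Q0 s s1 s2 a b c d t1 t2) {x y : ℝ} (hx : x ∈ Ioo a b)
    (hy : y ∈ Ioo c d) {t : Bil U} (ht : t ∈ T) :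
    t (u 1 x) (w 1 y) = ε * t (u 2 x) (w 0 y) := by
  have m1 := V.D.dp t 0 1 y hx
  have m2 := (V.D.dp t 1 0 y hx).const_mul ε
  have m3 : (fun x' => t (u 0 x') (w 1 y)) =ᶠ[𝓝 x] (fun x' => ε * t (u 1 x') (w 0 y)) := by
    filter_upwards [Ioo_mem_nhds hx.1 hx.2] with x' hx'
    exact V.hx x' hx' y hy t ht
  exact (m1.congr_of_eventuallyEq m3.symm).unique m2

theorem hx2 (V : Wave ε σ u w T Q0 s s1 s2 a b c d t1 t2) {x y : ℝ} (hx : x ∈ Ioo a b)
    (hy : y ∈ Ioo c d) {t : Bil U} (ht : t ∈ T) :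
    t (u 2 x) (w 1 y) = ε * t (u 3 x) (w 0 y) := by
  have m1 := V.D.dp t 1 1 y hx
  have m2 := (V.D.dp t 2 0 y hx).const_mul ε
  have m3 : (fun x' => t (u 1 x') (w 1 y)) =ᶠ[𝓝 x] (fun x' => ε * t (u 2 x') (w 0 y)) := by
    filter_upwards [Ioo_mem_nhds hx.1 hx.2] with x' hx'
    exact V.hx1 hx' hy ht
  exact (m1.congr_of_eventuallyEq m3.symm).unique m2

theorem hy1 (V : Wave ε σ u w T Q0 s s1 s2 a b c d t1 t2) {x y : ℝ} (hx : x ∈ Ioo a b)
    (hy : y ∈ Ioo c d) {t : Bil U} (ht : t ∈ T) :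
    t (u 0 x) (w 2 y) = t (u 2 x) (w 0 y) := by
  have m1 := V.D.dq t 0 1 x hy
  have m2 := (V.D.dq t 1 0 x hy).const_mul ε
  have m3 : (fun y' => t (u 0 x) (w 1 y')) =ᶠ[𝓝 y] (fun y' => ε * t (u 1 x) (w 0 y')) := by
    filter_upwards [Ioo_mem_nhds hy.1 hy.2] with y' hy'
    exact V.hx x hx y' hy' t ht
  have e := (m1.congr_of_eventuallyEq m3.symm).unique m2
  have e2 := V.hx1 hx hy ht
  norm_num at e
  rw [e, e2, ← mul_assoc, V.hε, one_mul]

/-- functions satisfying the transport equation are constant on characteristics -/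
theorem transport (V : Wave ε σ u w T Q0 s s1 s2 a b c d t1 t2) (B : Bil U) (i j : ℕ)
    (hB : ∀ x ∈ Ioo a b, ∀ y ∈ Ioo c d,
      B (u i x) (w (j + 1) y) = ε * B (u (i + 1) x) (w j y))
    {x y x' y' : ℝ} (hx : x ∈ Ioo a b) (hy : y ∈ Ioo c d) (hx' : x' ∈ Ioo a b)
    (hy' : y' ∈ Ioo c d) (he : x + ε * y = x' + ε * y') :
    B (u i x) (w j y) = B (u i x') (w j y') := by
  let g : ℝ → ℝ := fun r => B (u i (x + r * (x' - x))) (w j (y + r * (y' - y)))
  have hin : ∀ r ∈ Icc (0 : ℝ) 1, x + r * (x' - x) ∈ Ioo a b ∧ y + r * (y' - y) ∈ Ioo c d := by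
    intro r hr
    constructor
    · have h1 := (convex_Ioo a b) hx hx' (a := 1 - r) (b := r) (by linarith [hr.2]) hr.1 (by ring)
      have h2 : (1 - r) • x + r • x' = x + r * (x' - x) := by
        simp only [smul_eq_mul]
        ring
      rwa [h2] at h1
    · have h1 := (convex_Ioo c d) hy hy' (a := 1 - r) (b := r) (by linarith [hr.2]) hr.1 (by ring)
      have h2 : (1 - r) • y + r • y' = y + r * (y' - y) := by
        simp only [smul_eq_mul]
        ring
      rwa [h2] at h1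
  have hd : ∀ r ∈ Icc (0 : ℝ) 1, HasDerivAt g 0 r := by
    intro r hr
    obtain ⟨k1, k2⟩ := hin r hr
    have l1 : HasDerivAt (fun r : ℝ => x + r * (x' - x)) (x' - x) r := by
      simpa using ((hasDerivAt_id r).mul_const (x' - x)).const_add x
    have l2 : HasDerivAt (fun r : ℝ => y + r * (y' - y)) (y' - y) r := by
      simpa using ((hasDerivAt_id r).mul_const (y' - y)).const_add y
    have m1 : HasDerivAt (fun r => u i (x + r * (x' - x))) ((x' - x) • u (i + 1) _) r :=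
      (V.D.du i _ k1).scomp r l1
    have m2 : HasDerivAt (fun r => w j (y + r * (y' - y))) ((y' - y) • w (j + 1) _) r :=
      (V.D.dw j _ k2).scomp r l2
    have m3 := hd_bil B m1 m2
    refine m3.congr_deriv ?_
    simp only [map_smul, smul_apply, smul_eq_mul]
    rw [hB _ k1 _ k2]
    have : x' - x + ε * (y' - y) = 0 := by linarith
    linear_combination (B (u (i + 1) (x + r * (x' - x))) (w j (y + r * (y' - y)))) * this
  have hcst := constant_of_has_deriv_right_zero (f := g) (a := 0) (b := 1)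
    (fun r hr => (hd r hr).continuousAt.continuousWithinAt)
    (fun r hr => (hd r ⟨hr.1, hr.2.le⟩).hasDerivWithinAt) 1 (by norm_num)
  simp only [g] at hcst
  norm_num at hcst
  exact hcst.symm

theorem tr0 (V : Wave ε σ u w T Q0 s s1 s2 a b c d t1 t2) {t : Bil U} (ht : t ∈ T)
    {x y x' y' : ℝ} (hx : x ∈ Ioo a b) (hy : y ∈ Ioo c d) (hx' : x' ∈ Ioo a b)
    (hy' : y' ∈ Ioo c d) (he : x + ε * y = x' + ε * y') :
    t (u 0 x) (w 0 y) = t (u 0 x') (w 0 y') :=
  V.transport t 0 0 (fun x hx y hy => V.hx x hx y hy t ht) hx hy hx' hy' he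

theorem tr2 (V : Wave ε σ u w T Q0 s s1 s2 a b c d t1 t2) {t : Bil U} (ht : t ∈ T)
    {x y x' y' : ℝ} (hx : x ∈ Ioo a b) (hy : y ∈ Ioo c d) (hx' : x' ∈ Ioo a b)
    (hy' : y' ∈ Ioo c d) (he : x + ε * y = x' + ε * y') :
    t (u 2 x) (w 0 y) = t (u 2 x') (w 0 y') :=
  V.transport t 2 0 (fun _ hx _ hy => V.hx2 hx hy ht) hx hy hx' hy' he

/-- the potential is constant on characteristics -/
theorem trH (V : Wave ε σ u w T Q0 s s1 s2 a b c d t1 t2)
    {x y x' y' : ℝ} (hx : x ∈ Ioo a b) (hy : y ∈ Ioo c d) (hx' : x' ∈ Ioo a b)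
    (hy' : y' ∈ Ioo c d) (he : x + ε * y = x' + ε * y') :
    Dat.H u w t1 t2 x y = Dat.H u w t1 t2 x' y' := by
  have hne : ∃ t ∈ T, t (u 0 x) (w 0 y) ≠ 0 := by
    by_contra hcon
    push Not at hcon
    apply V.hW x hx y hy
    unfold Dat.W
    rw [hcon t1 V.m1, hcon t2 V.m2]
    ring
  obtain ⟨t, ht, hne⟩ := hne
  have e1 := V.D.hill V.m1 V.m2 ht hx hy (V.hW x hx y hy)
  have e2 := V.D.hill V.m1 V.m2 ht hx' hy' (V.hW x' hx' y' hy')
  rw [← V.tr0 ht hx hy hx' hy' he, ← V.tr2 ht hx hy hx' hy' he, e1] at e2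
  apply mul_right_cancel₀ hne
  linarith

/-- the two partial derivatives of the family of forms agree up to sign -/
theorem s2_eq (V : Wave ε σ u w T Q0 s s1 s2 a b c d t1 t2)
    {x y : ℝ} (hx : x ∈ Ioo a b) (hy : y ∈ Ioo c d) : s2 (x, y) = ε • s1 (x, y) := by
  have hv : s2 (x, y) - ε • s1 (x, y) ∈ T :=
    T.sub_mem (V.D.s2T x hx y hy) (T.smul_mem _ (V.D.s1T x hx y hy))
  obtain ⟨a0, a1, -, a3⟩ := V.D.s1vals hx hy
  obtain ⟨b0, b1, -, b3⟩ := V.D.s2vals hx hy
  have c1 := V.hx x hx y hy _ (V.D.s1T x hx y hy)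
  rw [a1, a3] at c1
  set v := s2 (x, y) - ε • s1 (x, y) with hvdef
  have z0 : v (u 0 x) (w 0 y) = 0 := by
    rw [hvdef]
    simp only [sub_apply, smul_apply, smul_eq_mul]
    rw [a0, b0]
    ring
  have z1 : v (u 1 x) (w 0 y) = 0 := by
    rw [hvdef]
    simp only [sub_apply, smul_apply, smul_eq_mul]
    rw [a1, b3]
    linarith
  have kv := V.D.ker_of_zero V.m1 V.m2 hv hy (V.hW x hx y hy) z0 z1
  have hev : ∀ᶠ z in 𝓝 (x, y), z.1 + ε * (z.2 - y) ∈ Ioo a b := by
    have hc : ContinuousAt (fun z : ℝ × ℝ => z.1 + ε * (z.2 - y)) (x, y) := by fun_prop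
    apply hc.eventually_mem
    apply Ioo_mem_nhds
    · simpa using hx.1
    · simpa using hx.2
  obtain ⟨a', b', c', d', hp', hq', hab, hcd, hall⟩ := shrink hx hy hev
  have hz : ∀ y' ∈ Ioo c' d', v (w 0 y') = 0 := by
    intro y' hy'
    apply V.D.ucu _ a' b' (hp'.1.trans hp'.2) hab
    intro x' hx'
    rw [V.D.sym v hv]
    rw [V.tr0 hv (hab hx') (hcd hy') (hall x' hx' y' hy') hy (by
      have := V.hε
      simp only
      ring)]
    rw [V.D.sym v hv, kv]
    rfl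
  have hz2 : v = 0 := by
    ext z z'
    have : v z = 0 := by
      apply V.D.ucw _ c' d' (hq'.1.trans hq'.2) hcd
      intro y' hy'
      rw [V.D.sym v hv, hz y' hy']
      rfl
    rw [this]
    rfl
  rw [hvdef] at hz2
  exact sub_eq_zero.mp hz2

/-- the chosen form is constant on characteristics -/
theorem trs (V : Wave ε σ u w T Q0 s s1 s2 a b c d t1 t2)
    {x y x' y' : ℝ} (hx : x ∈ Ioo a b) (hy : y ∈ Ioo c d) (hx' : x' ∈ Ioo a b)
    (hy' : y' ∈ Ioo c d) (he : x + ε * y = x' + ε * y') : s (x, y) = s (x', y') := by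
  let g : ℝ → Bil U := fun r => s (x + r * (x' - x), y + r * (y' - y))
  have hin : ∀ r ∈ Icc (0 : ℝ) 1, x + r * (x' - x) ∈ Ioo a b ∧ y + r * (y' - y) ∈ Ioo c d := by
    intro r hr
    constructor
    · have h1 := (convex_Ioo a b) hx hx' (a := 1 - r) (b := r) (by linarith [hr.2]) hr.1 (by ring)
      have h2 : (1 - r) • x + r • x' = x + r * (x' - x) := by
        simp only [smul_eq_mul]
        ring
      rwa [h2] at h1
    · have h1 := (convex_Ioo c d) hy hy' (a := 1 - r) (b := r) (by linarith [hr.2]) hr.1 (by ring)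
      have h2 : (1 - r) • y + r • y' = y + r * (y' - y) := by
        simp only [smul_eq_mul]
        ring
      rwa [h2] at h1
  have hd : ∀ r ∈ Icc (0 : ℝ) 1, HasDerivAt g 0 r := by
    intro r hr
    obtain ⟨k1, k2⟩ := hin r hr
    have l1 : HasDerivAt (fun r : ℝ => x + r * (x' - x)) (x' - x) r := by
      simpa using ((hasDerivAt_id r).mul_const (x' - x)).const_add x
    have l2 : HasDerivAt (fun r : ℝ => y + r * (y' - y)) (y' - y) r := by
      simpa using ((hasDerivAt_id r).mul_const (y' - y)).const_add y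
    have m3 := (V.D.ds _ k1 _ k2).comp_hasDerivAt r (l1.prodMk l2)
    refine m3.congr_deriv ?_
    simp only [add_apply, ContinuousLinearMap.smulRight_apply, ContinuousLinearMap.coe_fst',
      ContinuousLinearMap.coe_snd']
    rw [V.s2_eq k1 k2, smul_smul, ← add_smul]
    have : x' - x + (y' - y) * ε = 0 := by linarith
    rw [this, zero_smul]
  have hcst := constant_of_has_deriv_right_zero (f := g) (a := 0) (b := 1)
    (fun r hr => (hd r hr).continuousAt.continuousWithinAt)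
    (fun r hr => (hd r ⟨hr.1, hr.2.le⟩).hasDerivWithinAt) 1 (by norm_num)
  simp only [g] at hcst
  norm_num at hcst
  exact hcst.symm

/-- the derivative of the chosen form is constant on characteristics -/
theorem trs1 (V : Wave ε σ u w T Q0 s s1 s2 a b c d t1 t2)
    {x y x' y' : ℝ} (hx : x ∈ Ioo a b) (hy : y ∈ Ioo c d) (hx' : x' ∈ Ioo a b)
    (hy' : y' ∈ Ioo c d) (he : x + ε * y = x' + ε * y') : s1 (x, y) = s1 (x', y') := by
  have m1 := V.D.ds1 hx hy
  have m2 := V.D.ds1 hx' hy'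
  have l1 : HasDerivAt (fun r : ℝ => r + (x' - x)) 1 x := (hasDerivAt_id x).add_const _
  have m2' : HasDerivAt (fun z => s (z, y')) (s1 (x', y')) (x + (x' - x)) := by
    have : x + (x' - x) = x' := by ring
    rw [this]
    exact m2
  have m3 : HasDerivAt (fun r => s (r + (x' - x), y')) ((1 : ℝ) • s1 (x', y')) x :=
    HasDerivAt.scomp (g₁ := fun z => s (z, y')) (h := fun r : ℝ => r + (x' - x)) x m2' l1
  rw [one_smul] at m3
  have m4 : (fun r => s (r, y)) =ᶠ[𝓝 x] fun r => s (r + (x' - x), y') := by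
    have hc : ContinuousAt (fun r : ℝ => r + (x' - x)) x := by fun_prop
    have hmem : Ioo a b ∈ 𝓝 (x + (x' - x)) := by
      have : x + (x' - x) = x' := by ring
      rw [this]
      exact Ioo_mem_nhds hx'.1 hx'.2
    filter_upwards [Ioo_mem_nhds hx.1 hx.2, hc.eventually_mem hmem] with r hr hr'
    exact V.trs hr hy hr' hy' (by linarith)
  exact (m1.congr_of_eventuallyEq m4.symm).unique m3

/-- the first derivative of the potential vanishes -/
theorem Hp_zero (V : Wave ε σ u w T Q0 s s1 s2 a b c d t1 t2)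
    {x y : ℝ} (hx : x ∈ Ioo a b) (hy : y ∈ Ioo c d) :
    HasDerivAt (fun x => Dat.H u w t1 t2 x y) 0 x := by
  -- a radius
  obtain ⟨ρ, hρ, hρx, hρy⟩ : ∃ ρ : ℝ, 0 < ρ ∧ (∀ r : ℝ, |r| < ρ → x + r ∈ Ioo a b) ∧
      (∀ r : ℝ, |r| < ρ → y - ε * r ∈ Ioo c d) := by
    have c1 : ContinuousAt (fun r : ℝ => x + r) 0 := by fun_prop
    have c2 : ContinuousAt (fun r : ℝ => y - ε * r) 0 := by fun_prop
    have e1 : ∀ᶠ r in 𝓝 (0 : ℝ), x + r ∈ Ioo a b := by
      apply c1.eventually_mem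
      simpa using Ioo_mem_nhds hx.1 hx.2
    have e2 : ∀ᶠ r in 𝓝 (0 : ℝ), y - ε * r ∈ Ioo c d := by
      apply c2.eventually_mem
      simpa using Ioo_mem_nhds hy.1 hy.2
    obtain ⟨ρ, hρ, h⟩ := Metric.eventually_nhds_iff.mp (e1.and e2)
    refine ⟨ρ, hρ, ?_, ?_⟩
    · intro r hr
      exact (h (by rwa [Real.dist_eq, sub_zero])).1
    · intro r hr
      exact (h (by rwa [Real.dist_eq, sub_zero])).2
  set Q : Bil U := Q0 + s (x, y) with hQ
  set t : Bil U := s1 (x, y) with htd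
  have ht : t ∈ T := V.D.s1T x hx y hy
  have hsT : s (x, y) ∈ T := V.D.sT x hx y hy
  have hε := V.hε
  have hee : ∀ r : ℝ, (x + r) + ε * (y - ε * r) = x + ε * y := by
    intro r
    linear_combination (-r) * hε
  have qsym : ∀ z z' : U, Q z z' = Q z' z := fun z z' => V.D.qtsym hsT z z'
  have K : ∀ r : ℝ, |r| < ρ → ∀ z : U, Q (u 0 (x + r)) z = Q (w 0 (y - ε * r)) z := by
    intro r hr z
    have h1 := V.D.kill (hρx r hr) (hρy r hr) z
    rw [V.trs (hρx r hr) (hρy r hr) hx hy (hee r)] at h1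
    exact h1
  have E : ∀ r : ℝ, |r| < ρ → ∀ z : U,
      Q (u 1 (x + r)) z = t (w 0 (y - ε * r)) z - t (u 0 (x + r)) z := by
    intro r hr z
    have h1 := V.D.e1 (hρx r hr) (hρy r hr) z
    rw [V.trs (hρx r hr) (hρy r hr) hx hy (hee r), V.trs1 (hρx r hr) (hρy r hr) hx hy (hee r)]
      at h1
    linarith
  -- the difference is a function of the difference of the arguments
  have L : ∀ α β : ℝ, |α| < ρ → |β| < ρ →
      Q (u 1 (x + α)) (u 0 (x + β)) - Q (u 0 (x + α)) (u 1 (x + β)) =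
        t (u 0 (x + β)) (w 0 (y - ε * α)) - t (u 0 (x + α)) (w 0 (y - ε * β)) := by
    intro α β hα hβ
    rw [qsym (u 0 (x + α)) (u 1 (x + β)), E α hα, E β hβ, V.D.sym t ht (w 0 (y - ε * α)),
      V.D.sym t ht (w 0 (y - ε * β)), V.D.sym t ht (u 0 (x + β)) (u 0 (x + α))]
    ring
  have S2 : ∀ β : ℝ, |β| < ρ → Q (u 2 x) (u 0 (x + β)) = Q (u 0 x) (u 2 (x + β)) := by
    intro β hβ
    have hβx := hρx β hβ
    have f1 : HasDerivAt (fun r : ℝ => x + r) 1 0 := (hasDerivAt_id (0 : ℝ)).const_add x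
    have f2 : HasDerivAt (fun r : ℝ => x + β + r) 1 0 := (hasDerivAt_id (0 : ℝ)).const_add _
    have g1 : ∀ i, HasDerivAt (fun r : ℝ => u i (x + r)) (u (i + 1) x) 0 := by
      intro i
      have h1 : HasDerivAt (u i) (u (i + 1) x) (x + 0) := by
        rw [add_zero]
        exact V.D.du i x hx
      have h2 := h1.scomp (0 : ℝ) f1
      rw [one_smul] at h2
      exact h2
    have g2 : ∀ i, HasDerivAt (fun r : ℝ => u i (x + β + r)) (u (i + 1) (x + β)) 0 := by
      intro i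
      have h1 : HasDerivAt (u i) (u (i + 1) (x + β)) (x + β + 0) := by
        rw [add_zero]
        exact V.D.du i _ hβx
      have h2 := h1.scomp (0 : ℝ) f2
      rw [one_smul] at h2
      exact h2
    have m1 := (hd_bil Q (g1 1) (g2 0)).sub (hd_bil Q (g1 0) (g2 1))
    have m2 : (fun r : ℝ => Q (u 1 (x + r)) (u 0 (x + β + r)) -
        Q (u 0 (x + r)) (u 1 (x + β + r))) =ᶠ[𝓝 0]
        fun _ => Q (u 1 x) (u 0 (x + β)) - Q (u 0 x) (u 1 (x + β)) := by
      have c1 : ∀ᶠ r in 𝓝 (0 : ℝ), |r| < ρ := by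
        have : ContinuousAt (fun r : ℝ => |r|) 0 := by fun_prop
        exact this.eventually_lt_const (by simpa using hρ)
      have c2 : ∀ᶠ r in 𝓝 (0 : ℝ), |β + r| < ρ := by
        have : ContinuousAt (fun r : ℝ => |β + r|) 0 := by fun_prop
        exact this.eventually_lt_const (by simpa using hβ)
      filter_upwards [c1, c2] with r hr hr'
      have h1 := L r (β + r) hr hr'
      have h2 := L 0 β (by simpa using hρ) hβ
      rw [mul_zero, sub_zero, add_zero] at h2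
      rw [add_assoc x β r]
      rw [h1, h2]
      have h3 := V.tr0 ht (hρx _ hr') (hρy _ hr) hβx hy
        (by linear_combination (-r) * hε)
      have h4 := V.tr0 ht (hρx _ hr) (hρy _ hr') hx (hρy _ hβ)
        (by linear_combination (-r) * hε)
      rw [h3, h4]
    have m3 : HasDerivAt (fun r : ℝ => Q (u 1 (x + r)) (u 0 (x + β + r)) -
        Q (u 0 (x + r)) (u 1 (x + β + r))) 0 0 :=
      (hasDerivAt_const (0 : ℝ) _).congr_of_eventuallyEq m2
    have m4 := m1.unique m3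
    norm_num at m4
    linarith
  -- the inhomogeneous equation
  have club : ∀ x' ∈ Ioo a b, ∀ y' ∈ Ioo c d, Q (w 0 y') (u 2 x') +
      Dat.H u w t1 t2 x' y' * (Q (w 0 y') (u 0 x') - 1) = -σ ^ 2 := by
    intro x' hx' y' hy'
    have hs' := V.D.sT x' hx' y' hy'
    have hd : s (x, y) - s (x', y') ∈ T := T.sub_mem hsT hs'
    have e1 := V.D.hill V.m1 V.m2 hd hx' hy' (V.hW x' hx' y' hy')
    have jq := V.D.jq hs' hx'
    have k2 := V.D.kill hx' hy' (u 2 x')
    have k0 := V.D.kill hx' hy' (u 0 x')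
    rw [jq.2.2.2.1] at k2
    rw [jq.1] at k0
    rw [V.D.sym _ hd (u 2 x') (w 0 y'), V.D.sym _ hd (u 0 x') (w 0 y')] at e1
    rw [hQ]
    simp only [add_apply, sub_apply] at e1 k2 k0 ⊢
    linear_combination e1 - k2 - (Dat.H u w t1 t2 x' y') * k0
  -- evenness
  have even : ∀ r : ℝ, |r| < ρ →
      (Dat.H u w t1 t2 (x + r) y - Dat.H u w t1 t2 (x - r) y) *
        (Q (u 0 x) (u 0 (x + r)) - 1) = 0 := by
    intro r hr
    have hr' : |(-r)| < ρ := by rwa [abs_neg]
    have h1 := club (x + r) (hρx r hr) y hy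
    have h2 := club x hx (y - ε * r) (hρy r hr)
    have k0 := K 0 (by simpa using hρ) (u 2 (x + r))
    have k0' := K 0 (by simpa using hρ) (u 0 (x + r))
    rw [mul_zero, sub_zero, add_zero] at k0 k0'
    rw [← k0, ← k0'] at h1
    rw [← K r hr, ← K r hr] at h2
    rw [qsym (u 0 (x + r)) (u 2 x), S2 r hr, qsym (u 0 (x + r)) (u 0 x)] at h2
    have h3 := V.trH hx (hρy r hr) (x' := x - r) (y' := y)
      (by simpa [sub_eq_add_neg] using hρx (-r) hr') hy (by linear_combination (-r) * hε)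
    rw [h3] at h2
    linear_combination h1 - h2
  -- the first factor vanishes near zero
  have jq := V.D.jq hsT hx
  obtain ⟨δ, hδ, hlt⟩ := lt_of_second_deriv (F := fun r => Q (u 0 x) (u 0 (x + r)))
    (G := fun r => Q (u 0 x) (u 1 (x + r))) (k := -σ ^ 2) (r := ρ)
    (by nlinarith [V.D.hσ]) hρ
    (by
      intro r hr
      have hr' : |r| < ρ := abs_lt.mpr hr
      have f2 : HasDerivAt (fun r : ℝ => x + r) 1 r := (hasDerivAt_id r).const_add _
      have h1 := (V.D.du 0 _ (hρx r hr')).scomp r f2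
      simpa using hd_snd Q (u 0 x) h1)
    (by
      have f2 : HasDerivAt (fun r : ℝ => x + r) 1 0 := (hasDerivAt_id (0 : ℝ)).const_add _
      have h0 : HasDerivAt (u 1) (u 2 x) (x + 0) := by
        rw [add_zero]
        exact V.D.du 1 x hx
      have h1 := h0.scomp (0 : ℝ) f2
      have h2 := hd_snd Q (u 0 x) h1
      refine h2.congr_deriv ?_
      rw [one_smul]
      exact jq.2.2.2.1)
    (by
      rw [add_zero]
      exact jq.2.2.1)
  simp only [add_zero] at hlt
  have hQ1 : Q (u 0 x) (u 0 x) = 1 := jq.1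
  have hz : ∀ r : ℝ, 0 ≤ r → r < min δ ρ →
      Dat.H u w t1 t2 (x + r) y - Dat.H u w t1 t2 (x - r) y = 0 := by
    intro r hr0 hr1
    rcases eq_or_lt_of_le hr0 with h0 | h0
    · rw [← h0]
      simp
    · have h1 := hlt r h0 (lt_of_lt_of_le hr1 (min_le_left _ _))
      rw [hQ1] at h1
      have h2 := even r (by
        rw [abs_of_pos h0]
        exact lt_of_lt_of_le hr1 (min_le_right _ _))
      rcases mul_eq_zero.mp h2 with h | h
      · exact h
      · linarith
  -- the derivative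
  have hd := (V.D.dHp t1 t2 hx (V.hW x hx y hy)).hasDerivAt
  set h' := deriv (fun x => Dat.H u w t1 t2 x y) x with hh'
  have f1 : HasDerivAt (fun r : ℝ => x + r) 1 0 := (hasDerivAt_id (0 : ℝ)).const_add x
  have f2 : HasDerivAt (fun r : ℝ => x - r) (-1) 0 := (hasDerivAt_id (0 : ℝ)).const_sub x
  have n1 : HasDerivAt (fun r : ℝ => Dat.H u w t1 t2 (x + r) y) (h' * 1) 0 := by
    have h0 : HasDerivAt (fun x => Dat.H u w t1 t2 x y) h' (x + 0) := by
      rw [add_zero]
      exact hd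
    exact h0.comp (0 : ℝ) f1
  have n2 : HasDerivAt (fun r : ℝ => Dat.H u w t1 t2 (x - r) y) (h' * (-1)) 0 := by
    have h0 : HasDerivAt (fun x => Dat.H u w t1 t2 x y) h' (x - 0) := by
      rw [sub_zero]
      exact hd
    exact h0.comp (0 : ℝ) f2
  have n3 := (n1.sub n2).hasDerivWithinAt (s := Ici 0)
  have n4 : HasDerivWithinAt (fun _ : ℝ => (0 : ℝ)) 0 (Ici 0) 0 := hasDerivWithinAt_const _ _ _
  have n5 : HasDerivWithinAt ((fun r : ℝ => Dat.H u w t1 t2 (x + r) y) -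
      (fun r : ℝ => Dat.H u w t1 t2 (x - r) y)) 0 (Ici 0) 0 := by
    apply n4.congr_of_eventuallyEq
    · have hmin : 0 < min δ ρ := lt_min hδ hρ
      filter_upwards [Ico_mem_nhdsGE hmin] with r hr
      exact hz r hr.1 hr.2
    · simp
  have n6 : h' * 1 - h' * (-1) = 0 := (uniqueDiffWithinAt_Ici (0 : ℝ)).eq_deriv _ n3 n5
  have n7 : h' = 0 := by linarith
  rw [n7] at hd
  exact hd

/-- the wave case is impossible -/
theorem absurd (V : Wave ε σ u w T Q0 s s1 s2 a b c d t1 t2) : False := by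
  obtain ⟨p, hp⟩ := nonempty_Ioo.mpr V.D.hab
  refine V.D.swap.fin (fun y => Dat.H u w t1 t2 p y) ?_ ?_
  · intro y hy
    have h3 := V.D.contH t1 t2 hp hy (V.hW p hp y hy)
    have h4 : ContinuousAt (fun y : ℝ => (p, y)) y := by fun_prop
    exact (ContinuousAt.comp (f := fun y : ℝ => (p, y)) (g := fun z : ℝ × ℝ =>
      Dat.H u w t1 t2 z.1 z.2) (x := y) h3 h4).continuousWithinAt
  · intro y hy x hx t ht
    have e1 := V.D.hill V.m1 V.m2 ht hx hy (V.hW x hx y hy)
    have e2 : Dat.H u w t1 t2 x y = Dat.H u w t1 t2 p y := by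
      have hc : DifferentiableOn ℝ (fun x => Dat.H u w t1 t2 x y) (Ioo a b) :=
        fun x hx => (V.Hp_zero hx hy).differentiableAt.differentiableWithinAt
      exact isOpen_Ioo.is_const_of_deriv_eq_zero (convex_Ioo a b).isPreconnected hc
        (fun x hx => (V.Hp_zero hx hy).deriv) hx hp
    rw [V.D.sym t ht (w 2 y) (u 0 x), V.D.sym t ht (w 0 y) (u 0 x), V.hy1 hx hy ht, e1, e2]

end Wave

/-- There are no local data. -/
theorem Dat.absurd {σ : ℝ} {u w : ℕ → ℝ → U} {T : Submodule ℝ (Bil U)} {Q0 : Bil U}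
    {s s1 s2 : ℝ × ℝ → Bil U} {a b c d : ℝ} (D : Dat σ u w T Q0 s s1 s2 a b c d) : False := by
  obtain ⟨p, hp⟩ := nonempty_Ioo.mpr D.hab
  obtain ⟨q, hq⟩ := nonempty_Ioo.mpr D.hcd
  obtain ⟨t1, h1, t2, h2, hW⟩ := D.exists_W hp hq
  obtain ⟨r1, k1, r2, k2, hV⟩ := D.swap.exists_W hq hp
  have c1 := D.contW t1 t2 hp hq
  have c2 : ContinuousAt (fun z : ℝ × ℝ => Dat.W w u r1 r2 z.2 z.1) (p, q) := by
    have := D.swap.contW r1 r2 hq hp
    have h4 : ContinuousAt (fun z : ℝ × ℝ => (z.2, z.1)) (p, q) := by fun_prop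
    exact ContinuousAt.comp (f := fun z : ℝ × ℝ => (z.2, z.1)) (g := fun z : ℝ × ℝ =>
      Dat.W w u r1 r2 z.1 z.2) (x := (p, q)) this h4
  obtain ⟨a', b', c', d', hp', hq', hab, hcd, hall⟩ := shrink hp hq
    ((c1.eventually_ne hW).and (c2.eventually_ne hV))
  have D' := D.mono (hp'.1.trans hp'.2) (hq'.1.trans hq'.2) hab hcd
  by_cases hB : ∀ x ∈ Ioo a' b', ∀ y ∈ Ioo c' d', ∀ t ∈ T, t (u 0 x) (w 0 y) = 0 →
      t (u 1 x) (w 0 y) = 0 → t (u 0 x) (w 1 y) = 0
  · obtain ⟨ε, a'', b'', c'', d'', V⟩ := D'.exists_wave h1 h2 k1 k2 hp' hq'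
      (fun x hx y hy => (hall x hx y hy).1) (fun x hx y hy => (hall x hx y hy).2) hB
    exact V.absurd
  · push Not at hB
    obtain ⟨x, hx, y, hy, t, ht, z0, z1, z2⟩ := hB
    exact D'.caseA h1 h2 k1 k2 ht hx hy (fun x hx y hy => (hall x hx y hy).1)
      (fun x hx y hy => (hall x hx y hy).2) z0 z1 z2

end Stek
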